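import Mathlib

/-!
# Powers of the augmentation ideal of a group ring of an abelian group
-/

namespace MTate

open MonoidAlgebra

section
variable (R : Type*) [CommRing R] (G : Type*) [CommGroup G]

/-- the augmentation `R[G] → R` -/
noncomputable def eps : MonoidAlgebra R G →ₐ[R] R := MonoidAlgebra.lift R R G 1

/-- the augmentation ideal of `R[G]` -/
noncomputable def augI : Ideal (MonoidAlgebra R G) := RingHom.ker (eps R G)

end

variable {R : Type*} [CommRing R] {G G' G'' : Type*} [CommGroup G] [CommGroup G'] [CommGroup G'']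

/-- push forward of group ring elements along a homomorphism of groups -/
noncomputable def push (f : G →* G') : MonoidAlgebra R G →ₐ[R] MonoidAlgebra R G' :=
  MonoidAlgebra.mapDomainAlgHom R R f

theorem push_single (f : G →* G') (g : G) (r : R) : push f (single g r) = single (f g) r := by
  simp [push]

theorem push_of (f : G →* G') (g : G) : push f (of R G g) = of R G' (f g) := by
  simp [push]

theorem push_push (f : G →* G') (f' : G' →* G'') (x : MonoidAlgebra R G) :
    push f' (push f x) = push (f'.comp f) x := by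
  unfold push
  rw [MonoidAlgebra.mapDomainAlgHom_comp]
  rfl

theorem push_id (x : MonoidAlgebra R G) : push (MonoidHom.id G) x = x := by
  unfold push
  rw [MonoidAlgebra.mapDomainAlgHom_id]
  rfl

theorem eps_single (g : G) (r : R) : eps R G (single g r) = r := by
  simp [eps]

theorem eps_of (g : G) : eps R G (of R G g) = 1 := by
  simp [eps]

theorem mem_augI {x : MonoidAlgebra R G} : x ∈ augI R G ↔ eps R G x = 0 := RingHom.mem_ker

theorem eps_push (f : G →* G') (x : MonoidAlgebra R G) : eps R G' (push f x) = eps R G x := by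
  have : (eps R G').comp (push f) = eps R G := by
    apply MonoidAlgebra.algHom_ext
    · intro g
      simp [push_single, eps_single]
    · ext
  exact congrArg (fun F => F x) this

theorem of_sub_one_mem (g : G) : of R G g - 1 ∈ augI R G := by
  rw [mem_augI, map_sub, eps_of, map_one, sub_self]

theorem sub_eps_mem (x : MonoidAlgebra R G) :
    x - algebraMap R (MonoidAlgebra R G) (eps R G x) ∈ augI R G := by
  rw [mem_augI, map_sub, AlgHom.commutes]
  simp

theorem push_mem (f : G →* G') {x : MonoidAlgebra R G} {k : ℕ} (hx : x ∈ augI R G ^ k) :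
    push f x ∈ augI R G' ^ k := by
  have h1 : Ideal.map (push f : MonoidAlgebra R G →ₐ[R] MonoidAlgebra R G') (augI R G) ≤
      augI R G' := by
    rw [Ideal.map_le_iff_le_comap]
    intro y hy
    rw [Ideal.mem_comap, mem_augI, eps_push]
    exact mem_augI.mp hy
  have h2 : push f x ∈ Ideal.map (push f : MonoidAlgebra R G →ₐ[R] MonoidAlgebra R G')
      (augI R G ^ k) := Ideal.mem_map_of_mem _ hx
  rw [Ideal.map_pow] at h2
  exact Ideal.pow_right_mono h1 k h2

theorem push_surjective {f : G →* G'} (hf : Function.Surjective f) :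
    Function.Surjective (push f : MonoidAlgebra R G →ₐ[R] MonoidAlgebra R G') := by
  intro y
  induction y using MonoidAlgebra.induction_linear with
  | zero => exact ⟨0, map_zero _⟩
  | add a b ha hb =>
    obtain ⟨a', rfl⟩ := ha
    obtain ⟨b', rfl⟩ := hb
    exact ⟨a' + b', map_add _ _ _⟩
  | single g r =>
    obtain ⟨g', rfl⟩ := hf g
    exact ⟨single g' r, push_single _ _ _⟩

theorem exists_lift_pow {f : G →* G'} (hf : Function.Surjective f) {k : ℕ}
    {y : MonoidAlgebra R G'} (hy : y ∈ augI R G' ^ k) : ∃ x ∈ augI R G ^ k, push f x = y := by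
  have h1 : augI R G' ≤
      Ideal.map (push f : MonoidAlgebra R G →ₐ[R] MonoidAlgebra R G') (augI R G) := by
    intro z hz
    obtain ⟨w, rfl⟩ := push_surjective hf z
    refine Ideal.mem_map_of_mem _ ?_
    rw [mem_augI] at hz ⊢
    rwa [eps_push] at hz
  have h2 := Ideal.pow_right_mono h1 k hy
  rw [← Ideal.map_pow] at h2
  have h3 := (Ideal.mem_map_iff_of_surjective _ (push_surjective hf)).mp h2
  exact h3

theorem one_add_pow_exists (y : MonoidAlgebra R G) (n : ℕ) :
    ∃ w, (1 + y) ^ n = 1 + n * y + y ^ 2 * w := by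
  induction n with
  | zero => exact ⟨0, by simp⟩
  | succ n ih =>
    obtain ⟨w, hw⟩ := ih
    refine ⟨n + w + y * w, ?_⟩
    rw [pow_succ, hw]
    push_cast
    ring

/-- `n (g - 1) ∈ I^2` if `g^n = 1` -/
theorem nsmul_sub_one_mem {g : G} {n : ℕ} (hg : g ^ n = 1) :
    ∃ w, (n : MonoidAlgebra R G) * (of R G g - 1) = (of R G g - 1) ^ 2 * w := by
  obtain ⟨w, hw⟩ := one_add_pow_exists (of R G g - 1) n
  refine ⟨-w, ?_⟩
  have h1 : (1 + (of R G g - 1)) ^ n = 1 := by
    rw [add_sub_cancel, ← map_pow, hg, map_one]
  rw [h1] at hw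
  linear_combination -hw

/-- `g - 1` lies in every power of the augmentation ideal if the order of `g` is invertible -/
theorem sub_one_mem_pow {g : G} {n : ℕ} (hg : g ^ n = 1) (hn : IsUnit (n : R)) (k : ℕ) :
    of R G g - 1 ∈ augI R G ^ k := by
  obtain ⟨w, hw⟩ := nsmul_sub_one_mem (R := R) hg
  obtain ⟨u, hu⟩ := hn
  have hu' : algebraMap R (MonoidAlgebra R G) (↑u⁻¹) * (n : MonoidAlgebra R G) = 1 := by
    have : (n : MonoidAlgebra R G) = algebraMap R (MonoidAlgebra R G) (n : R) := by simp
    rw [this, ← map_mul, ← hu, Units.inv_mul, map_one]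
  have h1 : of R G g - 1 = (of R G g - 1) ^ 2 * (algebraMap R (MonoidAlgebra R G) (↑u⁻¹) * w) := by
    calc of R G g - 1 = (algebraMap R (MonoidAlgebra R G) (↑u⁻¹) * (n : MonoidAlgebra R G)) *
          (of R G g - 1) := by rw [hu', one_mul]
      _ = algebraMap R (MonoidAlgebra R G) (↑u⁻¹) * ((n : MonoidAlgebra R G) *
          (of R G g - 1)) := by ring
      _ = _ := by rw [hw]; ring
  induction k with
  | zero => simp
  | succ k ih =>
    rw [h1, pow_two, pow_succ]
    have : (of R G g - 1) * (of R G g - 1) * (algebraMap R (MonoidAlgebra R G) (↑u⁻¹) * w) =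
      (of R G g - 1) * ((of R G g - 1) * (algebraMap R (MonoidAlgebra R G) (↑u⁻¹) * w)) := by ring
    rw [this]
    refine Ideal.mul_mem_mul ih ?_
    exact Ideal.mul_mem_right _ _ (of_sub_one_mem g)

theorem sub_mapDomain_mem (J : Ideal (MonoidAlgebra R G)) (s : G → G)
    (hs : ∀ g, of R G g - of R G (s g) ∈ J) (z : MonoidAlgebra R G) :
    z - MonoidAlgebra.mapDomain s z ∈ J := by
  induction z using MonoidAlgebra.induction_linear with
  | zero => simp [MonoidAlgebra.mapDomain_zero]
  | add a b ha hb =>
    rw [MonoidAlgebra.mapDomain_add]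
    have : a + b - (MonoidAlgebra.mapDomain s a + MonoidAlgebra.mapDomain s b) =
      (a - MonoidAlgebra.mapDomain s a) + (b - MonoidAlgebra.mapDomain s b) := by ring
    rw [this]
    exact J.add_mem ha hb
  | single g r =>
    rw [MonoidAlgebra.mapDomain_single]
    have : (single g r - single (s g) r : MonoidAlgebra R G) =
        algebraMap R (MonoidAlgebra R G) r * (of R G g - of R G (s g)) := by
      rw [mul_sub]
      simp [MonoidAlgebra.single_mul_single]
    rw [this]
    exact J.mul_mem_left _ (hs g)

/-- **L1.** membership in a power of the augmentation ideal can be tested in a quotient by a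
subgroup whose elements have invertible order -/
theorem mem_pow_of_push {f : G →* G'} (hf : Function.Surjective f)
    (hK : ∀ h : G, f h = 1 → ∃ n : ℕ, h ^ n = 1 ∧ IsUnit (n : R)) {k : ℕ}
    {x : MonoidAlgebra R G} (hx : push f x ∈ augI R G' ^ k) : x ∈ augI R G ^ k := by
  obtain ⟨y, hy, hyx⟩ := exists_lift_pow hf hx
  have hz : push f (x - y) = 0 := by rw [map_sub, hyx, sub_self]
  obtain ⟨s, hs⟩ := hf.hasRightInverse
  have h1 : x - y - MonoidAlgebra.mapDomain (s ∘ f) (x - y) ∈ augI R G ^ k := by
    refine sub_mapDomain_mem _ _ ?_ _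
    intro g
    obtain ⟨n, hn, hu⟩ := hK (g * (s (f g))⁻¹) (by
      rw [map_mul, map_inv, hs (f g), mul_inv_cancel])
    have h2 := sub_one_mem_pow hn hu k
    have h3 : of R G g - of R G (s (f g)) = of R G (s (f g)) *
        (of R G (g * (s (f g))⁻¹) - 1) := by
      rw [mul_sub, ← map_mul, mul_one]
      congr 2
      rw [mul_comm, mul_assoc, inv_mul_cancel, mul_one]
    show of R G g - of R G (s (f g)) ∈ _
    rw [h3]
    exact Ideal.mul_mem_left _ _ h2
  have h4 : MonoidAlgebra.mapDomain (s ∘ f) (x - y) = 0 := by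
    have : MonoidAlgebra.mapDomain (s ∘ f) (x - y) =
        MonoidAlgebra.mapDomain s (push f (x - y)) := by
      apply MonoidAlgebra.ext
      simp [push, MonoidAlgebra.mapDomain, Finsupp.mapDomain_comp]
    rw [this, hz, MonoidAlgebra.mapDomain_zero]
  rw [h4, sub_zero] at h1
  have : x = (x - y) + y := by ring
  rw [this]
  exact (augI R G ^ k).add_mem h1 hy

/-! ### the difference operators -/

section D
variable {ι : Type*} (e : ι → (G →* G))

/-- iterated differences -/
noncomputable def DD : List ι → MonoidAlgebra R G → MonoidAlgebra R G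
  | [], x => x
  | i :: l, x => DD l x - push (e i) (DD l x)

/-- iterated endomorphisms -/
def EEl : List ι → G → G
  | [], g => g
  | i :: l, g => e i (EEl l g)

theorem DD_add (l : List ι) (x y : MonoidAlgebra R G) :
    DD e l (x + y) = DD e l x + DD e l y := by
  induction l with
  | nil => rfl
  | cons i l ih =>
    simp only [DD, ih, map_add]
    ring

theorem DD_smul (l : List ι) (r : R) (x : MonoidAlgebra R G) :
    DD e l (algebraMap R _ r * x) = algebraMap R _ r * DD e l x := by
  induction l with
  | nil => rfl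
  | cons i l ih =>
    simp only [DD, ih, map_mul, AlgHom.commutes]
    ring

theorem DD_sub_mem (l : List ι) (k : ℕ) (x : MonoidAlgebra R G)
    (hx : ∀ i ∈ l, push (e i) x ∈ augI R G ^ k) : DD e l x - x ∈ augI R G ^ k := by
  induction l with
  | nil => simp [DD]
  | cons i l ih =>
    have h1 := ih fun j hj => hx j (List.mem_cons_of_mem _ hj)
    have h2 := push_mem (e i) h1
    rw [map_sub] at h2
    have h3 := hx i List.mem_cons_self
    simp only [DD]
    have : DD e l x - push (e i) (DD e l x) - x =
        (DD e l x - x) - (push (e i) (DD e l x) - push (e i) x) - push (e i) x := by ring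
    rw [this]
    exact (augI R G ^ k).sub_mem ((augI R G ^ k).sub_mem h1 h2) h3

variable {e}

theorem EEl_diff {l : List ι} {i : ι} (hi : i ∉ l)
    (h : ∀ i j, i ≠ j → ∀ g, e j (g * (e i g)⁻¹) = g * (e i g)⁻¹) (g : G) :
    EEl e l g * (e i (EEl e l g))⁻¹ = g * (e i g)⁻¹ := by
  induction l with
  | nil => rfl
  | cons j l ih =>
    have hij : i ≠ j := fun h => hi (h ▸ List.mem_cons_self)
    have h1 := ih fun h => hi (List.mem_cons_of_mem _ h)
    simp only [EEl]
    generalize EEl e l g = u at h1 ⊢
    have h2 : e j (u * (e i u)⁻¹) = g * (e i g)⁻¹ := by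
      rw [h1]; exact h i j hij g
    have h3 := h i j hij u
    have h4 := h j i hij.symm u
    rw [map_mul, map_inv] at h3 h4
    have hcomm : e i (e j u) = e j (e i u) := by
      have h5 : e j (e i u) = e j u * (u * (e i u)⁻¹)⁻¹ := by
        rw [← h3, mul_inv_rev, inv_inv, ← mul_assoc, mul_comm (e j u), mul_assoc,
          mul_inv_cancel, mul_one]
      have h6 : e i (e j u) = e i u * (u * (e j u)⁻¹)⁻¹ := by
        rw [← h4, mul_inv_rev, inv_inv, ← mul_assoc, mul_comm (e i u), mul_assoc,
          mul_inv_cancel, mul_one]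
      rw [h5, h6]
      simp only [mul_inv_rev, inv_inv]
      rw [← mul_assoc, ← mul_assoc, mul_comm (e i u) (e j u)]
    rw [hcomm, ← h2, map_mul, map_inv]

theorem DD_of {l : List ι} (hl : l.Nodup)
    (h : ∀ i j, i ≠ j → ∀ g, e j (g * (e i g)⁻¹) = g * (e i g)⁻¹) (g : G) :
    DD e l (of R G g) = of R G (EEl e l g) *
      (l.map fun i => of R G (g * (e i g)⁻¹) - 1).prod := by
  induction l with
  | nil => simp [DD, EEl]
  | cons i l ih =>
    have hnd := List.nodup_cons.mp hl
    have h1 := ih hnd.2
    simp only [DD, EEl, List.map_cons, List.prod_cons]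
    rw [h1, map_mul, push_of]
    have h2 : push (e i) ((l.map fun i => of R G (g * (e i g)⁻¹) - 1).prod) =
        (l.map fun i => of R G (g * (e i g)⁻¹) - 1).prod := by
      rw [map_list_prod, List.map_map]
      congr 1
      apply List.map_congr_left
      intro j hj
      have hji : j ≠ i := fun h => hnd.1 (h ▸ hj)
      simp only [Function.comp]
      rw [map_sub, push_of, map_one, h j i hji g]
    rw [h2]
    have h3 := EEl_diff hnd.1 h g
    have h4 : EEl e l g = e i (EEl e l g) * (g * (e i g)⁻¹) := by
      rw [← h3]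
      rw [mul_comm, mul_assoc, inv_mul_cancel, mul_one]
    have h5 : of R G (EEl e l g) = of R G (e i (EEl e l g)) * of R G (g * (e i g)⁻¹) := by
      rw [← map_mul, ← h4]
    rw [h5]
    ring

theorem DD_mem {l : List ι} (hl : l.Nodup)
    (h : ∀ i j, i ≠ j → ∀ g, e j (g * (e i g)⁻¹) = g * (e i g)⁻¹) (x : MonoidAlgebra R G) :
    DD e l x ∈ augI R G ^ l.length := by
  induction x using MonoidAlgebra.induction_linear with
  | zero =>
    have : DD e l (0 : MonoidAlgebra R G) = 0 := by
      have := DD_smul e l (0 : R) (0 : MonoidAlgebra R G)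
      simpa using this
    rw [this]
    exact Ideal.zero_mem _
  | add a b ha hb => rw [DD_add]; exact Ideal.add_mem _ ha hb
  | single g r =>
    have : (single g r : MonoidAlgebra R G) = algebraMap R _ r * of R G g := by
      simp [MonoidAlgebra.single_mul_single]
    rw [this, DD_smul, DD_of hl h]
    refine Ideal.mul_mem_left _ _ (Ideal.mul_mem_left _ _ ?_)
    clear hl
    induction l with
    | nil => simp
    | cons i l ih =>
      simp only [List.map_cons, List.prod_cons, List.length_cons]
      rw [pow_succ']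
      exact Ideal.mul_mem_mul (of_sub_one_mem _) ih

/-- **L2.** the difference lemma -/
theorem mem_pow_of_diff {l : List ι} (hl : l.Nodup)
    (h : ∀ i j, i ≠ j → ∀ g, e j (g * (e i g)⁻¹) = g * (e i g)⁻¹) {k : ℕ} (hk : k ≤ l.length)
    {x : MonoidAlgebra R G} (hx : ∀ i ∈ l, push (e i) x ∈ augI R G ^ k) : x ∈ augI R G ^ k := by
  have h1 := DD_sub_mem e l k x hx
  have h2 := Ideal.pow_le_pow_right hk (DD_mem hl h x)
  have : x = DD e l x - (DD e l x - x) := by ring
  rw [this]
  exact Ideal.sub_mem _ h2 h1

end D

end MTate
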