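import Mathlib

/-!
# Units of `ℤ/m`, Gauss sums, Fourier uniqueness
-/

namespace MTate

open Complex Real

/-- `G_m = Gal(ℚ(ζ_m)/ℚ) = (ℤ/m)ˣ`; the unit `a` acts by `ζ ↦ ζ^a` -/
abbrev Gm (m : ℕ) := (ZMod m)ˣ

/-- the sum `τ_m(χ) = ∑_{σ ∈ G_m} χ(σ) ζ_m^σ`, `ζ_m = e^{2πi/m}` -/
noncomputable def tau (m : ℕ) (χ : Gm m →* ℂˣ) : ℂ :=
  ∑ᶠ a : Gm m, (χ a : ℂ) * Complex.exp (2 * π * I * ((a : ZMod m).val : ℂ) / m)

/-! ### Chinese remainder theorem -/

/-- the map `G_m → G_d × G_l` for `m = d l` -/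
def crtHom {m d l : ℕ} (hm : m = d * l) : Gm m →* Gm d × Gm l :=
  (ZMod.unitsMap (m := m) (n := d) ⟨l, hm⟩).prod
    (ZMod.unitsMap (m := m) (n := l) ⟨d, by rw [hm, mul_comm]⟩)

theorem crt_bijective {m d l : ℕ} (hm : m = d * l) (hc : d.Coprime l) :
    Function.Bijective (crtHom hm) := by
  subst hm
  let e := ZMod.chineseRemainder hc
  have h1 : ∀ x : ZMod (d * l), (e x).1 = ZMod.castHom (Dvd.intro l rfl) (ZMod d) x := by
    intro x
    have : (RingHom.fst (ZMod d) (ZMod l)).comp (e : ZMod (d * l) →+* ZMod d × ZMod l) =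
        ZMod.castHom (Dvd.intro l rfl) (ZMod d) := Subsingleton.elim _ _
    exact congrArg (fun f => f x) this
  have h2 : ∀ x : ZMod (d * l), (e x).2 = ZMod.castHom (Dvd.intro_left d rfl) (ZMod l) x := by
    intro x
    have : (RingHom.snd (ZMod d) (ZMod l)).comp (e : ZMod (d * l) →+* ZMod d × ZMod l) =
        ZMod.castHom (Dvd.intro_left d rfl) (ZMod l) := Subsingleton.elim _ _
    exact congrArg (fun f => f x) this
  let u : (ZMod (d * l))ˣ ≃* (ZMod d)ˣ × (ZMod l)ˣ :=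
    (Units.mapEquiv e.toMulEquiv).trans MulEquiv.prodUnits
  have h3 : ∀ x, crtHom rfl x = u x := by
    intro x
    refine Prod.ext (Units.ext ?_) (Units.ext ?_)
    · exact (h1 x).symm
    · exact (h2 x).symm
  have h4 : (crtHom rfl : Gm (d * l) → Gm d × Gm l) = u := funext h3
  rw [h4]
  exact u.bijective

/-- the section `G_d → G_m` with image the units congruent to `1` modulo `l` -/
theorem exists_section {m d l : ℕ} (hm : m = d * l) (hc : d.Coprime l) :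
    ∃ s : Gm d →* Gm m, (∀ b, ZMod.unitsMap (m := m) (n := d) ⟨l, hm⟩ (s b) = b) ∧
      ∀ b, ZMod.unitsMap (m := m) (n := l) ⟨d, by rw [hm, mul_comm]⟩ (s b) = 1 := by
  let e : Gm m ≃* Gm d × Gm l := MulEquiv.ofBijective (crtHom hm) (crt_bijective hm hc)
  refine ⟨e.symm.toMonoidHom.comp (MonoidHom.inl (Gm d) (Gm l)), fun b => ?_, fun b => ?_⟩
  · have : e (e.symm (b, 1)) = (b, 1) := e.apply_symm_apply _
    exact congrArg Prod.fst this
  · have : e (e.symm (b, 1)) = (b, 1) := e.apply_symm_apply _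
    exact congrArg Prod.snd this

/-! ### the additive character -/

theorem exp_eq_std {m : ℕ} [NeZero m] (x : ZMod m) :
    Complex.exp (2 * π * I * (x.val : ℂ) / m) = ZMod.stdAddChar x := by
  have h := ZMod.stdAddChar_coe (N := m) (x.val : ℤ)
  rw [Int.cast_natCast, ZMod.natCast_zmod_val] at h
  rw [h, Int.cast_natCast]

theorem std_crt {d l : ℕ} [NeZero d] [NeZero l] (hc : d.Coprime l) (x : ZMod (d * l)) :
    ZMod.stdAddChar x =
      ZMod.stdAddChar ((((ZMod.unitOfCoprime l hc.symm)⁻¹ : (ZMod d)ˣ) : ZMod d) *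
        ZMod.castHom (Dvd.intro l rfl) (ZMod d) x) *
      ZMod.stdAddChar ((((ZMod.unitOfCoprime d hc)⁻¹ : (ZMod l)ˣ) : ZMod l) *
        ZMod.castHom (Dvd.intro_left d rfl) (ZMod l) x) := by
  have : NeZero (d * l) := ⟨mul_ne_zero (NeZero.ne d) (NeZero.ne l)⟩
  -- integers `U`, `V`
  obtain ⟨U, hU⟩ := ZMod.intCast_surjective (((ZMod.unitOfCoprime l hc.symm)⁻¹ : (ZMod d)ˣ) : ZMod d)
  obtain ⟨V, hV⟩ := ZMod.intCast_surjective (((ZMod.unitOfCoprime d hc)⁻¹ : (ZMod l)ˣ) : ZMod l)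
  obtain ⟨X, rfl⟩ := ZMod.intCast_surjective x
  have h1 : (d : ℤ) ∣ (U * l + V * d - 1) := by
    rw [← ZMod.intCast_zmod_eq_zero_iff_dvd]
    push_cast
    rw [hU, ZMod.natCast_self, mul_zero, add_zero]
    have : ((ZMod.unitOfCoprime l hc.symm : (ZMod d)ˣ) : ZMod d) = (l : ZMod d) :=
      ZMod.coe_unitOfCoprime l hc.symm
    rw [← this, Units.inv_mul, sub_self]
  have h2 : (l : ℤ) ∣ (U * l + V * d - 1) := by
    rw [← ZMod.intCast_zmod_eq_zero_iff_dvd]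
    push_cast
    rw [hV, ZMod.natCast_self, mul_zero, zero_add]
    have : ((ZMod.unitOfCoprime d hc : (ZMod l)ˣ) : ZMod l) = (d : ZMod l) :=
      ZMod.coe_unitOfCoprime d hc
    rw [← this, Units.inv_mul, sub_self]
  have h3 : ((d * l : ℕ) : ℤ) ∣ (U * l + V * d - 1) := by
    push_cast
    exact IsCoprime.mul_dvd (Nat.isCoprime_iff_coprime.mpr hc) h1 h2
  have h4 : ((X : ℤ) : ZMod (d * l)) = (((X * U * l : ℤ)) : ZMod (d * l)) +
      ((X * V * d : ℤ) : ZMod (d * l)) := by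
    rw [← Int.cast_add, ← sub_eq_zero, ← Int.cast_sub, ZMod.intCast_zmod_eq_zero_iff_dvd]
    have : X - (X * U * l + X * V * d) = -X * (U * l + V * d - 1) := by ring
    rw [this]
    exact Dvd.dvd.mul_left h3 _
  have hd : (d : ℂ) ≠ 0 := Nat.cast_ne_zero.mpr (NeZero.ne d)
  have hl : (l : ℂ) ≠ 0 := Nat.cast_ne_zero.mpr (NeZero.ne l)
  have h5 : ZMod.stdAddChar ((X * U * l : ℤ) : ZMod (d * l)) =
      ZMod.stdAddChar ((X * U : ℤ) : ZMod d) := by
    rw [ZMod.stdAddChar_coe, ZMod.stdAddChar_coe]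
    congr 1
    push_cast
    field_simp
  have h6 : ZMod.stdAddChar ((X * V * d : ℤ) : ZMod (d * l)) =
      ZMod.stdAddChar ((X * V : ℤ) : ZMod l) := by
    rw [ZMod.stdAddChar_coe, ZMod.stdAddChar_coe]
    congr 1
    push_cast
    field_simp
  rw [h4, AddChar.map_add_eq_mul, h5, h6]
  congr 1
  · congr 1
    rw [← h4, map_intCast, ← hU]
    push_cast
    ring
  · congr 1
    rw [← h4, map_intCast, ← hV]
    push_cast
    ring

theorem sum_std_units {l : ℕ} [NeZero l] (hl : l.Prime) (v : Gm l) :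
    ∑ b : Gm l, ZMod.stdAddChar (((v⁻¹ : Gm l) : ZMod l) * (b : ZMod l)) = -1 := by
  classical
  have : Fact l.Prime := ⟨hl⟩
  have h1 : ∑ b : Gm l, ZMod.stdAddChar (((v⁻¹ : Gm l) : ZMod l) * (b : ZMod l)) =
      ∑ b : Gm l, ZMod.stdAddChar (b : ZMod l) := by
    refine Fintype.sum_equiv (Equiv.mulLeft v⁻¹) _ _ fun b => ?_
    show _ = ZMod.stdAddChar (((v⁻¹ * b : Gm l)) : ZMod l)
    rw [Units.val_mul]
  have h2 : ∑ b : ZMod l, ZMod.stdAddChar (N := l) b = 0 := by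
    have := AddChar.sum_eq_zero_of_ne_one (ψ := ZMod.stdAddChar (N := l)) ?_
    · exact this
    · intro h
      have h3 := (ZMod.isPrimitive_stdAddChar l) one_ne_zero
      apply h3
      rw [h]
      ext x
      simp [AddChar.mulShift]
  have h3 : ∑ b : ZMod l, ZMod.stdAddChar (N := l) b = ZMod.stdAddChar (N := l) 0 +
      ∑ b : Gm l, ZMod.stdAddChar (b : ZMod l) := by
    rw [← Finset.add_sum_erase _ _ (Finset.mem_univ (0 : ZMod l))]
    congr 1
    symm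
    refine Finset.sum_bij (fun b _ => (b : ZMod l)) ?_ ?_ ?_ ?_
    · intro b _
      exact Finset.mem_erase.mpr ⟨b.ne_zero, Finset.mem_univ _⟩
    · intro a _ b _ h
      exact Units.ext h
    · intro b hb
      exact ⟨Units.mk0 b (Finset.ne_of_mem_erase hb), Finset.mem_univ _, rfl⟩
    · intro b _
      rfl
  rw [h1]
  rw [h2, AddChar.map_zero_eq_one] at h3
  linear_combination -h3

/-- **Gauss sums of imprimitive characters** -/
theorem tau_mul {m d l : ℕ} (hm : m = d * l) (hd : d ≠ 0) (hl : l.Prime) (hc : d.Coprime l)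
    (χ : Gm d →* ℂˣ) :
    tau m (χ.comp (ZMod.unitsMap (m := m) (n := d) ⟨l, hm⟩)) =
      -(χ (ZMod.unitOfCoprime l hc.symm) : ℂ) * tau d χ := by
  subst hm
  have : NeZero d := ⟨hd⟩
  have : NeZero l := ⟨hl.ne_zero⟩
  have : NeZero (d * l) := ⟨mul_ne_zero hd hl.ne_zero⟩
  unfold tau
  rw [finsum_eq_sum_of_fintype, finsum_eq_sum_of_fintype]
  let e : Gm (d * l) ≃ Gm d × Gm l := Equiv.ofBijective _ (crt_bijective rfl hc)
  have h1 : ∑ a : Gm (d * l), (((χ.comp (ZMod.unitsMap (m := d * l) (n := d) ⟨l, rfl⟩)) a : ℂˣ) : ℂ) *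
      Complex.exp (2 * π * I * ((a : ZMod (d * l)).val : ℂ) / (d * l : ℕ)) =
      ∑ ab : Gm d × Gm l, ((χ ab.1 : ℂˣ) : ℂ) *
        (ZMod.stdAddChar ((((ZMod.unitOfCoprime l hc.symm)⁻¹ : (ZMod d)ˣ) : ZMod d) * (ab.1 : ZMod d)) *
        ZMod.stdAddChar ((((ZMod.unitOfCoprime d hc)⁻¹ : (ZMod l)ˣ) : ZMod l) * (ab.2 : ZMod l))) := by
    refine Fintype.sum_equiv e _ _ fun a => ?_
    rw [exp_eq_std, std_crt hc]
    rfl
  rw [h1, Fintype.sum_prod_type]
  have h2 : ∀ a : Gm d, ∑ b : Gm l, ((χ a : ℂˣ) : ℂ) *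
        (ZMod.stdAddChar ((((ZMod.unitOfCoprime l hc.symm)⁻¹ : (ZMod d)ˣ) : ZMod d) * (a : ZMod d)) *
        ZMod.stdAddChar ((((ZMod.unitOfCoprime d hc)⁻¹ : (ZMod l)ˣ) : ZMod l) * (b : ZMod l))) =
      -(((χ a : ℂˣ) : ℂ) * ZMod.stdAddChar
        ((((ZMod.unitOfCoprime l hc.symm)⁻¹ : (ZMod d)ˣ) : ZMod d) * (a : ZMod d))) := by
    intro a
    rw [← Finset.mul_sum, ← Finset.mul_sum, sum_std_units hl]
    ring
  rw [Finset.sum_congr rfl fun a _ => h2 a, Finset.sum_neg_distrib, neg_mul, Finset.mul_sum]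
  congr 1
  refine Fintype.sum_equiv (Equiv.mulLeft (ZMod.unitOfCoprime l hc.symm)⁻¹) _ _ fun a => ?_
  set u : Gm d := ZMod.unitOfCoprime l hc.symm with hu
  show ((χ a : ℂˣ) : ℂ) * ZMod.stdAddChar (((u⁻¹ : Gm d) : ZMod d) * (a : ZMod d)) =
    ((χ u : ℂˣ) : ℂ) * (((χ (u⁻¹ * a) : ℂˣ) : ℂ) *
      Complex.exp (2 * π * I * (((u⁻¹ * a : Gm d) : ZMod d).val : ℂ) / d))
  rw [exp_eq_std, Units.val_mul (u⁻¹) a, ← mul_assoc, ← Units.val_mul (χ u), ← map_mul,
    mul_inv_cancel_left]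

/-! ### Fourier uniqueness -/

theorem fourier_unique {G : Type*} [CommGroup G] [Finite G] (u : G → ℂ)
    (h : ∀ χ : G →* ℂˣ, ∑ᶠ g, u g * (χ g : ℂ) = 0) : u = 0 := by
  classical
  have := Fintype.ofFinite G
  have hψ : ∀ ψ : AddChar (Additive G) ℂ, ∑ g : Additive G, u (Additive.toMul g) * ψ g = 0 := by
    intro ψ
    let χ0 : G →* ℂ := ψ.toMonoidHom.comp (MulEquiv.refl G : G →* G)
    have h1 := h χ0.toHomUnits
    rw [finsum_eq_sum_of_fintype] at h1
    rw [← h1]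
    refine Fintype.sum_equiv Additive.toMul _ _ fun g => ?_
    rfl
  funext h0
  have h1 : ∑ ψ : AddChar (Additive G) ℂ, ψ (-(Additive.ofMul h0)) *
      ∑ g : Additive G, u (Additive.toMul g) * ψ g = 0 := by
    refine Finset.sum_eq_zero fun ψ _ => ?_
    rw [hψ, mul_zero]
  have h2 : ∑ ψ : AddChar (Additive G) ℂ, ψ (-(Additive.ofMul h0)) *
      ∑ g : Additive G, u (Additive.toMul g) * ψ g =
      ∑ g : Additive G, u (Additive.toMul g) *
        ∑ ψ : AddChar (Additive G) ℂ, ψ (g - Additive.ofMul h0) := by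
    simp_rw [Finset.mul_sum]
    rw [Finset.sum_comm]
    refine Finset.sum_congr rfl fun g _ => Finset.sum_congr rfl fun ψ _ => ?_
    rw [sub_eq_add_neg, AddChar.map_add_eq_mul]
    ring
  rw [h2] at h1
  simp_rw [AddChar.sum_apply_eq_ite, sub_eq_zero] at h1
  rw [Finset.sum_eq_single (Additive.ofMul h0)] at h1
  · rw [if_pos rfl] at h1
    rcases mul_eq_zero.mp h1 with h3 | h3
    · exact h3
    · exact absurd (Nat.cast_eq_zero.mp h3) Fintype.card_ne_zero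
  · intro g _ hg
    rw [if_neg hg, mul_zero]
  · intro h3
    exact absurd (Finset.mem_univ _) h3

end MTate
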