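import Mathlib
import Pool.Agent.Lib.MP_5deabe_nt.Aug
import Pool.Agent.Lib.MP_5deabe_nt.Gauss

/-!
# The Mazur-Tate conjecture (`p`-part) for an elliptic curve over `ℚ`
-/

namespace MTate

open MonoidAlgebra

/-! ### Galois groups -/

/-- `G_m⁺ = Gal(ℚ(ζ_m)⁺/ℚ) = (ℤ/m)ˣ/{±1}` -/
def Gp (m : ℕ) : Type := Gm m ⧸ Subgroup.zpowers (-1 : Gm m)

instance (m : ℕ) : CommGroup (Gp m) :=
  inferInstanceAs (CommGroup (Gm m ⧸ Subgroup.zpowers (-1 : Gm m)))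

/-- the restriction `Gal(ℚ(ζ_m)/ℚ) → Gal(ℚ(ζ_m)⁺/ℚ)` -/
def toGp (m : ℕ) : Gm m →* Gp m := QuotientGroup.mk' (Subgroup.zpowers (-1 : Gm m))

theorem unitsMap_neg_one {m d : ℕ} (h : d ∣ m) : ZMod.unitsMap h (-1 : Gm m) = -1 := by
  apply Units.ext
  simp [ZMod.unitsMap_def]

/-- the restriction `Gal(ℚ(ζ_m)⁺/ℚ) → Gal(ℚ(ζ_d)⁺/ℚ)` for `d ∣ m` -/
def res {m d : ℕ} (h : d ∣ m) : Gp m →* Gp d :=
  QuotientGroup.map (Subgroup.zpowers (-1 : Gm m)) (Subgroup.zpowers (-1 : Gm d))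
    (ZMod.unitsMap h) (by
    rw [Subgroup.zpowers_le, Subgroup.mem_comap, unitsMap_neg_one]
    exact Subgroup.mem_zpowers _)

/-- A real abelian field `F ⊆ ℚ(ζ_m)⁺` is given by its Galois group `G` and the restriction
`f : Gal(ℚ(ζ_m)⁺/ℚ) → G`, a surjective homomorphism.  `IsField m f` says that `f` is such a
restriction and that `m` is the conductor of `F`: if `d ∣ m` and `F ⊆ ℚ(ζ_d)⁺` then `d = m`. -/
def IsField (m : ℕ) {G : Type*} [CommGroup G] (f : Gp m →* G) : Prop :=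
  Function.Surjective f ∧ ∀ (d : ℕ) (h : d ∣ m), (res h).ker ≤ f.ker → d = m

/-- all primes `l` which divide the (square-free) number `m` are totally ramified in `F`: the
inertia group, which is the kernel of `Gal(ℚ(ζ_m)⁺/ℚ) → Gal(ℚ(ζ_{m/l})⁺/ℚ)`, maps onto `G` -/
def TotRam (m : ℕ) {G : Type*} [CommGroup G] (f : Gp m →* G) : Prop :=
  ∀ (d l : ℕ) (h : m = d * l), l.Prime → (res (m := m) (d := d) ⟨l, h⟩).ker.map f = ⊤

/-- the inflation to `G_m` of a character of `G = Gal(F/ℚ)` -/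
def infl {m : ℕ} {G : Type*} [CommGroup G] (f : Gp m →* G) (χ : G →* ℂˣ) : Gm m →* ℂˣ :=
  (χ.comp f).comp (toGp m)

/-- the value at `n` of the Dirichlet character modulo `m` attached to `χ` -/
noncomputable def dval (m : ℕ) (χ : Gm m →* ℂˣ) (n : ℕ) : ℂ :=
  if h : n.Coprime m then (χ (ZMod.unitOfCoprime n h) : ℂ) else 0

/-! ### elliptic curves -/

/-- the points over `ℚ` of the curve with the Weierstrass equation `W` -/
abbrev EQ (W : WeierstrassCurve ℤ) := (W.map (Int.castRingHom ℚ)).toAffine.Point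

/-- the number of nonsingular points modulo `ℓ` (with the point at infinity) -/
noncomputable def nsCard (W : WeierstrassCurve ℤ) (l : ℕ) : ℕ :=
  Nat.card (W.map (Int.castRingHom (ZMod l))).toAffine.Point

/-- the polynomial of the Euler factor `1 - a_ℓ z ℓ^{-s} + z² ℓ^{1-2s}` at a prime `ℓ` of good
reduction, `a_ℓ = ℓ + 1 - #E(𝔽_ℓ)`, twisted by `z` -/
noncomputable def eulerPoly (W : WeierstrassCurve ℤ) (l : ℕ) (z s : ℂ) : ℂ :=
  1 - ((l : ℂ) + 1 - nsCard W l) * z * (l : ℂ) ^ (-s) + z ^ 2 * (l : ℂ) ^ (1 - 2 * s)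

/-- the period `Ω⁺ = c_∞ |∫_γ ω| = ∫_{E(ℝ)} |dx/(2y + a₁x + a₃)|`, where
`(2y + a₁x + a₃)² = 4x³ + b₂x² + 2b₄x + b₆` -/
noncomputable def omegaPlus (W : WeierstrassCurve ℤ) : ℝ :=
  2 * ∫ x in {x : ℝ | 0 < 4 * x ^ 3 + W.b₂ * x ^ 2 + 2 * W.b₄ * x + W.b₆},
    (Real.sqrt (4 * x ^ 3 + W.b₂ * x ^ 2 + 2 * W.b₄ * x + W.b₆))⁻¹

/-- the order of the torsion subgroup of `E(ℚ)` -/
noncomputable def tors (W : WeierstrassCurve ℤ) : ℕ := Nat.card (AddCommGroup.torsion (EQ W))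

/-- a point over `ℚ_ℓ` reduces to a nonsingular point -/
def InE0 (W : WeierstrassCurve ℤ) (l : ℕ) [Fact l.Prime] :
    (W.map (Int.castRingHom ℚ_[l])).toAffine.Point → Prop
  | .zero => True
  | .some X Y _ => 1 < ‖X‖ ∨ ‖2 * Y + W.a₁ * X + W.a₃‖ = 1 ∨
      ‖W.a₁ * Y - (3 * X ^ 2 + 2 * W.a₂ * X + W.a₄)‖ = 1

open Classical in
/-- `Tam(E) = ∏_{ℓ ∣ N} #E(ℚ_ℓ)/E_0(ℚ_ℓ)` -/
noncomputable def tam (W : WeierstrassCurve ℤ) (N : ℕ) : ℕ :=
  ∏ᶠ l : Nat.Primes, haveI : Fact (l : ℕ).Prime := ⟨l.2⟩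
    if (l : ℕ) ∣ N then (AddSubgroup.closure {P | InE0 W l P}).index else 1

/-- a point over `ℚ` reduces to the point at infinity modulo `ℓ` -/
def toInfinity {W : WeierstrassCurve ℤ} (l : ℕ) : EQ W → Prop
  | .zero => True
  | .some X _ _ => 1 < padicNorm l X

/-- a point over `ℚ` reduces to a nonsingular point modulo `ℓ` -/
def toNonsing {W : WeierstrassCurve ℤ} (l : ℕ) : EQ W → Prop
  | .zero => True
  | .some X Y _ => 1 < padicNorm l X ∨ padicNorm l (2 * Y + W.a₁ * X + W.a₃) = 1 ∨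
      padicNorm l (W.a₁ * Y - (3 * X ^ 2 + 2 * W.a₂ * X + W.a₄)) = 1

/-- The objects which occur in the conjecture for an elliptic curve `E`. -/
structure MTData where
  /-- a global minimal Weierstrass equation of `E` -/
  W : WeierstrassCurve ℤ
  /-- the conductor of `E` -/
  N : ℕ
  /-- the rank of `E(ℚ)` -/
  r : ℕ
  /-- a basis of `E(ℚ)` modulo torsion -/
  x : Fin r → EQ W
  /-- the order of the Tate-Shafarevich group -/
  sha : ℕ
  /-- the components of the Mazur-Tate pairing: the local symbols of `(P, Q)` form an idele class,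
  and its image in the ray class group of conductor `m` has at the prime `l ∣ m` the component
  `comp l P Q` (which does not depend on `m`), when `Q` reduces to `0` modulo `l`.  (Explicitly, up
  to sign, `comp l P Q = u(P) u(Q) / u(P + Q)`, where for `R = (a/d², b/d³)` in lowest terms `u(R)`
  is `1/d` modulo `l` if `l` does not divide `d`, and `-a/b` modulo `l` if `l` divides `d`; this is
  not used.) -/
  comp : (l : ℕ) → EQ W → EQ W → Gm l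

namespace MTData

variable (D : MTData) (p : ℕ) [Fact p.Prime]

/-- the Mazur-Tate pairing `⟨P, Q⟩_m ∈ G_m⁺ = (ℤ/m)ˣ/{±1}`: the class of the element of `(ℤ/m)ˣ`
with the component `comp l P Q` modulo `l` for all primes `l ∣ m` (`m` is square-free) -/
noncomputable def pair (m : ℕ) (P Q : EQ D.W) : Gp m :=
  toGp m (Classical.epsilon fun a : Gm m =>
    ∀ (l : ℕ) (h : l ∣ m), l.Prime → ZMod.unitsMap h a = D.comp l P Q)

/-- `E_S(ℚ)`, the kernel of `E(ℚ) → ⊕_{ℓ ∣ m} E(𝔽_ℓ) ⊕ ⊕_{ℓ ∣ N} E(ℚ_ℓ)/E_0(ℚ_ℓ)` -/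
def InES (m : ℕ) (P : EQ D.W) : Prop :=
  (∀ l : ℕ, l.Prime → l ∣ m → toInfinity l P) ∧ ∀ l : ℕ, l.Prime → l ∣ D.N → toNonsing l P

/-- the conditions (i), (ii), (iii) of the conjecture on the conductor `m` -/
def Adm (m : ℕ) : Prop :=
  Squarefree m ∧ m.Coprime D.N ∧ p.Coprime m ∧ ∀ l ∈ m.primeFactors, p.Coprime (nsCard D.W l)

/-- `F` is the function `s ↦ L_S(E, χ⁻¹, s)`, `S = {ℓ : ℓ ∣ mN}`: it is entire and in some right
half plane it is given by the Euler product without the factors at the primes `ℓ ∣ mN` -/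
def IsL (m : ℕ) (χ : Gm m →* ℂˣ) (F : ℂ → ℂ) : Prop :=
  Differentiable ℂ F ∧ ∃ C : ℝ, ∀ s : ℂ, C < s.re →
    HasProd (fun l : Nat.Primes => if (l : ℕ) ∣ m * D.N then (1 : ℂ) else
      (eulerPoly D.W l (dval m χ l)⁻¹ s)⁻¹) (F s)

/-- `θ ∈ ℤ_p[G]` is the modular element of `F`: there is `θ₀ ∈ ℚ[G]` with
`χ(θ₀) = τ_m(χ) L_S(E, χ⁻¹, 1)/Ω⁺` for all characters `χ` of `G`, and `θ` is the image of `θ₀` -/
def IsTheta (m : ℕ) {G : Type*} [CommGroup G] (f : Gp m →* G) (θ : MonoidAlgebra ℤ_[p] G) :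
    Prop :=
  ∃ θ₀ : MonoidAlgebra ℚ G,
    (∀ χ : G →* ℂˣ, ∃ L : ℂ → ℂ, D.IsL m (infl f χ) L ∧
      (θ₀.coeff.sum fun g a => (a : ℂ) * (χ g : ℂ)) = tau m (infl f χ) * L 1 / omegaPlus D.W) ∧
    ∀ g, ((θ.coeff g : ℤ_[p]) : ℚ_[p]) = ((θ₀.coeff g : ℚ) : ℚ_[p])

/-- `𝓛_S = (#Ш Tam(E) / #E(ℚ)_tors²) ∏_{ℓ ∈ S} #E^ns(𝔽_ℓ)/ℓ ∈ ℤ_p`, `S = {ℓ : ℓ ∣ mN}` (the
denominators are units of `ℤ_p` by (iii)) -/
noncomputable def Lalg (m : ℕ) : ℤ_[p] :=
  (D.sha : ℤ_[p]) * tam D.W D.N * Ring.inverse ((tors D.W : ℤ_[p]) ^ 2) *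
    ∏ l ∈ (m * D.N).primeFactors, (nsCard D.W l : ℤ_[p]) * Ring.inverse (l : ℤ_[p])

/-- for `n` prime to `p` with `n x_j ∈ E_S(ℚ)`, an element of `ℤ_p[G_m⁺]` which represents the
class `⟨x_i, x_j⟩_m = n⁻¹ ⟨x_i, n x_j⟩_m` in `I/I² ≅ G_m⁺ ⊗ ℤ_p` -/
noncomputable def height (n m : ℕ) (i j : Fin D.r) : MonoidAlgebra ℤ_[p] (Gp m) :=
  algebraMap ℤ_[p] (MonoidAlgebra ℤ_[p] (Gp m)) (Ring.inverse (n : ℤ_[p])) *
    (of ℤ_[p] (Gp m) (D.pair m (D.x i) (n • D.x j)) - 1)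

/-- an element of `I^r ⊆ ℤ_p[G]` which represents `R_F = det ⟨x_i, x_j⟩_F ∈ I^r/I^{r+1}` -/
noncomputable def reg (n m : ℕ) {G : Type*} [CommGroup G] (f : Gp m →* G) :
    MonoidAlgebra ℤ_[p] G :=
  Matrix.det (Matrix.of fun i j => push f (D.height p n m i j))

/-- **The statement Q1 for the field `F`** of conductor `m` given by `f : Gal(ℚ(ζ_m)⁺/ℚ) → G`:
`θ_{F,S} ∈ I^r` and `θ_{F,S} ≡ (-1)^{ν(m)} 𝓛_S R_F` in `I^r/I^{r+1}`.  (The pairing is extended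
to `E(ℚ)` by means of any `n` prime to `p` with `n x_j ∈ E_S(ℚ)` for all `j`.) -/
def Q1 (m : ℕ) {G : Type*} [CommGroup G] (f : Gp m →* G) : Prop :=
  ∃ θ : MonoidAlgebra ℤ_[p] G, D.IsTheta p m f θ ∧ θ ∈ augI ℤ_[p] G ^ D.r ∧
    ∀ n : ℕ, p.Coprime n → (∀ j, D.InES m (n • D.x j)) →
      θ - algebraMap ℤ_[p] _ ((-1) ^ m.primeFactors.card * D.Lalg p m) * D.reg p n m f ∈
        augI ℤ_[p] G ^ (D.r + 1)

/-- The setting of the conjecture. -/
structure Valid : Prop where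
  /-- `E` is an elliptic curve -/
  disc : D.W.Δ ≠ 0
  /-- the equation is minimal -/
  minimal : ∀ (W' : WeierstrassCurve ℤ) (C : WeierstrassCurve.VariableChange ℚ),
    C • (D.W.map (Int.castRingHom ℚ)) = W'.map (Int.castRingHom ℚ) → |D.W.Δ| ≤ |W'.Δ|
  /-- the prime divisors of the conductor are the primes of bad reduction -/
  bad : ∀ l : ℕ, l.Prime → (l ∣ D.N ↔ (l : ℤ) ∣ D.W.Δ)
  /-- the `x i` are a basis of `E(ℚ)` modulo torsion -/
  basis : ∀ P : EQ D.W, ∃! n : Fin D.r → ℤ, IsOfFinAddOrder (P - ∑ i, n i • D.x i)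
  /-- condition (iii) on `E` and `p` -/
  good : p.Coprime
    (6 * D.N * tors D.W * tam D.W D.N * ∏ l ∈ (p * D.N).primeFactors, nsCard D.W l)

end MTData

end MTate
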