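import Mathlib
import Pool.Agent.Lib.MP_5deabe_nt.Defs

/-!
# Q1 for subfields of `ℚ(ζ_M)⁺`
-/

namespace MTate

namespace MTData

variable (D : MTData) (p : ℕ) [Fact p.Prime]

/-- **Q1 for the field `F ⊆ ℚ(ζ_m)⁺`** with Galois group `G` which is given by the restriction
`f : Gal(ℚ(ζ_m)⁺/ℚ) → G`; here `d` is the conductor of `F`. -/
def Q1At (m : ℕ) {G : Type*} [CommGroup G] (f : Gp m →* G) : Prop :=
  ∃ (d : ℕ) (h : d ∣ m) (f' : Gp d →* G), IsField d f' ∧ f'.comp (res h) = f ∧ D.Q1 p d f'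

/-- all modular elements of real abelian fields `F ⊆ ℚ(ζ_M)⁺` are `p`-integral -/
def Integral (M : ℕ) : Prop :=
  ∀ m, m ∣ M → ∀ (G : Type) [CommGroup G] (f : Gp m →* G), IsField m f →
    ∃ θ : MonoidAlgebra ℤ_[p] G, D.IsTheta p m f θ

/-- `⟨P, Q⟩_m` is defined for `Q ∈ E_S(ℚ)` and satisfies `⟨P, kQ⟩_m = k ⟨P, Q⟩_m` for all `m ∣ M`,
and it extends to all points: there is an integer `n` prime to `p` with `n x_j ∈ E_S(ℚ)` for all
`j` (a consequence of (iii)) -/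
structure Pairing (M : ℕ) : Prop where
  ext : ∃ n : ℕ, p.Coprime n ∧ ∀ j, D.InES M (n • D.x j)
  pow : ∀ m, m ∣ M → ∀ (P Q : EQ D.W) (k : ℕ), D.InES m Q → D.pair m P (k • Q) = D.pair m P Q ^ k

end MTData

end MTate
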