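import Mathlib
import Pool.Agent.Lib.MP_5deabe_nt.Aug

/-!
# Detection of powers of the augmentation ideal by cyclic quotients
-/

namespace MTate

open MonoidAlgebra

variable {p : ℕ} [hp : Fact p.Prime]

/-! ### polynomials of degree `< p` with values divisible by `p ^ n` -/

theorem poly_dvd {ι : Type} [Finite ι] (n : ℕ) (P : MvPolynomial ι ℤ_[p])
    (hd : ∀ s ∈ P.support, ∀ i, s i ≤ p - 1)
    (h : ∀ t : ι → ℕ, (p : ℤ_[p]) ^ n ∣ MvPolynomial.eval (fun i => (t i : ℤ_[p])) P) :
    ∀ s, (p : ℤ_[p]) ^ n ∣ P.coeff s := by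
  induction n generalizing P with
  | zero => intro s; simp
  | succ n ih =>
    have hp0 : (p : ℤ_[p]) ≠ 0 := by exact_mod_cast hp.out.ne_zero
    have key : ∀ a : ℤ_[p], PadicInt.toZMod a = 0 ↔ (p : ℤ_[p]) ∣ a := by
      intro a
      rw [← RingHom.mem_ker, PadicInt.ker_toZMod, PadicInt.maximalIdeal_eq_span_p,
        Ideal.mem_span_singleton]
    have h0 : MvPolynomial.map (PadicInt.toZMod (p := p)) P = 0 := by
      refine MvPolynomial.eq_zero_of_eval_eq_zero (σ := ι) (K := ZMod p) _ ?_ ?_
      · intro v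
        have h1 := h fun i => (v i).val
        have h2 : (p : ℤ_[p]) ∣ MvPolynomial.eval (fun i => (((v i).val : ℕ) : ℤ_[p])) P :=
          (dvd_pow_self _ n.succ_ne_zero).trans h1
        rw [← key] at h2
        rw [← h2, MvPolynomial.eval_map, MvPolynomial.eval, MvPolynomial.coe_eval₂Hom,
          MvPolynomial.hom_eval₂]
        congr 1
        · funext i
          simp
      · rw [ZMod.card, MvPolynomial.mem_restrictDegree]
        intro s hs i
        refine hd s ?_ i
        rw [MvPolynomial.mem_support_iff] at hs ⊢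
        intro h3
        apply hs
        rw [MvPolynomial.coeff_map, h3, map_zero]
    have h1 : MvPolynomial.C (p : ℤ_[p]) ∣ P := by
      rw [MvPolynomial.C_dvd_iff_dvd_coeff]
      intro s
      rw [← key, ← MvPolynomial.coeff_map, h0, MvPolynomial.coeff_zero]
    obtain ⟨Q, rfl⟩ := h1
    have h2 := ih Q ?_ ?_
    · intro s
      rw [MvPolynomial.coeff_C_mul, pow_succ']
      exact mul_dvd_mul_left _ (h2 s)
    · intro s hs i
      refine hd s ?_ i
      rw [MvPolynomial.mem_support_iff] at hs ⊢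
      rw [MvPolynomial.coeff_C_mul]
      exact mul_ne_zero hp0 hs
    · intro t
      have h3 := h t
      rw [map_mul, MvPolynomial.eval_C, pow_succ'] at h3
      exact (mul_dvd_mul_iff_left hp0).mp h3

/-! ### functionals on the group ring of a cyclic group of order `p ^ n` -/

/-- binomial coefficients modulo `p ^ n` -/
def bino (p n k : ℕ) (j : ZMod (p ^ n)) : ZMod (p ^ n) := ((j.val.choose k : ℕ) : ZMod (p ^ n))

theorem choose_pow_eq_zero {n k : ℕ} (h1 : 1 ≤ k) (h2 : k < p) :
    (((p ^ n).choose k : ℕ) : ZMod (p ^ n)) = 0 := by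
  rw [ZMod.natCast_eq_zero_iff]
  obtain ⟨k, rfl⟩ : ∃ k', k = k' + 1 := ⟨k - 1, by omega⟩
  have h3 : (p ^ n).choose (k + 1) * (k + 1) = p ^ n * (p ^ n - 1).choose k := by
    have h4 : p ^ n = (p ^ n - 1) + 1 := by
      have := Nat.pow_pos (n := n) hp.out.pos
      omega
    rw [h4, Nat.add_sub_cancel]
    have := Nat.add_one_mul_choose_eq (p ^ n - 1) k
    linarith
  have h5 : p ^ n ∣ (p ^ n).choose (k + 1) * (k + 1) := ⟨_, h3⟩
  refine Nat.Coprime.dvd_of_dvd_mul_right ?_ h5
  refine Nat.Coprime.pow_left n ?_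
  rw [Nat.Prime.coprime_iff_not_dvd hp.out]
  intro h6
  have := Nat.le_of_dvd (by omega) h6
  omega

theorem bino_succ {n k : ℕ} (h2 : k + 1 < p) (j : ZMod (p ^ n)) :
    bino p n (k + 1) (j + 1) = bino p n (k + 1) j + bino p n k j := by
  have hq : 0 < p ^ n := Nat.pow_pos hp.out.pos
  have : NeZero (p ^ n) := ⟨hq.ne'⟩
  unfold bino
  by_cases h : j.val + 1 < p ^ n
  · have h1 : (j + 1).val = j.val + 1 := by
      rcases Nat.lt_or_ge 1 (p ^ n) with h3 | h3
      · have : Fact (1 < p ^ n) := ⟨h3⟩
        rw [ZMod.val_add_of_lt]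
        · rw [ZMod.val_one]
        · rw [ZMod.val_one]; exact h
      · omega
    rw [h1, Nat.choose_succ_succ]
    push_cast
    ring
  · have h1 : j.val = p ^ n - 1 := by
      have := ZMod.val_lt j
      omega
    have h3 : j + 1 = 0 := by
      have : ((j.val + 1 : ℕ) : ZMod (p ^ n)) = 0 := by
        rw [h1, Nat.sub_add_cancel hq, ZMod.natCast_self]
      rw [← this]
      push_cast
      rw [ZMod.natCast_zmod_val]
    rw [h3, ZMod.val_zero, Nat.choose_zero_succ, Nat.cast_zero, h1, ← Nat.cast_add, add_comm,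
      ← Nat.choose_succ_succ, Nat.succ_eq_add_one, Nat.sub_add_cancel hq]
    exact (choose_pow_eq_zero (by omega) h2).symm

/-- the cyclic group of order `p ^ n` -/
abbrev Cpn (p n : ℕ) := Multiplicative (ZMod (p ^ n))

/-- its generator -/
def gam (p n : ℕ) : Cpn p n := Multiplicative.ofAdd 1

/-- the functional of a binomial coefficient -/
noncomputable def lam (n k : ℕ) : MonoidAlgebra ℤ_[p] (Cpn p n) →+ ZMod (p ^ n) where
  toFun x := x.coeff.sum fun j a => PadicInt.toZModPow n a * bino p n k (Multiplicative.toAdd j)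
  map_zero' := by simp
  map_add' x y := by
    rw [MonoidAlgebra.coeff_add, Finsupp.sum_add_index']
    · intro a; simp
    · intro a b c; rw [map_add, add_mul]

theorem lam_single (n k : ℕ) (j : Cpn p n) (a : ℤ_[p]) :
    lam n k (single j a) = PadicInt.toZModPow n a * bino p n k (Multiplicative.toAdd j) := by
  show Finsupp.sum (single j a : MonoidAlgebra ℤ_[p] (Cpn p n)).coeff
    (fun j a => PadicInt.toZModPow n a * bino p n k (Multiplicative.toAdd j)) = _
  rw [MonoidAlgebra.coeff_single, Finsupp.sum_single_index]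
  simp

theorem lam_gam_succ {n k : ℕ} (h2 : k + 1 < p) (x : MonoidAlgebra ℤ_[p] (Cpn p n)) :
    lam n (k + 1) ((of ℤ_[p] _ (gam p n) - 1) * x) = lam n k x := by
  induction x using MonoidAlgebra.induction_linear with
  | zero => simp
  | add a b ha hb => rw [mul_add, map_add, ha, hb, map_add]
  | single j a =>
    rw [sub_mul, one_mul, map_sub, of_apply, MonoidAlgebra.single_mul_single, one_mul, lam_single,
      lam_single, lam_single]
    have : Multiplicative.toAdd (gam p n * j) = Multiplicative.toAdd j + 1 := by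
      rw [toAdd_mul, add_comm]; rfl
    rw [this, bino_succ h2]
    ring

theorem lam_gam_zero {n : ℕ} (x : MonoidAlgebra ℤ_[p] (Cpn p n)) :
    lam n 0 ((of ℤ_[p] _ (gam p n) - 1) * x) = 0 := by
  induction x using MonoidAlgebra.induction_linear with
  | zero => simp
  | add a b ha hb => rw [mul_add, map_add, ha, hb, add_zero]
  | single j a =>
    rw [sub_mul, one_mul, map_sub, of_apply, MonoidAlgebra.single_mul_single, one_mul, lam_single,
      lam_single]
    simp [bino]

theorem lam_zero_eq {n : ℕ} (x : MonoidAlgebra ℤ_[p] (Cpn p n)) :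
    lam n 0 x = PadicInt.toZModPow n (eps ℤ_[p] _ x) := by
  induction x using MonoidAlgebra.induction_linear with
  | zero => simp
  | add a b ha hb => rw [map_add, ha, hb, map_add, map_add]
  | single j a => rw [lam_single, eps_single]; simp [bino]

theorem lam_pow {n k : ℕ} (h : k < p) (x : MonoidAlgebra ℤ_[p] (Cpn p n)) :
    lam n k ((of ℤ_[p] _ (gam p n) - 1) ^ k * x) = PadicInt.toZModPow n (eps ℤ_[p] _ x) := by
  induction k generalizing x with
  | zero => rw [pow_zero, one_mul, lam_zero_eq]
  | succ k ih =>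
    rw [pow_succ', mul_assoc, lam_gam_succ h]
    exact ih (by omega) x

theorem lam_pow_succ {n k : ℕ} (h : k < p) (x : MonoidAlgebra ℤ_[p] (Cpn p n)) :
    lam n k ((of ℤ_[p] _ (gam p n) - 1) ^ (k + 1) * x) = 0 := by
  have h1 : (of ℤ_[p] _ (gam p n) - 1) ^ (k + 1) * x =
      (of ℤ_[p] _ (gam p n) - 1) ^ k * ((of ℤ_[p] _ (gam p n) - 1) * x) := by ring
  rw [h1, lam_pow h, map_mul, map_sub, eps_of, map_one, sub_self, zero_mul, map_zero]

end MTate
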