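import Mathlib
import Pool.Agent.Lib.MP_5deabe_nt.Cyc

/-!
# Detection of powers of the augmentation ideal by cyclic quotients, part 2
-/

namespace MTate

open MonoidAlgebra

/-! ### congruences modulo powers of an ideal -/

section Cong
variable {A : Type*} [CommRing A] {I : Ideal A}

/-- `a` and `b` are in `I^m` and congruent modulo `I^(m+1)` -/
def Cong (I : Ideal A) (m : ℕ) (a b : A) : Prop := a ∈ I ^ m ∧ a - b ∈ I ^ (m + 1)

theorem Cong.right {m : ℕ} {a b : A} (h : Cong I m a b) : b ∈ I ^ m := by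
  have h1 : a - b ∈ I ^ m := Ideal.pow_le_pow_right (Nat.le_succ m) h.2
  have : b = a - (a - b) := by ring
  rw [this]
  exact Ideal.sub_mem _ h.1 h1

theorem Cong.mul {m n : ℕ} {a b c d : A} (h : Cong I m a b) (h' : Cong I n c d) :
    Cong I (m + n) (a * c) (b * d) := by
  refine ⟨?_, ?_⟩
  · rw [pow_add]; exact Ideal.mul_mem_mul h.1 h'.1
  · have h1 : (a - b) * c ∈ I ^ (m + n + 1) := by
      have : m + n + 1 = (m + 1) + n := by ring
      rw [this, pow_add]
      exact Ideal.mul_mem_mul h.2 h'.1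
    have h2 : b * (c - d) ∈ I ^ (m + n + 1) := by
      have : m + n + 1 = m + (n + 1) := by ring
      rw [this, pow_add]
      exact Ideal.mul_mem_mul h.right h'.2
    have : a * c - b * d = (a - b) * c + b * (c - d) := by ring
    rw [this]
    exact Ideal.add_mem _ h1 h2

theorem Cong.one : Cong I 0 1 1 := ⟨by simp, by simp⟩

theorem Cong.pow {a b : A} (h : Cong I 1 a b) (k : ℕ) : Cong I k (a ^ k) (b ^ k) := by
  induction k with
  | zero => simpa using Cong.one
  | succ k ih => rw [pow_succ, pow_succ]; exact ih.mul h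

theorem Cong.prod {ι : Type*} (s : Finset ι) (m : ι → ℕ) (a b : ι → A)
    (h : ∀ i ∈ s, Cong I (m i) (a i) (b i)) : Cong I (∑ i ∈ s, m i) (∏ i ∈ s, a i) (∏ i ∈ s, b i) := by
  classical
  induction s using Finset.induction_on with
  | empty => simpa using Cong.one
  | insert i s hi ih =>
    rw [Finset.sum_insert hi, Finset.prod_insert hi, Finset.prod_insert hi]
    exact (h i (Finset.mem_insert_self _ _)).mul (ih fun j hj => h j (Finset.mem_insert_of_mem hj))

end Cong

/-! ### homogeneous polynomials -/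

section hom
variable {ι : Type*} {R : Type*} [CommRing R] {A : Type*} [CommRing A] [Algebra R A] {I : Ideal A}

theorem homog_deg {F : MvPolynomial ι R} {k : ℕ} (hF : F.IsHomogeneous k) {d : ι →₀ ℕ}
    (hd : d ∈ F.support) : ∑ i ∈ d.support, d i = k := by
  have h := hF (MvPolynomial.mem_support_iff.mp hd)
  rw [← Finsupp.degree_apply, Finsupp.degree_eq_weight_one]
  exact h

theorem aeval_cong {F : MvPolynomial ι R} {k : ℕ} (hF : F.IsHomogeneous k) {y y' : ι → A}
    (h : ∀ i, Cong I 1 (y i) (y' i)) :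
    Cong I k (MvPolynomial.aeval y F) (MvPolynomial.aeval y' F) := by
  have key : ∀ d ∈ F.support, Cong I k (algebraMap R A (F.coeff d) * ∏ i ∈ d.support, y i ^ d i)
      (algebraMap R A (F.coeff d) * ∏ i ∈ d.support, y' i ^ d i) := by
    intro d hd
    have h1 := Cong.prod (I := I) d.support (fun i => d i) (fun i => y i ^ d i)
      (fun i => y' i ^ d i) (fun i _ => (h i).pow (d i))
    rw [homog_deg hF hd] at h1
    refine ⟨Ideal.mul_mem_left _ _ h1.1, ?_⟩
    rw [← mul_sub]
    exact Ideal.mul_mem_left _ _ h1.2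
  rw [MvPolynomial.aeval_def, MvPolynomial.aeval_def, MvPolynomial.eval₂_eq,
    MvPolynomial.eval₂_eq]
  refine ⟨Ideal.sum_mem _ fun d hd => (key d hd).1, ?_⟩
  rw [← Finset.sum_sub_distrib]
  exact Ideal.sum_mem _ fun d hd => (key d hd).2

theorem aeval_smul_homog {F : MvPolynomial ι R} {k : ℕ} (hF : F.IsHomogeneous k) (t : ι → R)
    (z : A) : MvPolynomial.aeval (fun i => algebraMap R A (t i) * z) F =
      algebraMap R A (MvPolynomial.eval t F) * z ^ k := by
  rw [MvPolynomial.aeval_def, MvPolynomial.eval₂_eq, MvPolynomial.eval_eq, map_sum,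
    Finset.sum_mul]
  refine Finset.sum_congr rfl fun d hd => ?_
  rw [map_mul, map_prod, mul_assoc]
  congr 1
  have h1 : ∏ i ∈ d.support, (algebraMap R A (t i) * z) ^ d i =
      (∏ i ∈ d.support, algebraMap R A (t i ^ d i)) * ∏ i ∈ d.support, z ^ d i := by
    rw [← Finset.prod_mul_distrib]
    refine Finset.prod_congr rfl fun i _ => ?_
    rw [mul_pow, map_pow]
  rw [h1, Finset.prod_pow_eq_pow_sum, homog_deg hF hd]

end hom

/-! ### generators of the augmentation ideal -/

section gen
variable {R : Type*} [CommRing R] {G : Type*} [CommGroup G]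

theorem of_sub_one_mem_span {S : Set G} {g : G} (hg : g ∈ Subgroup.closure S) :
    of R G g - 1 ∈ Ideal.span ((fun g => of R G g - 1) '' S) := by
  induction hg using Subgroup.closure_induction with
  | mem x hx => exact Ideal.subset_span ⟨x, hx, rfl⟩
  | one => rw [map_one, sub_self]; exact Ideal.zero_mem _
  | mul x y _ _ hx hy =>
    have : of R G (x * y) - 1 = of R G x * (of R G y - 1) + (of R G x - 1) := by
      rw [map_mul]; ring
    rw [this]
    exact Ideal.add_mem _ (Ideal.mul_mem_left _ _ hy) hx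
  | inv x _ hx =>
    have h1 : of R G x⁻¹ * of R G x = 1 := by rw [← map_mul, inv_mul_cancel, map_one]
    have : of R G x⁻¹ - 1 = -(of R G x⁻¹ * (of R G x - 1)) := by
      rw [mul_sub, h1]; ring
    rw [this]
    exact (Ideal.neg_mem_iff _).mpr (Ideal.mul_mem_left _ _ hx)

theorem augI_le_span {S : Set G} (hS : Subgroup.closure S = ⊤) :
    augI R G ≤ Ideal.span ((fun g => of R G g - 1) '' S) := by
  intro x hx
  have h1 := sub_mapDomain_mem (R := R) (Ideal.span ((fun g => of R G g - 1) '' S)) (fun _ => 1)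
    (fun g => by
      have : g ∈ Subgroup.closure S := by rw [hS]; trivial
      have h2 := of_sub_one_mem_span (R := R) this
      rwa [map_one]) x
  have h2 : MonoidAlgebra.mapDomain (fun _ : G => (1 : G)) x = algebraMap R _ (eps R G x) := by
    clear h1 hx
    induction x using MonoidAlgebra.induction_linear with
    | zero => simp [MonoidAlgebra.mapDomain_zero]
    | add a b ha hb => rw [MonoidAlgebra.mapDomain_add, ha, hb, map_add, map_add]
    | single g r =>
      rw [MonoidAlgebra.mapDomain_single, eps_single]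
      simp
  rw [h2, mem_augI.mp hx, map_zero, sub_zero] at h1
  exact h1

variable {ι : Type*} (g : ι → G)

/-- polynomials in `g i - 1` -/
noncomputable def Phi : MvPolynomial ι R →ₐ[R] MonoidAlgebra R G :=
  MvPolynomial.aeval (fun i => of R G (g i) - 1)

theorem Phi_mem {F : MvPolynomial ι R} {k : ℕ} (hF : F.IsHomogeneous k) :
    Phi g F ∈ augI R G ^ k := by
  have h : ∀ i, Cong (augI R G) 1 (of R G (g i) - 1) (of R G (g i) - 1) := by
    intro i
    refine ⟨by rw [pow_one]; exact of_sub_one_mem _, by rw [sub_self]; exact Ideal.zero_mem _⟩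
  exact (aeval_cong hF h).1

variable {g}

theorem exists_homog_one (hg : Subgroup.closure (Set.range g) = ⊤) {x : MonoidAlgebra R G}
    (hx : x ∈ augI R G) : ∃ F : MvPolynomial ι R, F.IsHomogeneous 1 ∧
      x - Phi g F ∈ augI R G ^ 2 := by
  have h1 := augI_le_span hg hx
  refine Submodule.span_induction (p := fun x _ => ∃ F : MvPolynomial ι R, F.IsHomogeneous 1 ∧
      x - Phi g F ∈ augI R G ^ 2) ?_ ?_ ?_ ?_ h1
  · rintro _ ⟨_, ⟨i, rfl⟩, rfl⟩
    refine ⟨MvPolynomial.X i, MvPolynomial.isHomogeneous_X R i, ?_⟩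
    simp [Phi]
  · exact ⟨0, MvPolynomial.isHomogeneous_zero _ _ _, by simp⟩
  · rintro x y - - ⟨F, hF, hF'⟩ ⟨F', hF1, hF1'⟩
    refine ⟨F + F', hF.add hF1, ?_⟩
    have : x + y - Phi g (F + F') = (x - Phi g F) + (y - Phi g F') := by
      rw [map_add]; ring
    rw [this]
    exact Ideal.add_mem _ hF' hF1'
  · rintro b x - ⟨F, hF, hF'⟩
    refine ⟨MvPolynomial.C (eps R G b) * F, by
      simpa using (MvPolynomial.isHomogeneous_C ι (eps R G b)).mul hF, ?_⟩
    have h2 : b • x - Phi g (MvPolynomial.C (eps R G b) * F) =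
        b * (x - Phi g F) + (b - algebraMap R _ (eps R G b)) * Phi g F := by
      have h3 : Phi g (MvPolynomial.C (eps R G b)) = algebraMap R _ (eps R G b) := by
        simp [Phi]
      rw [map_mul, h3, smul_eq_mul]
      ring
    rw [h2]
    refine Ideal.add_mem _ (Ideal.mul_mem_left _ _ hF') ?_
    rw [pow_two]
    refine Ideal.mul_mem_mul (sub_eps_mem b) ?_
    have := Phi_mem g hF
    rwa [pow_one] at this

theorem exists_homog (hg : Subgroup.closure (Set.range g) = ⊤) (k : ℕ) {x : MonoidAlgebra R G}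
    (hx : x ∈ augI R G ^ k) : ∃ F : MvPolynomial ι R, F.IsHomogeneous k ∧
      x - Phi g F ∈ augI R G ^ (k + 1) := by
  induction k generalizing x with
  | zero =>
    refine ⟨MvPolynomial.C (eps R G x), MvPolynomial.isHomogeneous_C _ _, ?_⟩
    have h3 : Phi g (MvPolynomial.C (eps R G x)) = algebraMap R _ (eps R G x) := by
      simp [Phi]
    rw [h3, zero_add, pow_one]
    exact sub_eps_mem x
  | succ k ih =>
    rw [pow_succ] at hx
    refine Submodule.mul_induction_on (C := fun x => ∃ F : MvPolynomial ι R,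
      F.IsHomogeneous (k + 1) ∧ x - Phi g F ∈ augI R G ^ (k + 1 + 1)) hx ?_ ?_
    · intro a ha b hb
      obtain ⟨F, hF, hF'⟩ := ih ha
      obtain ⟨F', hF1, hF1'⟩ := exists_homog_one hg hb
      refine ⟨F * F', hF.mul hF1, ?_⟩
      have h1 : a * b - Phi g (F * F') = (a - Phi g F) * b + Phi g F * (b - Phi g F') := by
        rw [map_mul]; ring
      rw [h1]
      refine Ideal.add_mem _ ?_ ?_
      · rw [pow_succ (augI R G) (k + 1)]
        exact Ideal.mul_mem_mul hF' hb
      · have : k + 1 + 1 = k + 2 := rfl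
        rw [this, pow_add]
        exact Ideal.mul_mem_mul (Phi_mem g hF) hF1'
    · rintro x y ⟨F, hF, hF'⟩ ⟨F', hF1, hF1'⟩
      refine ⟨F + F', hF.add hF1, ?_⟩
      have : x + y - Phi g (F + F') = (x - Phi g F) + (y - Phi g F') := by
        rw [map_add]; ring
      rw [this]
      exact Ideal.add_mem _ hF' hF1'

end gen

end MTate
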