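import Mathlib
import Pool.Agent.Lib.MP_5deabe_nt.Cyc2

/-!
# Detection of powers of the augmentation ideal by cyclic quotients, part 3
-/

namespace MTate

open MonoidAlgebra

variable {p : ℕ} [hp : Fact p.Prime]

theorem poly_dvd_supp {ι : Type} [Finite ι] (n : ℕ) (A : Finset ι) (P : MvPolynomial ι ℤ_[p])
    (hd : ∀ s ∈ P.support, ∀ i, s i ≤ p - 1)
    (h : ∀ t : ι → ℕ, (∀ i, i ∉ A → t i = 0) →
      (p : ℤ_[p]) ^ n ∣ MvPolynomial.eval (fun i => (t i : ℤ_[p])) P)
    (s : ι →₀ ℕ) (hs : s.support ⊆ A) : (p : ℤ_[p]) ^ n ∣ P.coeff s := by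
  classical
  let Q : MvPolynomial ι ℤ_[p] := ∑ d ∈ P.support.filter (fun d => d.support ⊆ A),
    MvPolynomial.monomial d (P.coeff d)
  have hQ : ∀ d, Q.coeff d = if d.support ⊆ A then P.coeff d else 0 := by
    intro d
    show MvPolynomial.coeff d (∑ d ∈ P.support.filter (fun d => d.support ⊆ A),
      MvPolynomial.monomial d (P.coeff d)) = _
    rw [MvPolynomial.coeff_sum]
    simp only [MvPolynomial.coeff_monomial]
    rw [Finset.sum_ite_eq']
    simp only [Finset.mem_filter, MvPolynomial.mem_support_iff]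
    by_cases h1 : d.support ⊆ A
    · by_cases h2 : P.coeff d = 0
      · simp [h2]
      · simp [h1, h2]
    · simp [h1]
  have h1 := poly_dvd n Q ?_ ?_ s
  · rwa [hQ, if_pos hs] at h1
  · intro d hd' i
    refine hd d ?_ i
    rw [MvPolynomial.mem_support_iff] at hd' ⊢
    rw [hQ] at hd'
    by_contra h2
    apply hd'
    rw [h2, ite_self]
  · intro t
    let t' : ι → ℕ := fun i => if i ∈ A then t i else 0
    have h2 := h t' (fun i hi => by simp [t', hi])
    have h3 : MvPolynomial.eval (fun i => (t i : ℤ_[p])) Q =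
        MvPolynomial.eval (fun i => (t' i : ℤ_[p])) P := by
      show MvPolynomial.eval _ (∑ d ∈ P.support.filter (fun d => d.support ⊆ A),
        MvPolynomial.monomial d (P.coeff d)) = _
      rw [map_sum, MvPolynomial.eval_eq, Finset.sum_filter]
      refine Finset.sum_congr rfl fun d _ => ?_
      split_ifs with h4
      · rw [MvPolynomial.eval_monomial, Finsupp.prod]
        congr 1
        refine Finset.prod_congr rfl fun i hi => ?_
        simp [t', h4 hi]
      · obtain ⟨i, hi, hiA⟩ := Finset.not_subset.mp h4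
        have h5 : ∏ i ∈ d.support, ((t' i : ℕ) : ℤ_[p]) ^ d i = 0 := by
          apply Finset.prod_eq_zero hi
          simp only [t', if_neg hiA, Nat.cast_zero]
          exact zero_pow (Finsupp.mem_support_iff.mp hi)
        rw [h5, mul_zero]
    rw [h3]
    exact h2

/-- the image of `Phi F` in a cyclic group determines a value of `F` -/
theorem eval_dvd_of_push {ι : Type} {G : Type*} [CommGroup G] {g : ι → G} {k n : ℕ} (hk : k < p)
    {F : MvPolynomial ι ℤ_[p]} (hF : F.IsHomogeneous k) (φ : G →* Cpn p n) (t : ι → ℕ)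
    (ht : ∀ i, φ (g i) = gam p n ^ t i)
    (h : push φ (Phi g F) ∈ augI ℤ_[p] (Cpn p n) ^ (k + 1)) :
    (p : ℤ_[p]) ^ n ∣ MvPolynomial.eval (fun i => (t i : ℤ_[p])) F := by
  set z := of ℤ_[p] (Cpn p n) (gam p n) - 1 with hz
  have hzI : z ∈ augI ℤ_[p] (Cpn p n) := of_sub_one_mem _
  have h1 : push φ (Phi g F) = MvPolynomial.aeval (fun i => of ℤ_[p] _ (φ (g i)) - 1) F := by
    unfold Phi
    have h0 := congrArg (fun e => e F) (MvPolynomial.comp_aeval
      (fun i => of ℤ_[p] G (g i) - 1) (push φ))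
    have h0' : push φ (MvPolynomial.aeval (fun i => of ℤ_[p] G (g i) - 1) F) =
      MvPolynomial.aeval (fun i => push φ (of ℤ_[p] G (g i) - 1)) F := h0
    rw [h0']
    congr 2
    funext i
    rw [map_sub, push_of, map_one]
  have h2 : ∀ i, Cong (augI ℤ_[p] (Cpn p n)) 1 (of ℤ_[p] _ (φ (g i)) - 1)
      (algebraMap ℤ_[p] _ (t i : ℤ_[p]) * z) := by
    intro i
    refine ⟨by rw [pow_one]; exact of_sub_one_mem _, ?_⟩
    obtain ⟨w, hw⟩ := one_add_pow_exists z (t i)
    have h3 : of ℤ_[p] _ (φ (g i)) = 1 + (t i : MonoidAlgebra ℤ_[p] (Cpn p n)) * z + z ^ 2 * w := by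
      rw [ht, map_pow, ← hw, hz]
      congr 1
      ring
    have h4 : of ℤ_[p] _ (φ (g i)) - 1 - algebraMap ℤ_[p] _ (t i : ℤ_[p]) * z = z ^ 2 * w := by
      rw [h3, map_natCast]
      ring
    rw [h4]
    exact Ideal.mul_mem_right _ _ (Ideal.pow_mem_pow hzI 2)
  have h3 := (aeval_cong hF h2).2
  rw [aeval_smul_homog hF, ← h1] at h3
  have h4 : algebraMap ℤ_[p] _ (MvPolynomial.eval (fun i => (t i : ℤ_[p])) F) * z ^ k ∈
      augI ℤ_[p] (Cpn p n) ^ (k + 1) := by
    have := Ideal.sub_mem _ h h3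
    rwa [sub_sub_cancel] at this
  -- the augmentation ideal is generated by `z`
  have hcl : Subgroup.closure {gam p n} = (⊤ : Subgroup (Cpn p n)) := by
    have : NeZero (p ^ n) := ⟨(Nat.pow_pos hp.out.pos).ne'⟩
    rw [eq_top_iff]
    intro x _
    rw [Subgroup.mem_closure_singleton]
    refine ⟨((Multiplicative.toAdd x).val : ℤ), ?_⟩
    rw [zpow_natCast]
    show gam p n ^ (Multiplicative.toAdd x).val = x
    apply Multiplicative.toAdd.injective
    rw [toAdd_pow]
    simp [gam]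
  have h5 : augI ℤ_[p] (Cpn p n) ^ (k + 1) ≤ Ideal.span {z ^ (k + 1)} := by
    have h6 := augI_le_span (R := ℤ_[p]) hcl
    rw [Set.image_singleton] at h6
    rw [← Ideal.span_singleton_pow]
    exact Ideal.pow_right_mono h6 (k + 1)
  obtain ⟨w, hw⟩ := Ideal.mem_span_singleton.mp (h5 h4)
  have h6 := lam_pow_succ (n := n) hk w
  rw [← hz, ← hw, mul_comm, hz, lam_pow hk, AlgHom.commutes] at h6
  have h7 : MvPolynomial.eval (fun i => (t i : ℤ_[p])) F ∈
      RingHom.ker (PadicInt.toZModPow (p := p) n) := h6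
  rw [PadicInt.ker_toZModPow, Ideal.mem_span_singleton] at h7
  exact h7

end MTate
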