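import Mathlib
import Pool.Agent.Lib.MP_5deabe_nt.Cyc3

/-!
# Detection of powers of the augmentation ideal by cyclic quotients, part 4
-/

namespace MTate

open MonoidAlgebra

variable {p : ℕ} [hp : Fact p.Prime]

theorem isUnit_cast {u : ℕ} (h : p.Coprime u) : IsUnit (u : ℤ_[p]) := by
  rw [PadicInt.isUnit_iff, PadicInt.norm_natCast_eq_one_iff]
  exact h

/-- `p ^ n (g - 1) ∈ I ^ 2` if `p ^ n` is the exact power of `p` in `N` and `g ^ N = 1` -/
theorem pow_mul_sub_one_mem {G : Type*} [CommGroup G] {g : G} {N : ℕ} (hN : N ≠ 0)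
    (hg : g ^ N = 1) :
    algebraMap ℤ_[p] (MonoidAlgebra ℤ_[p] G) ((p : ℤ_[p]) ^ (N.factorization p)) *
      (of ℤ_[p] G g - 1) ∈ augI ℤ_[p] G ^ 2 := by
  obtain ⟨w, hw⟩ := nsmul_sub_one_mem (R := ℤ_[p]) hg
  have h1 := Nat.ordProj_mul_ordCompl_eq_self N p
  set u := N / p ^ N.factorization p with hu
  have h2 : p.Coprime u := Nat.coprime_ordCompl hp.out hN
  have h3 : IsUnit (algebraMap ℤ_[p] (MonoidAlgebra ℤ_[p] G) (u : ℤ_[p])) :=
    (isUnit_cast h2).map _
  rw [← Ideal.unit_mul_mem_iff_mem _ h3, ← mul_assoc, ← map_mul]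
  have h4 : (u : ℤ_[p]) * (p : ℤ_[p]) ^ (N.factorization p) = (N : ℤ_[p]) := by
    rw [mul_comm]
    exact_mod_cast h1
  rw [h4, map_natCast, hw]
  exact Ideal.mul_mem_right _ _ (Ideal.pow_mem_pow (of_sub_one_mem g) 2)

section
variable {G : Type*} [CommGroup G] {ι : Type} [Fintype ι] [DecidableEq ι] {N : ι → ℕ}
  (e : G ≃* ((i : ι) → Multiplicative (ZMod (N i))))

/-- the generators -/
def gg (i : ι) : G := e.symm (Pi.mulSingle i (Multiplicative.ofAdd 1))

theorem gg_closure (hN : ∀ i, 1 < N i) : Subgroup.closure (Set.range (gg e)) = ⊤ := by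
  rw [eq_top_iff]
  intro x _
  have h1 : x = ∏ i, gg e i ^ (Multiplicative.toAdd (e x i)).val := by
    apply e.injective
    rw [map_prod]
    funext j
    rw [Finset.prod_apply]
    rw [Finset.prod_eq_single j]
    · rw [map_pow]
      unfold gg
      rw [MulEquiv.apply_symm_apply, Pi.pow_apply, Pi.mulSingle_eq_same]
      have : NeZero (N j) := ⟨by have := hN j; omega⟩
      apply Multiplicative.toAdd.injective
      rw [toAdd_pow]
      simp
    · intro i _ hij
      rw [map_pow]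
      unfold gg
      rw [MulEquiv.apply_symm_apply, Pi.pow_apply, Pi.mulSingle_eq_of_ne hij.symm, one_pow]
    · intro h
      exact absurd (Finset.mem_univ j) h
  rw [h1]
  exact prod_mem fun i _ => pow_mem (Subgroup.subset_closure (Set.mem_range_self i)) _

theorem gg_pow (i : ι) : gg e i ^ N i = 1 := by
  apply e.injective
  rw [map_pow, map_one]
  unfold gg
  rw [MulEquiv.apply_symm_apply, ← Pi.mulSingle_pow, ← ofAdd_nsmul]
  simp

open Classical in
/-- projections to cyclic groups -/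
noncomputable def psi (p n : ℕ) (i : ι) : G →* Cpn p n :=
  if h : p ^ n ∣ N i then
    ((AddMonoidHom.toMultiplicative (ZMod.castHom h (ZMod (p ^ n))).toAddMonoidHom).comp
      ((Pi.evalMonoidHom _ i).comp e.toMonoidHom)) else 1

theorem psi_gg_ne (n : ℕ) {i j : ι} (hij : i ≠ j) : psi e p n i (gg e j) = 1 := by
  unfold psi
  split_ifs with h
  · simp [gg, Pi.mulSingle_eq_of_ne hij]
  · rfl

theorem psi_gg_self (n : ℕ) {i : ι} (h : p ^ n ∣ N i) : psi e p n i (gg e i) = gam p n := by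
  unfold psi
  rw [dif_pos h]
  simp only [MonoidHom.comp_apply, MulEquiv.toMonoidHom_eq_coe, MonoidHom.coe_coe,
    gg, MulEquiv.apply_symm_apply, Pi.evalMonoidHom_apply, Pi.mulSingle_eq_same]
  show Multiplicative.ofAdd ((ZMod.castHom h (ZMod (p ^ n))) 1) = gam p n
  rw [map_one]
  rfl

theorem exists_phi (n : ℕ) (A : Finset ι) (hA : ∀ i ∈ A, p ^ n ∣ N i) (t : ι → ℕ)
    (ht : ∀ i, i ∉ A → t i = 0) : ∃ φ : G →* Cpn p n, ∀ i, φ (gg e i) = gam p n ^ t i := by
  refine ⟨∏ i, psi e p n i ^ t i, fun j => ?_⟩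
  rw [MonoidHom.finsetProd_apply, Finset.prod_eq_single j]
  · rw [MonoidHom.pow_apply]
    by_cases hj : j ∈ A
    · rw [psi_gg_self e n (hA j hj)]
    · rw [ht j hj, pow_zero, pow_zero]
  · intro i _ hij
    rw [MonoidHom.pow_apply, psi_gg_ne e n hij, one_pow]
  · intro h
    exact absurd (Finset.mem_univ j) h

end

theorem cyc_step {G : Type*} [CommGroup G] [Finite G] {k : ℕ} (hk1 : 1 ≤ k) (hk : k < p)
    {x : MonoidAlgebra ℤ_[p] G} (hx : x ∈ augI ℤ_[p] G ^ k)
    (h : ∀ (n : ℕ) (φ : G →* Cpn p n), push φ x ∈ augI ℤ_[p] (Cpn p n) ^ (k + 1)) :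
    x ∈ augI ℤ_[p] G ^ (k + 1) := by
  classical
  obtain ⟨ι, _, N, hN, ⟨e⟩⟩ := CommGroup.equiv_prod_multiplicative_zmod_of_finite G
  obtain ⟨F, hF, hF'⟩ := exists_homog (gg_closure e hN) k hx
  have hs : Phi (gg e) F ∈ augI ℤ_[p] G ^ (k + 1) := by
    have hPhi : Phi (gg e) F = ∑ d ∈ F.support, algebraMap ℤ_[p] _ (F.coeff d) *
        ∏ i ∈ d.support, (of ℤ_[p] G (gg e i) - 1) ^ d i := by
      unfold Phi
      rw [MvPolynomial.aeval_def, MvPolynomial.eval₂_eq]
    rw [hPhi]
    refine Ideal.sum_mem _ fun d hd => ?_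
    have hdeg := homog_deg hF hd
    have hne : d.support.Nonempty := by
      rw [Finset.nonempty_iff_ne_empty]
      intro h0
      rw [h0, Finset.sum_empty] at hdeg
      omega
    obtain ⟨i0, hi0, hmin⟩ := Finset.exists_min_image d.support
      (fun i => (N i).factorization p) hne
    set n := (N i0).factorization p with hn
    have hA : ∀ i ∈ d.support, p ^ n ∣ N i := fun i hi =>
      (Nat.pow_dvd_pow p (hmin i hi)).trans (Nat.ordProj_dvd (N i) p)
    have hdvd : (p : ℤ_[p]) ^ n ∣ F.coeff d := by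
      refine poly_dvd_supp n d.support F ?_ ?_ d subset_rfl
      · intro s hs i
        have h1 := homog_deg hF hs
        by_cases hi : i ∈ s.support
        · have := Finset.single_le_sum (f := fun i => s i) (fun _ _ => Nat.zero_le _) hi
          have h2 : s i ≤ k := by rw [← h1]; exact this
          omega
        · rw [Finsupp.notMem_support_iff.mp hi]
          exact Nat.zero_le _
      · intro t ht
        obtain ⟨φ, hφ⟩ := exists_phi (p := p) e n d.support hA t ht
        refine eval_dvd_of_push hk hF φ t hφ ?_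
        have h1 := h n φ
        have h2 := push_mem φ hF'
        have h3 : push φ (Phi (gg e) F) = push φ x - push φ (x - Phi (gg e) F) := by
          rw [map_sub]; ring
        rw [h3]
        exact Ideal.sub_mem _ h1 h2
    obtain ⟨c, hc⟩ := hdvd
    have hN0 : N i0 ≠ 0 := by have := hN i0; omega
    have h5 := pow_mul_sub_one_mem (p := p) hN0 (gg_pow e i0)
    have hd0 : d i0 ≠ 0 := Finsupp.mem_support_iff.mp hi0
    have h6 : algebraMap ℤ_[p] (MonoidAlgebra ℤ_[p] G) (F.coeff d) *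
        ∏ i ∈ d.support, (of ℤ_[p] G (gg e i) - 1) ^ d i =
        algebraMap ℤ_[p] _ c * ((algebraMap ℤ_[p] (MonoidAlgebra ℤ_[p] G) ((p : ℤ_[p]) ^ n) *
          (of ℤ_[p] G (gg e i0) - 1)) * ((of ℤ_[p] G (gg e i0) - 1) ^ (d i0 - 1) *
          ∏ i ∈ d.support.erase i0, (of ℤ_[p] G (gg e i) - 1) ^ d i)) := by
      rw [hc, map_mul, ← Finset.mul_prod_erase _ _ hi0]
      have h7 : (of ℤ_[p] G (gg e i0) - 1) ^ d i0 = (of ℤ_[p] G (gg e i0) - 1) *
          (of ℤ_[p] G (gg e i0) - 1) ^ (d i0 - 1) := by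
        rw [← pow_succ']
        congr 1
        omega
      rw [h7]
      ring
    rw [h6]
    refine Ideal.mul_mem_left _ _ ?_
    have h8 : k + 1 = 2 + (d i0 - 1 + ∑ i ∈ d.support.erase i0, d i) := by
      have := Finset.add_sum_erase d.support (fun i => d i) hi0
      have h9 : d i0 + ∑ i ∈ d.support.erase i0, d i = k := by rw [← hdeg]; exact this
      omega
    rw [h8, pow_add, pow_add]
    refine Ideal.mul_mem_mul h5 (Ideal.mul_mem_mul (Ideal.pow_mem_pow (of_sub_one_mem _) _) ?_)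
    exact (Cong.prod (I := augI ℤ_[p] G) (d.support.erase i0) (fun i => d i)
      (fun i => (of ℤ_[p] G (gg e i) - 1) ^ d i) (fun i => (of ℤ_[p] G (gg e i) - 1) ^ d i)
      (fun i _ => (⟨Ideal.pow_mem_pow (of_sub_one_mem _) _, by simp⟩ : Cong _ _ _ _))).1
  have : x = (x - Phi (gg e) F) + Phi (gg e) F := by ring
  rw [this]
  exact Ideal.add_mem _ hF' hs

/-- **L3.** for `r < p`, membership in `I ^ (r + 1)` is detected by the homomorphisms to cyclic
groups of `p`-power order -/
theorem cyc_detect {G : Type*} [CommGroup G] [Finite G] {r : ℕ} (hr : r < p)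
    {x : MonoidAlgebra ℤ_[p] G}
    (h : ∀ (n : ℕ) (φ : G →* Cpn p n), push φ x ∈ augI ℤ_[p] (Cpn p n) ^ (r + 1)) :
    x ∈ augI ℤ_[p] G ^ (r + 1) := by
  have key : ∀ j, j ≤ r + 1 → x ∈ augI ℤ_[p] G ^ j := by
    intro j
    induction j with
    | zero => intro _; simp
    | succ j ih =>
      intro hj
      rcases Nat.eq_zero_or_pos j with rfl | hj0
      · rw [zero_add, pow_one, mem_augI, ← eps_push (1 : G →* Cpn p 0), ← mem_augI]
        have := h 0 1
        exact Ideal.pow_le_self r.succ_ne_zero this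
      · exact cyc_step hj0 (by omega) (ih (by omega))
          fun n φ => Ideal.pow_le_pow_right (by omega) (h n φ)
  exact key _ le_rfl

end MTate
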