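import Mathlib
import Pool.Agent.Lib.MP_5deabe_nt.Cyc4

/-!
# Detection of powers of the augmentation ideal by totally ramified cyclic quotients
-/

namespace MTate

open MonoidAlgebra

variable {p : ℕ} [hp : Fact p.Prime]

/-- polynomials of degree at most `p - 2` in each variable, with values divisible by `p ^ n` at
all points with coordinates prime to `p` -/
theorem poly_dvd_unit {ι : Type} [Fintype ι] (n : ℕ) (P : MvPolynomial ι ℤ_[p])
    (hd : ∀ s ∈ P.support, ∀ i, s i + 2 ≤ p)
    (h : ∀ t : ι → ℕ, (∀ i, p.Coprime (t i)) →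
      (p : ℤ_[p]) ^ n ∣ MvPolynomial.eval (fun i => (t i : ℤ_[p])) P) :
    ∀ s, (p : ℤ_[p]) ^ n ∣ P.coeff s := by
  classical
  induction n generalizing P with
  | zero => intro s; simp
  | succ n ih =>
    have hp0 : (p : ℤ_[p]) ≠ 0 := by exact_mod_cast hp.out.ne_zero
    have hp2 := hp.out.two_le
    have key : ∀ a : ℤ_[p], PadicInt.toZMod a = 0 ↔ (p : ℤ_[p]) ∣ a := by
      intro a
      rw [← RingHom.mem_ker, PadicInt.ker_toZMod, PadicInt.maximalIdeal_eq_span_p,
        Ideal.mem_span_singleton]
    have h0 : MvPolynomial.map (PadicInt.toZMod (p := p)) P *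
        ∏ i : ι, (MvPolynomial.X i : MvPolynomial ι (ZMod p)) = 0 := by
      refine MvPolynomial.eq_zero_of_eval_eq_zero (σ := ι) (K := ZMod p) _ ?_ ?_
      · intro v
        rw [map_mul, map_prod]
        simp only [MvPolynomial.eval_X]
        by_cases hv : ∀ i, v i ≠ 0
        · have h1 := h (fun i => (v i).val) (fun i => by
            rw [Nat.Prime.coprime_iff_not_dvd hp.out]
            intro h2
            apply hv i
            rw [← ZMod.natCast_zmod_val (v i)]
            exact (ZMod.natCast_eq_zero_iff _ _).mpr h2)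
          have h2 : (p : ℤ_[p]) ∣ MvPolynomial.eval (fun i => (((v i).val : ℕ) : ℤ_[p])) P :=
            (dvd_pow_self _ n.succ_ne_zero).trans h1
          rw [← key] at h2
          have h3 : MvPolynomial.eval v (MvPolynomial.map (PadicInt.toZMod (p := p)) P) = 0 := by
            rw [← h2, MvPolynomial.eval_map, MvPolynomial.eval, MvPolynomial.coe_eval₂Hom,
              MvPolynomial.hom_eval₂]
            congr 1
            · funext i
              simp
          rw [h3, zero_mul]
        · push Not at hv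
          obtain ⟨i, hi⟩ := hv
          rw [Finset.prod_eq_zero (Finset.mem_univ i) hi, mul_zero]
      · rw [ZMod.card, MvPolynomial.mem_restrictDegree]
        intro s hs i
        have h1 : MvPolynomial.degreeOf i (MvPolynomial.map (PadicInt.toZMod (p := p)) P) ≤
            p - 2 := by
          rw [MvPolynomial.degreeOf_le_iff]
          intro s hs
          have h2 : s ∈ P.support := by
            rw [MvPolynomial.mem_support_iff] at hs ⊢
            intro h3
            apply hs
            rw [MvPolynomial.coeff_map, h3, map_zero]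
          have := hd s h2 i
          omega
        have h2 : MvPolynomial.degreeOf i
            (∏ i : ι, (MvPolynomial.X i : MvPolynomial ι (ZMod p))) ≤ 1 := by
          refine (MvPolynomial.degreeOf_prod_le i _ _).trans ?_
          have : Nontrivial (ZMod p) := inferInstance
          simp only [MvPolynomial.degreeOf_X]
          rw [Finset.sum_ite_eq]
          split_ifs <;> omega
        have h3 := (MvPolynomial.degreeOf_mul_le i
          (MvPolynomial.map (PadicInt.toZMod (p := p)) P)
          (∏ i : ι, (MvPolynomial.X i : MvPolynomial ι (ZMod p))))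
        have h4 := (MvPolynomial.degreeOf_le_iff.mp h3) s hs
        omega
    have h0' : MvPolynomial.map (PadicInt.toZMod (p := p)) P = 0 := by
      rcases mul_eq_zero.mp h0 with h1 | h1
      · exact h1
      · exfalso
        rw [Finset.prod_eq_zero_iff] at h1
        obtain ⟨i, _, hi⟩ := h1
        exact MvPolynomial.X_ne_zero i hi
    have h1 : MvPolynomial.C (p : ℤ_[p]) ∣ P := by
      rw [MvPolynomial.C_dvd_iff_dvd_coeff]
      intro s
      rw [← key, ← MvPolynomial.coeff_map, h0', MvPolynomial.coeff_zero]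
    obtain ⟨Q, rfl⟩ := h1
    have h2 := ih Q ?_ ?_
    · intro s
      rw [MvPolynomial.coeff_C_mul, pow_succ']
      exact mul_dvd_mul_left _ (h2 s)
    · intro s hs i
      refine hd s ?_ i
      rw [MvPolynomial.mem_support_iff] at hs ⊢
      rw [MvPolynomial.coeff_C_mul]
      exact mul_ne_zero hp0 hs
    · intro t ht
      have h3 := h t ht
      rw [map_mul, MvPolynomial.eval_C, pow_succ'] at h3
      exact (mul_dvd_mul_iff_left hp0).mp h3

/-- `p ^ n (g - 1)` is a multiple of `(g - 1) ^ 2` if `p ^ n` is the exact power of `p` in `N` and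
`g ^ N = 1` -/
theorem pow_mul_sub_one_exists {G : Type*} [CommGroup G] {g : G} {N : ℕ} (hN : N ≠ 0)
    (hg : g ^ N = 1) :
    ∃ w, algebraMap ℤ_[p] (MonoidAlgebra ℤ_[p] G) ((p : ℤ_[p]) ^ (N.factorization p)) *
      (of ℤ_[p] G g - 1) = (of ℤ_[p] G g - 1) ^ 2 * w := by
  obtain ⟨w, hw⟩ := nsmul_sub_one_mem (R := ℤ_[p]) hg
  have h1 := Nat.ordProj_mul_ordCompl_eq_self N p
  set u := N / p ^ N.factorization p with hu
  have h2 : p.Coprime u := Nat.coprime_ordCompl hp.out hN
  have h3 := Ring.inverse_mul_cancel _ (isUnit_cast (p := p) h2)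
  refine ⟨algebraMap ℤ_[p] _ (Ring.inverse (u : ℤ_[p])) * w, ?_⟩
  have h4 : (p : ℤ_[p]) ^ (N.factorization p) = Ring.inverse (u : ℤ_[p]) * (N : ℤ_[p]) := by
    have h5 : (N : ℤ_[p]) = (p : ℤ_[p]) ^ (N.factorization p) * (u : ℤ_[p]) := by
      exact_mod_cast h1.symm
    rw [h5]
    linear_combination (-(p : ℤ_[p]) ^ (N.factorization p)) * h3
  rw [h4, map_mul, map_natCast]
  linear_combination algebraMap ℤ_[p] (MonoidAlgebra ℤ_[p] G) (Ring.inverse (u : ℤ_[p])) * hw

/-- detection of the powers of the augmentation ideal by the homomorphisms `φ` to a cyclic group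
with `φ (g i) = γ ^ u i`, `u` in a set `U` on which polynomials are determined by their values -/
theorem ram_detect_gen {ι : Type} [Fintype ι] {G : Type*} [CommGroup G] {g : ι → G}
    (hcl : Subgroup.closure (Set.range g) = ⊤) {N : ℕ} (i0 : ι) (hN : N ≠ 0)
    (hg : g i0 ^ N = 1) {k : ℕ} (hk : k ≤ p) {x w : MonoidAlgebra ℤ_[p] G}
    (hx : x - (∏ i, (of ℤ_[p] G (g i) - 1)) * w ∈ augI ℤ_[p] G ^ k)
    (U : Set (ι → ℕ))
    (hU : ∀ e, Fintype.card ι + e < k → ∀ F : MvPolynomial ι ℤ_[p], F.IsHomogeneous e →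
      (∀ t ∈ U, (p : ℤ_[p]) ^ (N.factorization p) ∣
        MvPolynomial.eval (fun i => (t i : ℤ_[p])) F) →
      ∀ d, (p : ℤ_[p]) ^ (N.factorization p) ∣ F.coeff d)
    (h : ∀ u ∈ U, (∀ i, p.Coprime (u i)) ∧
      ∃ φ : G →* Cpn p (N.factorization p), (∀ i, φ (g i) = gam p (N.factorization p) ^ u i) ∧
        push φ x ∈ augI ℤ_[p] (Cpn p (N.factorization p)) ^ k) :
    x ∈ augI ℤ_[p] G ^ k := by
  classical
  set n := N.factorization p with hn
  set s := Fintype.card ι with hs
  set P : MonoidAlgebra ℤ_[p] G := ∏ i, (of ℤ_[p] G (g i) - 1) with hP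
  have hs1 : 1 ≤ s := Fintype.card_pos_iff.mpr ⟨i0⟩
  have hPI : P ∈ augI ℤ_[p] G ^ s := by
    have := (Cong.prod (I := augI ℤ_[p] G) Finset.univ (fun _ : ι => 1)
      (fun i => of ℤ_[p] G (g i) - 1) (fun i => of ℤ_[p] G (g i) - 1)
      (fun i _ => ⟨by rw [pow_one]; exact of_sub_one_mem _, by simp⟩)).1
    rwa [Finset.sum_const, Finset.card_univ, smul_eq_mul, mul_one] at this
  have claim : ∀ e, s + e ≤ k → ∃ w ∈ augI ℤ_[p] G ^ e, x - P * w ∈ augI ℤ_[p] G ^ k := by
    intro e
    induction e with
    | zero => intro _; exact ⟨w, by simp, hx⟩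
    | succ e ih =>
      intro he
      obtain ⟨w, hw, hxw⟩ := ih (by omega)
      obtain ⟨F, hF, hF'⟩ := exists_homog hcl e hw
      have hdvd : ∀ d, (p : ℤ_[p]) ^ n ∣ F.coeff d := by
        refine hU e (by omega) F hF fun t htU => ?_
        obtain ⟨ht, φ, hφ, hφx⟩ := h t htU
        set F' : MvPolynomial ι ℤ_[p] := (∏ i, MvPolynomial.X i) * F with hF'def
        have hF'h : F'.IsHomogeneous (s + e) := by
          refine MvPolynomial.IsHomogeneous.mul ?_ hF
          have := MvPolynomial.IsHomogeneous.prod Finset.univ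
            (fun i : ι => (MvPolynomial.X i : MvPolynomial ι ℤ_[p])) (fun _ => 1)
            (fun i _ => MvPolynomial.isHomogeneous_X _ i)
          simpa using this
        have hPhi : Phi g F' = P * Phi g F := by
          rw [hF'def, map_mul, map_prod]
          congr 1
          refine Finset.prod_congr rfl fun i _ => ?_
          simp [Phi]
        have h1 := eval_dvd_of_push (n := n) (by omega : s + e < p) hF'h φ t hφ ?_
        · rw [hF'def, map_mul, map_prod] at h1
          simp only [MvPolynomial.eval_X] at h1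
          have h2 : IsUnit (∏ i, (t i : ℤ_[p])) := by
            rw [IsUnit.prod_iff]
            exact fun i _ => isUnit_cast (ht i)
          rwa [h2.dvd_mul_left] at h1
        · have h2 : Phi g F' = x - (x - P * w) - P * (w - Phi g F) := by
            rw [hPhi]; ring
          rw [h2, map_sub, map_sub]
          refine Ideal.sub_mem _ (Ideal.sub_mem _ ?_ ?_) ?_
          · exact Ideal.pow_le_pow_right (by omega) hφx
          · exact Ideal.pow_le_pow_right (by omega) (push_mem φ hxw)
          · refine push_mem φ ?_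
            rw [add_assoc, pow_add]
            exact Ideal.mul_mem_mul hPI hF'
      -- divide by `p ^ n`
      obtain ⟨F1, hF1⟩ := (MvPolynomial.C_dvd_iff_dvd_coeff _ _).mpr hdvd
      have hp0 : (p : ℤ_[p]) ^ n ≠ 0 := pow_ne_zero _ (by exact_mod_cast hp.out.ne_zero)
      have hF1h : F1.IsHomogeneous e := by
        intro d hd
        apply hF
        rw [hF1, MvPolynomial.coeff_C_mul]
        exact mul_ne_zero hp0 hd
      obtain ⟨w', hw'⟩ := pow_mul_sub_one_exists (p := p) hN hg
      rw [← hn] at hw'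
      refine ⟨(w - Phi g F) + (of ℤ_[p] G (g i0) - 1) * w' * Phi g F1, ?_, ?_⟩
      · refine Ideal.add_mem _ hF' ?_
        rw [pow_succ', mul_assoc]
        refine Ideal.mul_mem_mul (of_sub_one_mem _) (Ideal.mul_mem_left _ _ (Phi_mem g hF1h))
      · have h1 : Phi g F = algebraMap ℤ_[p] _ ((p : ℤ_[p]) ^ n) * Phi g F1 := by
          rw [hF1, map_mul]
          congr 1
          exact MvPolynomial.aeval_C _ _
        have h2 : P = (of ℤ_[p] G (g i0) - 1) *
            ∏ i ∈ Finset.univ.erase i0, (of ℤ_[p] G (g i) - 1) :=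
          (Finset.mul_prod_erase _ _ (Finset.mem_univ i0)).symm
        have h3 : x - P * ((w - Phi g F) + (of ℤ_[p] G (g i0) - 1) * w' * Phi g F1) =
            x - P * w := by
          rw [h1]
          generalize Phi g F1 = A
          generalize (∏ i ∈ Finset.univ.erase i0, (of ℤ_[p] G (g i) - 1)) = B at h2
          rw [h2]
          linear_combination (A * B) * hw'
        rw [h3]
        exact hxw
  rcases le_or_gt s k with hsk | hsk
  · obtain ⟨w, hw, hxw⟩ := claim (k - s) (by omega)
    have : x = (x - P * w) + P * w := by ring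
    rw [this]
    refine Ideal.add_mem _ hxw ?_
    have h1 : k = s + (k - s) := by omega
    rw [h1, pow_add]
    exact Ideal.mul_mem_mul hPI hw
  · have : x = (x - P * w) + P * w := by ring
    rw [this]
    refine Ideal.add_mem _ hx (Ideal.mul_mem_right _ _ ?_)
    exact Ideal.pow_le_pow_right hsk.le hPI

/-- all homomorphisms `φ` with `φ (g i)` a generator for all `i` -/
theorem ram_detect {ι : Type} [Fintype ι] {G : Type*} [CommGroup G] {g : ι → G}
    (hcl : Subgroup.closure (Set.range g) = ⊤) {N : ℕ} (i0 : ι) (hN : N ≠ 0)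
    (hg : g i0 ^ N = 1) {k : ℕ} (hk : k ≤ p) {x w : MonoidAlgebra ℤ_[p] G}
    (hx : x - (∏ i, (of ℤ_[p] G (g i) - 1)) * w ∈ augI ℤ_[p] G ^ k)
    (h : 1 ≤ N.factorization p → ∀ u : ι → ℕ, (∀ i, p.Coprime (u i)) →
      ∃ φ : G →* Cpn p (N.factorization p), (∀ i, φ (g i) = gam p (N.factorization p) ^ u i) ∧
        push φ x ∈ augI ℤ_[p] (Cpn p (N.factorization p)) ^ k) :
    x ∈ augI ℤ_[p] G ^ k := by
  have hs1 : 1 ≤ Fintype.card ι := Fintype.card_pos_iff.mpr ⟨i0⟩
  rcases Nat.eq_zero_or_pos (N.factorization p) with hn0 | hn1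
  · refine ram_detect_gen hcl i0 hN hg hk hx ∅ (fun e _ F _ _ d => ?_) (fun u hu => hu.elim)
    rw [hn0, pow_zero]
    exact one_dvd _
  · refine ram_detect_gen hcl i0 hN hg hk hx {u | ∀ i, p.Coprime (u i)} ?_
      (fun u hu => ⟨hu, h hn1 u hu⟩)
    intro e he F hF hFt
    refine poly_dvd_unit _ F ?_ hFt
    intro d hd i
    have h1 := homog_deg hF hd
    by_cases hi : i ∈ d.support
    · have := Finset.single_le_sum (f := fun i => d i) (fun _ _ => Nat.zero_le _) hi
      have h2 : d i ≤ e := by rw [← h1]; exact this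
      omega
    · rw [Finsupp.notMem_support_iff.mp hi]
      omega

/-- if the number of generators is `k - 1`, one homomorphism `φ` with `φ (g i)` a generator for
all `i` is enough -/
theorem ram_detect_one {ι : Type} [Fintype ι] {G : Type*} [CommGroup G] {g : ι → G}
    (hcl : Subgroup.closure (Set.range g) = ⊤) {N : ℕ} (i0 : ι) (hN : N ≠ 0)
    (hg : g i0 ^ N = 1) {k : ℕ} (hk : k ≤ p) (hcard : Fintype.card ι + 1 = k)
    {x w : MonoidAlgebra ℤ_[p] G}
    (hx : x - (∏ i, (of ℤ_[p] G (g i) - 1)) * w ∈ augI ℤ_[p] G ^ k)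
    (h : 1 ≤ N.factorization p → ∃ u : ι → ℕ, (∀ i, p.Coprime (u i)) ∧
      ∃ φ : G →* Cpn p (N.factorization p), (∀ i, φ (g i) = gam p (N.factorization p) ^ u i) ∧
        push φ x ∈ augI ℤ_[p] (Cpn p (N.factorization p)) ^ k) :
    x ∈ augI ℤ_[p] G ^ k := by
  rcases Nat.eq_zero_or_pos (N.factorization p) with hn0 | hn1
  · refine ram_detect_gen hcl i0 hN hg hk hx ∅ (fun e _ F _ _ d => ?_) (fun u hu => hu.elim)
    rw [hn0, pow_zero]
    exact one_dvd _
  · obtain ⟨u, hu, hφ⟩ := h hn1
    refine ram_detect_gen hcl i0 hN hg hk hx {u} ?_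
      (fun u' hu' => by rw [Set.mem_singleton_iff] at hu'; subst hu'; exact ⟨hu, hφ⟩)
    intro e he F hF hFt d
    have he0 : e = 0 := by omega
    subst he0
    obtain ⟨c, rfl⟩ : ∃ c, F = MvPolynomial.C c :=
      ⟨F.coeff 0, MvPolynomial.totalDegree_eq_zero_iff_eq_C.mp (by
        have := hF.totalDegree_le
        omega)⟩
    have h1 := hFt u rfl
    rw [MvPolynomial.eval_C] at h1
    classical
    rw [MvPolynomial.coeff_C]
    split_ifs
    · exact h1
    · exact dvd_zero _

end MTate
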