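import Mathlib
import Pool.Agent.Lib.MP_5deabe_nt.Cyc5
import Pool.Agent.Lib.MP_5deabe_nt.Gauss

/-!
# Generators of `(ℤ/m)ˣ` for square-free `m`
-/

namespace MTate

open MonoidAlgebra

variable {p : ℕ} [hp : Fact p.Prime]

theorem exists_gen {l : ℕ} (hl : l.Prime) : ∃ c : Gm l, c ^ (l - 1) = 1 ∧
    (∀ a : Gm l, ∃ k : ℕ, c ^ k = a) ∧
    ∀ n, p ^ n ∣ l - 1 → ∃ ψ : Gm l →* Cpn p n, ψ c = gam p n := by
  have : Fact l.Prime := ⟨hl⟩
  have hcyc : IsCyclic (Gm l) := inferInstance
  have hcard : Nat.card (Gm l) = l - 1 := by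
    rw [Nat.card_eq_fintype_card, ZMod.card_units l]
  let e : Multiplicative (ZMod (Nat.card (Gm l))) ≃* Gm l := zmodCyclicMulEquiv hcyc
  have hN : NeZero (Nat.card (Gm l)) := ⟨Nat.card_pos.ne'⟩
  refine ⟨e (Multiplicative.ofAdd 1), ?_, ?_, ?_⟩
  · rw [← hcard]
    exact pow_card_eq_one'
  · intro a
    refine ⟨(Multiplicative.toAdd (e.symm a)).val, ?_⟩
    rw [← map_pow]
    apply e.symm.injective
    rw [MulEquiv.symm_apply_apply]
    apply Multiplicative.toAdd.injective
    rw [toAdd_pow]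
    simp
  · intro n hn
    rw [← hcard] at hn
    refine ⟨(AddMonoidHom.toMultiplicative (ZMod.castHom hn (ZMod (p ^ n))).toAddMonoidHom).comp
      e.symm.toMonoidHom, ?_⟩
    show Multiplicative.ofAdd ((ZMod.castHom hn (ZMod (p ^ n)))
      (Multiplicative.toAdd (e.symm (e (Multiplicative.ofAdd 1))))) = gam p n
    rw [MulEquiv.symm_apply_apply]
    show Multiplicative.ofAdd ((ZMod.castHom hn (ZMod (p ^ n))) 1) = gam p n
    rw [map_one]
    rfl

theorem eq_one_of_unitsMap {m : ℕ} (hsq : Squarefree m) (z : Gm m)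
    (h : ∀ (l : ℕ) (hl : l ∣ m), l.Prime → ZMod.unitsMap hl z = 1) : z = 1 := by
  have hm0 : m ≠ 0 := hsq.ne_zero
  have : NeZero m := ⟨hm0⟩
  apply Units.ext
  rw [← ZMod.natCast_zmod_val (z : ZMod m), Units.val_one]
  set a := (z : ZMod m).val with ha
  have h1 : (m : ℤ) ∣ (a : ℤ) - 1 := by
    have h2 : (m : ℤ) = ∏ l ∈ m.primeFactors, (l : ℤ) := by
      rw [← Nat.cast_prod, Nat.prod_primeFactors_of_squarefree hsq]
    rw [h2]
    refine Finset.prod_dvd_of_coprime ?_ ?_
    · intro i hi j hj hij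
      exact Nat.isCoprime_iff_coprime.mpr ((Nat.coprime_primes (Nat.prime_of_mem_primeFactors hi)
        (Nat.prime_of_mem_primeFactors hj)).mpr hij)
    · intro l hl
      have hlm := Nat.dvd_of_mem_primeFactors hl
      have h3 := congrArg (fun u : Gm l => (u : ZMod l)) (h l hlm (Nat.prime_of_mem_primeFactors hl))
      simp only [Units.val_one] at h3
      rw [← ZMod.intCast_zmod_eq_zero_iff_dvd]
      push_cast
      rw [sub_eq_zero, ← h3]
      show ((z : ZMod m).val : ZMod l) = ZMod.castHom hlm (ZMod l) (z : ZMod m)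
      rw [ZMod.castHom_apply, ZMod.natCast_val]
  have h2 : (((a : ℤ) - 1 : ℤ) : ZMod m) = 0 := (ZMod.intCast_zmod_eq_zero_iff_dvd _ _).mpr h1
  push_cast at h2
  exact sub_eq_zero.mp h2

/-- generators of the inertia subgroups of `G_m` -/
theorem exists_gens {m : ℕ} (hsq : Squarefree m) : ∃ h : m.primeFactors → Gm m,
    (∀ i, h i ^ ((i : ℕ) - 1) = 1) ∧ Subgroup.closure (Set.range h) = ⊤ ∧
    (∀ (i : m.primeFactors) (d : ℕ) (hml : m = d * i),
      ZMod.unitsMap (m := m) (n := d) ⟨i, hml⟩ (h i) = 1) ∧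
    (∀ (i : m.primeFactors) (d : ℕ) (hml : m = d * i) (z : Gm m),
      ZMod.unitsMap (m := m) (n := d) ⟨i, hml⟩ z = 1 → ∃ k : ℕ, h i ^ k = z) ∧
    ∀ n, (∀ i : m.primeFactors, p ^ n ∣ (i : ℕ) - 1) → ∀ u : m.primeFactors → ℕ,
      ∃ φ : Gm m →* Cpn p n, ∀ i, φ (h i) = gam p n ^ u i := by
  classical
  have hm0 : m ≠ 0 := hsq.ne_zero
  have hml : ∀ l : m.primeFactors, m = (m / l.1) * l.1 := fun l =>
    (Nat.div_mul_cancel (Nat.dvd_of_mem_primeFactors l.2)).symm
  have hlp : ∀ l : m.primeFactors, l.1.Prime := fun l => Nat.prime_of_mem_primeFactors l.2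
  have hlm : ∀ l : m.primeFactors, l.1 ∣ m := fun l => Nat.dvd_of_mem_primeFactors l.2
  have hcop : ∀ (d l : ℕ), m = d * l → d.Coprime l := by
    intro d l h
    have := hsq
    rw [h, Nat.squarefree_mul_iff] at this
    exact this.1
  choose c hc1 hc2 hc3 using fun l : m.primeFactors => exists_gen (p := p) (hlp l)
  choose h hh using fun l : m.primeFactors =>
    (crt_bijective (hml l) (hcop _ _ (hml l))).2 (1, c l)
  have h1 : ∀ l : m.primeFactors,
      ZMod.unitsMap (m := m) (n := m / l.1) ⟨l.1, hml l⟩ (h l) = 1 := fun l =>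
    congrArg Prod.fst (hh l)
  have h2 : ∀ l : m.primeFactors, ZMod.unitsMap (hlm l) (h l) = c l := fun l =>
    congrArg Prod.snd (hh l)
  have h3 : ∀ i j : m.primeFactors, i ≠ j → ZMod.unitsMap (hlm i) (h j) = 1 := by
    intro i j hij
    have hji : i.1 ∣ m / j.1 := by
      have h1 : i.1 ∣ (m / j.1) * j.1 := by rw [← hml j]; exact hlm i
      rcases (hlp i).dvd_mul.mp h1 with h2 | h2
      · exact h2
      · exact absurd (Subtype.ext ((Nat.prime_dvd_prime_iff_eq (hlp i) (hlp j)).mp h2)) hij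
    have h4 := DFunLike.congr_fun (ZMod.unitsMap_comp (m := m / j.1) (n := i.1) (d := m) hji
      ⟨j.1, hml j⟩) (h j)
    rw [MonoidHom.comp_apply, h1, map_one] at h4
    exact h4.symm
  have hd : ∀ (i : m.primeFactors) (d : ℕ), m = d * i → d = m / i.1 := by
    intro i d hd
    exact (Nat.div_eq_of_eq_mul_left (hlp i).pos hd).symm
  refine ⟨h, ?_, ?_, ?_, ?_, ?_⟩
  · intro i
    apply (crt_bijective (hml i) (hcop _ _ (hml i))).1
    rw [map_pow, hh, map_one]
    exact Prod.ext (one_pow _) (hc1 i)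
  · rw [eq_top_iff]
    intro g _
    choose k hk using fun i : m.primeFactors => hc2 i (ZMod.unitsMap (hlm i) g)
    have h5 : g * (∏ i, h i ^ k i)⁻¹ = 1 := by
      refine eq_one_of_unitsMap hsq _ fun l hl hlP => ?_
      let i : m.primeFactors := ⟨l, Nat.mem_primeFactors.mpr ⟨hlP, hl, hm0⟩⟩
      rw [map_mul, map_inv, map_prod, Finset.prod_eq_single i]
      · rw [map_pow]
        have h6 : ZMod.unitsMap hl (h i) = c i := h2 i
        rw [h6, hk i, mul_inv_cancel]
      · intro j _ hij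
        rw [map_pow]
        have h6 : ZMod.unitsMap hl (h j) = 1 := h3 i j hij.symm
        rw [h6, one_pow]
      · intro h6
        exact absurd (Finset.mem_univ _) h6
    rw [mul_inv_eq_one.mp h5]
    exact prod_mem fun i _ => pow_mem (Subgroup.subset_closure (Set.mem_range_self i)) _
  · intro i d hml'
    have := hd i d hml'
    subst this
    exact h1 i
  · intro i d hml' z hz
    have := hd i d hml'
    subst this
    obtain ⟨k, hk⟩ := hc2 i (ZMod.unitsMap (hlm i) z)
    refine ⟨k, ?_⟩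
    apply (crt_bijective (hml i) (hcop _ _ (hml i))).1
    rw [map_pow, hh]
    exact Prod.ext ((one_pow _).trans hz.symm) hk
  · intro n hn u
    choose ψ hψ using fun i : m.primeFactors => hc3 i n (hn i)
    refine ⟨∏ i, ((ψ i).comp (ZMod.unitsMap (hlm i))) ^ u i, fun j => ?_⟩
    rw [MonoidHom.finsetProd_apply, Finset.prod_eq_single j]
    · rw [MonoidHom.pow_apply, MonoidHom.comp_apply, h2, hψ]
    · intro i _ hij
      rw [MonoidHom.pow_apply, MonoidHom.comp_apply, h3 i j hij, map_one, one_pow]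
    · intro h6
      exact absurd (Finset.mem_univ _) h6

/-- elements of `G_m` with given components -/
theorem exists_of_comp {m : ℕ} (hsq : Squarefree m) (b : (l : ℕ) → Gm l) :
    ∃ a : Gm m, ∀ (l : ℕ) (h : l ∣ m), l.Prime → ZMod.unitsMap h a = b l := by
  induction m using Nat.strong_induction_on with
  | _ m ih =>
    rcases eq_or_ne m 1 with rfl | hm1
    · refine ⟨1, fun l h hl => ?_⟩
      exact absurd (Nat.dvd_one.mp h) hl.one_lt.ne'
    · obtain ⟨q, hq, d, hd⟩ := Nat.exists_prime_and_dvd hm1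
      have hmd : m = d * q := by rw [hd, mul_comm]
      have hm0 : m ≠ 0 := hsq.ne_zero
      have hd0 : 0 < d := Nat.pos_of_dvd_of_pos ⟨q, hmd⟩ (Nat.pos_of_ne_zero hm0)
      have hlt : d < m := by
        rw [hmd]
        exact lt_mul_of_one_lt_right hd0 hq.one_lt
      have hcop : d.Coprime q := by
        have := hsq
        rw [hmd, Nat.squarefree_mul_iff] at this
        exact this.1
      obtain ⟨a, ha⟩ := ih d hlt (hsq.squarefree_of_dvd ⟨q, hmd⟩)
      obtain ⟨c, hc⟩ := (crt_bijective hmd hcop).2 (a, b q)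
      have h1 : ZMod.unitsMap (m := m) (n := d) ⟨q, hmd⟩ c = a := congrArg Prod.fst hc
      have h2 : ZMod.unitsMap (m := m) (n := q) ⟨d, hd⟩ c = b q := congrArg Prod.snd hc
      refine ⟨c, fun l h hl => ?_⟩
      rcases eq_or_ne l q with rfl | hlq
      · exact h2
      · have hld : l ∣ d := by
          have h3 : l ∣ d * q := by rw [← hmd]; exact h
          rcases hl.dvd_mul.mp h3 with h4 | h4
          · exact h4
          · exact absurd ((Nat.prime_dvd_prime_iff_eq hl hq).mp h4) hlq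
        have h4 := DFunLike.congr_fun (ZMod.unitsMap_comp (m := d) (n := l) (d := m) hld
          ⟨q, hmd⟩) c
        rw [MonoidHom.comp_apply, h1, ha l hld hl] at h4
        exact h4.symm

/-! ### the difference operators -/

theorem DD_dvd {R : Type*} [CommRing R] {G : Type*} [CommGroup G] {ι : Type*} {e : ι → (G →* G)}
    {l : List ι} (hl : l.Nodup)
    (h : ∀ i j, i ≠ j → ∀ g, e j (g * (e i g)⁻¹) = g * (e i g)⁻¹) {c : ι → G}
    (hc : ∀ i g, ∃ k : ℕ, c i ^ k = g * (e i g)⁻¹) (x : MonoidAlgebra R G) :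
    (l.map fun i => of R G (c i) - 1).prod ∣ DD e l x := by
  induction x using MonoidAlgebra.induction_linear with
  | zero =>
    have : DD e l (0 : MonoidAlgebra R G) = 0 := by
      have := DD_smul e l (0 : R) (0 : MonoidAlgebra R G)
      simpa using this
    rw [this]
    exact dvd_zero _
  | add a b ha hb => rw [DD_add]; exact dvd_add ha hb
  | single g r =>
    have : (single g r : MonoidAlgebra R G) = algebraMap R _ r * of R G g := by
      simp [MonoidAlgebra.single_mul_single]
    rw [this, DD_smul, DD_of hl h]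
    refine Dvd.dvd.mul_left (Dvd.dvd.mul_left ?_ _) _
    clear hl
    induction l with
    | nil => simp
    | cons i l ih =>
      simp only [List.map_cons, List.prod_cons]
      refine mul_dvd_mul ?_ ih
      obtain ⟨k, hk⟩ := hc i g
      rw [← hk, map_pow]
      have := sub_dvd_pow_sub_pow (of R G (c i)) 1 k
      rwa [one_pow] at this

end MTate
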