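import Mathlib
import Pool.Agent.Lib.MP_5deabe_nt.Defs

/-!
# The relation between the `L`-functions for `S` and for `S ∪ {ℓ}`
-/

namespace MTate

open Filter Topology

theorem entire_eq {f g : ℂ → ℂ} (hf : Differentiable ℂ f) (hg : Differentiable ℂ g)
    (h : ∀ᶠ s : ℝ in atTop, f s = g s) : f = g := by
  obtain ⟨S, hS⟩ := eventually_atTop.mp h
  refine AnalyticOnNhd.eq_of_frequently_eq (z₀ := ((S + 1 : ℝ) : ℂ))
    (fun z _ => hf.analyticAt z) (fun z _ => hg.analyticAt z) ?_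
  have h1 : ∀ᶠ s : ℝ in 𝓝[≠] (S + 1), f s = g s := by
    filter_upwards [mem_nhdsWithin_of_mem_nhds (Ioi_mem_nhds (by linarith : S < S + 1))] with s hs
    exact hS s (le_of_lt hs)
  have h2 : Tendsto (fun s : ℝ => (s : ℂ)) (𝓝[≠] (S + 1)) (𝓝[≠] ((S + 1 : ℝ) : ℂ)) := by
    refine tendsto_nhdsWithin_of_tendsto_nhds_of_eventually_within _ ?_ ?_
    · exact (Complex.continuous_ofReal.tendsto _).mono_left nhdsWithin_le_nhds
    · filter_upwards [self_mem_nhdsWithin] with s hs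
      intro h3
      exact hs (Complex.ofReal_injective h3)
  exact h2.frequently h1.frequently

theorem rpow_tendsto_zero {l : ℕ} (hl : 1 < l) (c a : ℝ) (ha : 0 < a) :
    Tendsto (fun s : ℝ => (l : ℝ) ^ (c - a * s)) atTop (𝓝 0) := by
  have h2 : Tendsto (fun s : ℝ => c - a * s) atTop atBot := by
    have : Tendsto (fun s : ℝ => a * s) atTop atTop := tendsto_id.const_mul_atTop ha
    exact tendsto_atBot_add_const_left _ c (tendsto_neg_atTop_atBot.comp this)
  exact (tendsto_rpow_atBot_of_base_gt_one (l : ℝ) (by exact_mod_cast hl)).comp h2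

/-- the Euler polynomial does not vanish in some right half plane -/
theorem eulerPoly_ne_zero (W : WeierstrassCurve ℤ) {l : ℕ} (hl : 1 < l) (z : ℂ) :
    ∃ C : ℝ, ∀ s : ℂ, C < s.re → eulerPoly W l z s ≠ 0 := by
  have h1 := rpow_tendsto_zero hl 0 1 one_pos
  have h2 := rpow_tendsto_zero hl 1 2 two_pos
  have h3 : Tendsto (fun s : ℝ => ‖((l : ℂ) + 1 - nsCard W l) * z‖ * (l : ℝ) ^ (0 - 1 * s) +
      ‖z ^ 2‖ * (l : ℝ) ^ (1 - 2 * s)) atTop (𝓝 (‖((l : ℂ) + 1 - nsCard W l) * z‖ * 0 +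
      ‖z ^ 2‖ * 0)) := (h1.const_mul _).add (h2.const_mul _)
  rw [mul_zero, mul_zero, add_zero] at h3
  obtain ⟨C, hC⟩ := eventually_atTop.mp (h3.eventually_lt_const one_pos)
  refine ⟨C, fun s hs h0 => ?_⟩
  have h4 := hC s.re hs.le
  have h5 : (1 : ℂ) = ((l : ℂ) + 1 - nsCard W l) * z * (l : ℂ) ^ (-s) -
      z ^ 2 * (l : ℂ) ^ (1 - 2 * s) := by
    unfold eulerPoly at h0
    linear_combination h0
  have h6 : ‖(l : ℂ) ^ (-s)‖ = (l : ℝ) ^ (0 - 1 * s.re) := by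
    rw [Complex.norm_natCast_cpow_of_pos (by omega)]
    congr 1
    simp
  have h7 : ‖(l : ℂ) ^ (1 - 2 * s)‖ = (l : ℝ) ^ (1 - 2 * s.re) := by
    rw [Complex.norm_natCast_cpow_of_pos (by omega)]
    congr 1
    simp
  have h8 : (1 : ℝ) ≤ ‖((l : ℂ) + 1 - nsCard W l) * z‖ * (l : ℝ) ^ (0 - 1 * s.re) +
      ‖z ^ 2‖ * (l : ℝ) ^ (1 - 2 * s.re) := by
    calc (1 : ℝ) = ‖(1 : ℂ)‖ := by simp
      _ = ‖((l : ℂ) + 1 - nsCard W l) * z * (l : ℂ) ^ (-s) -
          z ^ 2 * (l : ℂ) ^ (1 - 2 * s)‖ := by rw [← h5]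
      _ ≤ ‖((l : ℂ) + 1 - nsCard W l) * z * (l : ℂ) ^ (-s)‖ +
          ‖z ^ 2 * (l : ℂ) ^ (1 - 2 * s)‖ := norm_sub_le _ _
      _ = _ := by rw [norm_mul _ ((l : ℂ) ^ (-s)), norm_mul _ ((l : ℂ) ^ (1 - 2 * s)), h6, h7]
  linarith

theorem eulerPoly_differentiable (W : WeierstrassCurve ℤ) {l : ℕ} (hl : 1 < l) (z : ℂ) :
    Differentiable ℂ (eulerPoly W l z) := by
  have hl0 : (l : ℂ) ≠ 0 := Nat.cast_ne_zero.mpr (by omega)
  unfold eulerPoly
  refine Differentiable.add (Differentiable.sub (differentiable_const _)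
    (Differentiable.const_mul ?_ _)) (Differentiable.const_mul ?_ _)
  · intro s
    exact (differentiableAt_id.neg).const_cpow (Or.inl hl0)
  · intro s
    exact ((differentiableAt_const 1).sub (differentiableAt_id.const_mul 2)).const_cpow
      (Or.inl hl0)

namespace MTData

variable {p : ℕ} [Fact p.Prime] {D : MTData}

theorem Adm.of_dvd {m d : ℕ} (hA : D.Adm p m) (h : d ∣ m) : D.Adm p d := by
  refine ⟨hA.1.squarefree_of_dvd h, hA.2.1.coprime_dvd_left h, hA.2.2.1.coprime_dvd_right h, ?_⟩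
  intro l hl
  exact hA.2.2.2 l (Nat.primeFactors_mono h hA.1.ne_zero hl)

theorem Adm.coprime_of_eq {m d l : ℕ} (hA : D.Adm p m) (hm : m = d * l) : d.Coprime l := by
  have := hA.1
  rw [hm, Nat.squarefree_mul_iff] at this
  exact this.1

theorem IsL.unique {m : ℕ} {χ : Gm m →* ℂˣ} {F F' : ℂ → ℂ} (h : D.IsL m χ F)
    (h' : D.IsL m χ F') : F = F' := by
  obtain ⟨h1, C, h2⟩ := h
  obtain ⟨h3, C', h4⟩ := h'
  refine entire_eq h1 h3 ?_
  filter_upwards [eventually_gt_atTop C, eventually_gt_atTop C'] with s hs hs'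
  exact (h2 s (by simpa using hs)).unique (h4 s (by simpa using hs'))

theorem IsL.up {m d l : ℕ} (hm : m = d * l) (hA : D.Adm p m) (hl : l.Prime)
    {χ : Gm d →* ℂˣ} {F : ℂ → ℂ} (hF : D.IsL d χ F) :
    D.IsL m (χ.comp (ZMod.unitsMap (m := m) (n := d) ⟨l, hm⟩))
      (fun s => F s * eulerPoly D.W l (dval d χ l)⁻¹ s) := by
  classical
  set χ' : Gm m →* ℂˣ := χ.comp (ZMod.unitsMap (m := m) (n := d) ⟨l, hm⟩) with hχ'
  have hcop := hA.coprime_of_eq hm
  have hdval : ∀ n : ℕ, n.Coprime m → dval m χ' n = dval d χ n := by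
    intro n hn
    have hn' : n.Coprime d := hn.coprime_dvd_right ⟨l, hm⟩
    unfold dval
    rw [dif_pos hn, dif_pos hn', hχ', MonoidHom.comp_apply]
    congr 2
    apply Units.ext
    simp [ZMod.unitsMap_def]
  obtain ⟨h0, C, hC⟩ := hF
  obtain ⟨C', hC'⟩ := eulerPoly_ne_zero D.W hl.one_lt (dval d χ l)⁻¹
  refine ⟨h0.mul (eulerPoly_differentiable D.W hl.one_lt _), max C C', fun s hs => ?_⟩
  have hE := hC' s (lt_of_le_of_lt (le_max_right _ _) hs)
  have h1 := hC s (lt_of_le_of_lt (le_max_left _ _) hs)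
  have h3 : HasProd (fun q : Nat.Primes => if q = ⟨l, hl⟩ then
      eulerPoly D.W l (dval d χ l)⁻¹ s else (1 : ℂ))
      (eulerPoly D.W l (dval d χ l)⁻¹ s) := hasProd_ite_eq _ _
  have h4 := h1.mul h3
  convert! h4 using 1
  funext q
  by_cases hq : q = ⟨l, hl⟩
  · have hql : (q : ℕ) = l := by rw [hq]
    rw [if_pos hq, if_pos, if_neg, hql, inv_mul_cancel₀ hE]
    · rw [hql, hl.dvd_mul]
      rintro (h6 | h6)
      · exact (Nat.Prime.coprime_iff_not_dvd hl).mp hcop.symm h6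
      · have h7 : l ∣ m := ⟨d, by rw [hm, mul_comm]⟩
        exact (Nat.Prime.coprime_iff_not_dvd hl).mp (hA.2.1.coprime_dvd_left h7) h6
    · rw [hql, hm]
      exact ⟨d * D.N, by ring⟩
  · rw [if_neg hq, mul_one]
    have hql : (q : ℕ) ≠ l := fun h => hq (Subtype.ext h)
    by_cases h6 : (q : ℕ) ∣ d * D.N
    · rw [if_pos h6, if_pos]
      rw [hm]
      exact h6.trans ⟨l, by ring⟩
    · have h7 : ¬ (q : ℕ) ∣ m * D.N := by
        intro h8
        rw [hm] at h8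
        have h9 : d * l * D.N = d * D.N * l := by ring
        rw [h9, q.2.dvd_mul] at h8
        rcases h8 with h8 | h8
        · exact h6 h8
        · exact hql ((Nat.prime_dvd_prime_iff_eq q.2 hl).mp h8)
      rw [if_neg h6, if_neg h7, hdval]
      rw [Nat.Prime.coprime_iff_not_dvd q.2]
      intro h8
      exact h7 (h8.trans ⟨D.N, rfl⟩)

end MTData

end MTate
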