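import Mathlib
import Pool.Agent.Lib.MP_5deabe_nt.Lrel
import Pool.Agent.Lib.MP_5deabe_nt.Cyc4

/-!
# Functoriality of the modular elements and of the regulators
-/

namespace MTate

open MonoidAlgebra

variable {p : ℕ} [hp : Fact p.Prime]

/-! ### rational and `p`-adic group rings -/

section mat
variable {G G' : Type*} [CommGroup G] [CommGroup G']

/-- `ℤ_p[G] → ℚ_p[G]` -/
noncomputable def toQp : MonoidAlgebra ℤ_[p] G →+* MonoidAlgebra ℚ_[p] G :=
  mapRingHom G (PadicInt.Coe.ringHom (p := p))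

/-- `ℚ[G] → ℚ_p[G]` -/
noncomputable def ofQ : MonoidAlgebra ℚ G →+* MonoidAlgebra ℚ_[p] G :=
  mapRingHom G (algebraMap ℚ ℚ_[p])

theorem match_iff (θ : MonoidAlgebra ℤ_[p] G) (θ₀ : MonoidAlgebra ℚ G) :
    (∀ g, ((θ.coeff g : ℤ_[p]) : ℚ_[p]) = ((θ₀.coeff g : ℚ) : ℚ_[p])) ↔
      toQp θ = ofQ (p := p) θ₀ := by
  constructor
  · intro h
    apply MonoidAlgebra.ext
    ext g
    simp only [toQp, ofQ, coeff_mapRingHom, eq_ratCast]
    exact h g
  · intro h g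
    have h1 := congrArg (fun y => y.coeff g) h
    simp only [toQp, ofQ, coeff_mapRingHom, eq_ratCast] at h1
    exact h1

theorem toQp_injective : Function.Injective (toQp : MonoidAlgebra ℤ_[p] G →+* _) := by
  intro a b h
  apply MonoidAlgebra.ext
  ext g
  have h1 := congrArg (fun y => y.coeff g) h
  simp only [toQp, coeff_mapRingHom] at h1
  exact Subtype.coe_injective h1

theorem push_toQp (f : G →* G') (x : MonoidAlgebra ℤ_[p] G) :
    toQp (push f x) = push f (toQp x) := by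
  induction x using MonoidAlgebra.induction_linear with
  | zero => simp
  | add a b ha hb => simp only [map_add, ha, hb]
  | single g r => simp [push_single, toQp]

theorem push_ofQ (f : G →* G') (x : MonoidAlgebra ℚ G) :
    ofQ (p := p) (push f x) = push f (ofQ x) := by
  induction x using MonoidAlgebra.induction_linear with
  | zero => simp
  | add a b ha hb => simp only [map_add, ha, hb]
  | single g r => simp [push_single, ofQ]

theorem coe_inverse {l : ℕ} (h : p.Coprime l) :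
    ((Ring.inverse (l : ℤ_[p]) : ℤ_[p]) : ℚ_[p]) = ((l : ℚ)⁻¹ : ℚ) := by
  have h1 := Ring.mul_inverse_cancel _ (isUnit_cast (p := p) h)
  have h2 : ((l : ℤ_[p]) : ℚ_[p]) * ((Ring.inverse (l : ℤ_[p]) : ℤ_[p]) : ℚ_[p]) = 1 := by
    rw [← PadicInt.coe_mul, h1, PadicInt.coe_one]
  have h3 : ((l : ℤ_[p]) : ℚ_[p]) = (l : ℚ_[p]) := PadicInt.coe_natCast l
  rw [h3] at h2
  push_cast
  exact eq_inv_of_mul_eq_one_right h2

/-- evaluation of a character -/
noncomputable def ev (χ : G →* ℂˣ) : MonoidAlgebra ℚ G →ₐ[ℚ] ℂ :=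
  MonoidAlgebra.lift ℚ ℂ G ((Units.coeHom ℂ).comp χ)

theorem ev_eq (χ : G →* ℂˣ) (θ₀ : MonoidAlgebra ℚ G) :
    (θ₀.coeff.sum fun g a => (a : ℂ) * (χ g : ℂ)) = ev χ θ₀ := by
  unfold ev
  rw [MonoidAlgebra.lift_apply']
  refine Finsupp.sum_congr fun g _ => ?_
  rw [eq_ratCast]
  rfl

theorem ev_push (f : G →* G') (χ : G' →* ℂˣ) (x : MonoidAlgebra ℚ G) :
    ev χ (push f x) = ev (χ.comp f) x := by
  induction x using MonoidAlgebra.induction_linear with
  | zero => simp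
  | add a b ha hb => simp only [map_add, ha, hb]
  | single g r => simp [push_single, ev]

theorem ev_unique [Finite G] {θ₀ θ₁ : MonoidAlgebra ℚ G} (h : ∀ χ : G →* ℂˣ, ev χ θ₀ = ev χ θ₁) :
    θ₀ = θ₁ := by
  have := Fintype.ofFinite G
  have h1 := fourier_unique (fun g => ((θ₀ - θ₁).coeff g : ℂ)) (fun χ => by
    have h2 : ev χ (θ₀ - θ₁) = 0 := by rw [map_sub, h, sub_self]
    rw [← ev_eq, Finsupp.sum_fintype _ _ (by simp)] at h2
    rw [finsum_eq_sum_of_fintype, ← h2])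
  have h2 : θ₀ - θ₁ = 0 := by
    apply MonoidAlgebra.ext
    ext g
    have h3 := congrFun h1 g
    simp only [Pi.zero_apply, Rat.cast_eq_zero] at h3
    rw [h3]
    simp
  exact sub_eq_zero.mp h2

end mat

/-! ### the Euler factor as an element of the group ring -/

section euler
variable {G : Type*} [CommGroup G]

/-- `-σ + a - b σ⁻¹` -/
noncomputable def PG {R : Type*} [CommRing R] (a b : R) (σ : G) : MonoidAlgebra R G :=
  -of R G σ + algebraMap R _ a - algebraMap R _ b * of R G σ⁻¹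

/-- `-σ + a_ℓ/ℓ - σ⁻¹/ℓ` -/
noncomputable def PZ (W : WeierstrassCurve ℤ) (l : ℕ) (σ : G) : MonoidAlgebra ℤ_[p] G :=
  PG (((l : ℤ_[p]) + 1 - nsCard W l) * Ring.inverse (l : ℤ_[p])) (Ring.inverse (l : ℤ_[p])) σ

/-- the rational version -/
noncomputable def PQ (W : WeierstrassCurve ℤ) (l : ℕ) (σ : G) : MonoidAlgebra ℚ G :=
  PG (((l : ℚ) + 1 - nsCard W l) * (l : ℚ)⁻¹) ((l : ℚ)⁻¹) σ

theorem toQp_PG (a b : ℤ_[p]) (σ : G) : toQp (PG a b σ) = PG (a : ℚ_[p]) (b : ℚ_[p]) σ := by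
  simp [PG, toQp]

theorem ofQ_PG (a b : ℚ) (σ : G) : ofQ (p := p) (PG a b σ) = PG (a : ℚ_[p]) (b : ℚ_[p]) σ := by
  simp [PG, ofQ]

theorem eps_PG {R : Type*} [CommRing R] (a b : R) (σ : G) : eps R G (PG a b σ) = -1 + a - b := by
  unfold PG
  rw [map_sub, map_add, map_neg, map_mul, AlgHom.commutes, AlgHom.commutes, eps_of, eps_of]
  simp

theorem ev_PG (a b : ℚ) (σ : G) (χ : G →* ℂˣ) :
    ev χ (PG a b σ) = -(χ σ : ℂ) + a - b * (χ σ : ℂ)⁻¹ := by
  have h3 : ∀ g : G, ev χ (of ℚ G g) = (χ g : ℂ) := by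
    intro g
    simp [ev]
  unfold PG
  rw [map_sub, map_add, map_neg, map_mul, AlgHom.commutes, AlgHom.commutes, h3, h3,
    map_inv, Units.val_inv_eq_inv_val, eq_ratCast, eq_ratCast]

theorem PZ_match (W : WeierstrassCurve ℤ) {l : ℕ} (hl : p.Coprime l) (σ : G) :
    toQp (PZ (p := p) W l σ) = ofQ (PQ W l σ) := by
  unfold PZ PQ
  rw [toQp_PG, ofQ_PG, PadicInt.coe_mul, coe_inverse hl]
  congr 1

theorem PZ_sub_mem (W : WeierstrassCurve ℤ) {l : ℕ} (hl : p.Coprime l) (σ : G) :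
    PZ (p := p) W l σ - algebraMap ℤ_[p] _ (-((nsCard W l : ℤ_[p]) * Ring.inverse (l : ℤ_[p]))) ∈
      augI ℤ_[p] G := by
  have h1 := Ring.mul_inverse_cancel _ (isUnit_cast (p := p) hl)
  rw [mem_augI, map_sub, AlgHom.commutes]
  unfold PZ
  rw [eps_PG]
  simp only [Algebra.algebraMap_self, RingHom.id_apply]
  linear_combination h1

theorem ev_PQ (W : WeierstrassCurve ℤ) (l : ℕ) (hl : l ≠ 0) (σ : G) (χ : G →* ℂˣ) :
    ev χ (PQ W l σ) = -(χ σ : ℂ) * eulerPoly W l (χ σ : ℂ)⁻¹ 1 := by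
  have hl0 : (l : ℂ) ≠ 0 := Nat.cast_ne_zero.mpr hl
  have hχ : (χ σ : ℂ) ≠ 0 := (χ σ).ne_zero
  have h1 : (l : ℂ) ^ (-1 : ℂ) = (l : ℂ)⁻¹ := by
    rw [Complex.cpow_neg_one]
  have h2 : (l : ℂ) ^ (1 - 2 * (1 : ℂ)) = (l : ℂ)⁻¹ := by
    have : (1 : ℂ) - 2 * 1 = -1 := by norm_num
    rw [this, h1]
  unfold PQ eulerPoly
  rw [ev_PG, h1, h2]
  push_cast
  field_simp
  ring

end euler

end MTate
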