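import Mathlib
import Pool.Agent.Lib.MP_5deabe_nt.Up
import Pool.Agent.Lib.MP_5deabe_nt.Grp

/-!
# Functoriality of the statement Q1
-/

namespace MTate

open MonoidAlgebra

variable {p : ℕ} [hp : Fact p.Prime] {D : MTData}

namespace MTData

theorem IsTheta.push' {m : ℕ} {G G' : Type*} [CommGroup G] [CommGroup G'] {f : Gp m →* G}
    {θ : MonoidAlgebra ℤ_[p] G} (h : D.IsTheta p m f θ) (g : G →* G') :
    D.IsTheta p m (g.comp f) (push g θ) := by
  obtain ⟨θ₀, h1, h2⟩ := h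
  refine ⟨push g θ₀, fun χ => ?_, ?_⟩
  · obtain ⟨L, hL, h3⟩ := h1 (χ.comp g)
    refine ⟨L, hL, ?_⟩
    rw [ev_eq, ev_push, ← ev_eq, h3]
    rfl
  · rw [match_iff] at h2 ⊢
    rw [push_toQp, push_ofQ, h2]

theorem IsTheta.unique {m : ℕ} {G : Type*} [CommGroup G] [Finite G] {f : Gp m →* G}
    {θ θ' : MonoidAlgebra ℤ_[p] G} (h : D.IsTheta p m f θ) (h' : D.IsTheta p m f θ') :
    θ = θ' := by
  obtain ⟨θ₀, h1, h2⟩ := h
  obtain ⟨θ₁, h3, h4⟩ := h'
  rw [match_iff] at h2 h4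
  have h5 : θ₀ = θ₁ := ev_unique fun χ => by
    obtain ⟨L, hL, e1⟩ := h1 χ
    obtain ⟨L', hL', e2⟩ := h3 χ
    rw [← ev_eq, ← ev_eq, e1, e2, hL.unique hL']
  apply toQp_injective
  rw [h2, h4, h5]

/-- the element `σ_ℓ` -/
noncomputable def frob {d : ℕ} {G : Type*} [CommGroup G] (f : Gp d →* G) {l : ℕ}
    (hc : l.Coprime d) : G := f (toGp d (ZMod.unitOfCoprime l hc))

theorem IsTheta.up {m d l : ℕ} (hm : m = d * l) (hA : D.Adm p m) (hl : l.Prime)
    (hc : l.Coprime d) {G : Type*} [CommGroup G] {f : Gp d →* G} {θ : MonoidAlgebra ℤ_[p] G}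
    (h : D.IsTheta p d f θ) :
    D.IsTheta p m (f.comp (res (m := m) (d := d) ⟨l, hm⟩)) (PZ D.W l (frob f hc) * θ) := by
  have hlm : l ∣ m := ⟨d, by rw [hm, mul_comm]⟩
  have hpl : p.Coprime l := hA.2.2.1.coprime_dvd_right hlm
  have hd : d ≠ 0 := by
    rintro rfl
    rw [zero_mul] at hm
    exact hA.1.ne_zero hm
  obtain ⟨θ₀, h1, h2⟩ := h
  refine ⟨PQ D.W l (frob f hc) * θ₀, fun χ => ?_, ?_⟩
  · have h3 : infl (f.comp (res (m := m) (d := d) ⟨l, hm⟩)) χ =
        (infl f χ).comp (ZMod.unitsMap (m := m) (n := d) ⟨l, hm⟩) := rfl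
    have h5 : (χ (frob f hc) : ℂ) = (infl f χ (ZMod.unitOfCoprime l hc) : ℂ) := rfl
    have h6 : dval d (infl f χ) l = (infl f χ (ZMod.unitOfCoprime l hc) : ℂ) := by
      unfold dval
      rw [dif_pos hc]
    obtain ⟨L, hL, h7⟩ := h1 χ
    refine ⟨_, hL.up (p := p) hm hA hl, ?_⟩
    rw [ev_eq, map_mul, ev_PQ _ _ hl.ne_zero, h3,
      tau_mul hm hd hl hc.symm, ← ev_eq, h7, h5, h6]
    ring
  · rw [match_iff] at h2 ⊢
    rw [map_mul, map_mul, PZ_match _ hpl, h2]

/-! ### regulators -/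

theorem height_mem (n m : ℕ) (i j : Fin D.r) : D.height p n m i j ∈ augI ℤ_[p] (Gp m) :=
  Ideal.mul_mem_left _ _ (of_sub_one_mem _)

theorem InES.of_dvd {m d : ℕ} (h : d ∣ m) {P : EQ D.W} (hP : D.InES m P) : D.InES d P :=
  ⟨fun l hl hld => hP.1 l hl (hld.trans h), hP.2⟩

/-- the pairings for `m` and `d ∣ m` are compatible -/
theorem pair_res {m d : ℕ} (hsq : Squarefree m) (h : d ∣ m) (P Q : EQ D.W) :
    res h (D.pair m P Q) = D.pair d P Q := by
  have h1 := Classical.epsilon_spec (exists_of_comp hsq fun l => D.comp l P Q)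
  have h2 := Classical.epsilon_spec (exists_of_comp (hsq.squarefree_of_dvd h)
    fun l => D.comp l P Q)
  set a : Gm m := Classical.epsilon fun a : Gm m =>
    ∀ (l : ℕ) (h : l ∣ m), l.Prime → ZMod.unitsMap h a = D.comp l P Q with ha
  set b : Gm d := Classical.epsilon fun a : Gm d =>
    ∀ (l : ℕ) (h : l ∣ d), l.Prime → ZMod.unitsMap h a = D.comp l P Q with hb
  have h3 : ZMod.unitsMap h a = b := by
    rw [← mul_inv_eq_one]
    refine eq_one_of_unitsMap (hsq.squarefree_of_dvd h) _ fun l hl hlp => ?_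
    rw [map_mul, map_inv, h2 l hl hlp, mul_inv_eq_one, ← h1 l (hl.trans h) hlp]
    exact DFunLike.congr_fun (ZMod.unitsMap_comp hl h) a
  show toGp d (ZMod.unitsMap h a) = toGp d b
  rw [h3]

theorem height_res {n m d : ℕ} (hsq : Squarefree m) (h : d ∣ m) (i j : Fin D.r) :
    push (res h) (D.height p n m i j) = D.height p n d i j := by
  unfold height
  rw [map_mul, AlgHom.commutes, map_sub, push_of, map_one, pair_res hsq h]

theorem det_cong {A : Type*} [CommRing A] {I : Ideal A} {r : ℕ} (M M' : Matrix (Fin r) (Fin r) A)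
    (h : ∀ i j, Cong I 1 (M i j) (M' i j)) : Cong I r M.det M'.det := by
  have key : ∀ σ : Equiv.Perm (Fin r), Cong I r (∏ i, M (σ i) i) (∏ i, M' (σ i) i) := by
    intro σ
    have := Cong.prod (I := I) Finset.univ (fun _ : Fin r => 1) (fun i => M (σ i) i)
      (fun i => M' (σ i) i) (fun i _ => h _ _)
    simpa using this
  rw [Matrix.det_apply, Matrix.det_apply]
  refine ⟨Ideal.sum_mem _ fun σ _ => ?_, ?_⟩
  · rw [Units.smul_def]
    exact zsmul_mem (key σ).1 _
  · rw [← Finset.sum_sub_distrib]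
    refine Ideal.sum_mem _ fun σ _ => ?_
    rw [← smul_sub, Units.smul_def]
    exact zsmul_mem (key σ).2 _

theorem reg_mem (n m : ℕ) {G : Type*} [CommGroup G] (f : Gp m →* G) :
    D.reg p n m f ∈ augI ℤ_[p] G ^ D.r := by
  refine (det_cong (I := augI ℤ_[p] G) _ (Matrix.of fun i j => push f (D.height p n m i j)) ?_).1
  intro i j
  have h1 : push f (D.height p n m i j) ∈ augI ℤ_[p] G ^ 1 :=
    push_mem f (by rw [pow_one]; exact height_mem n m i j)
  exact ⟨h1, by simp⟩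

theorem push_reg (n m : ℕ) {G G' : Type*} [CommGroup G] [CommGroup G'] (f : Gp m →* G)
    (g : G →* G') : push g (D.reg p n m f) = D.reg p n m (g.comp f) := by
  unfold reg
  rw [AlgHom.map_det]
  congr 1
  ext i j
  simp only [AlgHom.mapMatrix_apply, Matrix.map_apply, Matrix.of_apply]
  rw [push_push]

theorem reg_res {n m d : ℕ} (hsq : Squarefree m) (h : d ∣ m) {G : Type*} [CommGroup G]
    (f : Gp d →* G) : D.reg p n m (f.comp (res h)) = D.reg p n d f := by
  unfold reg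
  congr 1
  ext i j
  simp only [Matrix.of_apply]
  rw [← push_push, height_res hsq h]

end MTData

end MTate
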