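import Mathlib
import Pool.Agent.Lib.MP_5deabe_nt.Func
import Pool.Agent.Lib.MP_5deabe_nt.Grp

/-!
# Reduction of the Mazur-Tate conjecture to conductors with few prime factors
-/

namespace MTate

open MonoidAlgebra

variable {p : ℕ} [hp : Fact p.Prime] {D : MTData}

/-! ### Galois groups -/

theorem toGp_surjective (m : ℕ) : Function.Surjective (toGp m) :=
  QuotientGroup.mk'_surjective _

theorem toGp_ker {m : ℕ} {h : Gm m} (hh : toGp m h = 1) : h ^ 2 = 1 := by
  have h1 : h ∈ Subgroup.zpowers (-1 : Gm m) := (QuotientGroup.eq_one_iff h).mp hh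
  obtain ⟨k, rfl⟩ := Subgroup.mem_zpowers_iff.mp h1
  rw [← zpow_natCast, ← zpow_mul, mul_comm, zpow_mul]
  simp

theorem finite_Gm {m : ℕ} (hm : m ≠ 0) : Finite (Gm m) := by
  have : NeZero m := ⟨hm⟩
  infer_instance

theorem finite_Gp {m : ℕ} (hm : m ≠ 0) : Finite (Gp m) := by
  have := finite_Gm hm
  exact Finite.of_surjective _ (toGp_surjective m)

theorem res_toGp {m d : ℕ} (h : d ∣ m) (g : Gm m) : res h (toGp m g) = toGp d (ZMod.unitsMap h g) :=
  rfl

theorem res_surjective {m d : ℕ} (hm : m ≠ 0) (h : d ∣ m) : Function.Surjective (res h) := by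
  intro y
  have : NeZero m := ⟨hm⟩
  obtain ⟨b, rfl⟩ := toGp_surjective d y
  obtain ⟨a, rfl⟩ := ZMod.unitsMap_surjective h b
  exact ⟨toGp m a, rfl⟩

theorem res_res {m d e : ℕ} (h : d ∣ m) (h' : e ∣ d) (x : Gp m) :
    res h' (res h x) = res (h'.trans h) x := by
  obtain ⟨g, rfl⟩ := toGp_surjective m x
  rw [res_toGp, res_toGp, res_toGp]
  congr 1
  exact DFunLike.congr_fun (ZMod.unitsMap_comp h' h) g

theorem exists_prime_factor {m d : ℕ} (hd : d ∣ m) (hne : d ≠ m) :
    ∃ (d' l : ℕ) (_ : m = d' * l) (_ : d ∣ d'), l.Prime := by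
  obtain ⟨k, hk⟩ := hd
  have hk1 : k ≠ 1 := by
    rintro rfl
    rw [mul_one] at hk
    exact hne hk.symm
  obtain ⟨l, hl, hlk⟩ := Nat.exists_prime_and_dvd hk1
  obtain ⟨k', rfl⟩ := hlk
  exact ⟨d * k', l, by rw [hk]; ring, ⟨k', rfl⟩, hl⟩

/-- if `m` is not the conductor, a prime can be removed -/
theorem exists_factor {m : ℕ} (hm : m ≠ 0) {G : Type*} [CommGroup G] {f : Gp m →* G}
    (hs : Function.Surjective f) (hf : ¬ IsField m f) :
    ∃ (d l : ℕ) (hml : m = d * l), l.Prime ∧ ∃ f' : Gp d →* G,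
      f'.comp (res (m := m) (d := d) ⟨l, hml⟩) = f := by
  unfold IsField at hf
  push Not at hf
  obtain ⟨d, hd, hker, hne⟩ := hf hs
  obtain ⟨d', l, hml, hdd', hl⟩ := exists_prime_factor hd hne
  refine ⟨d', l, hml, hl, ?_⟩
  have hker' : (res (m := m) (d := d') ⟨l, hml⟩).ker ≤ f.ker := by
    intro x hx
    apply hker
    rw [MonoidHom.mem_ker] at hx ⊢
    rw [← res_res (m := m) (d := d') (e := d) ⟨l, hml⟩ hdd', hx, map_one]
  have hsurj := res_surjective (d := d') hm ⟨l, hml⟩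
  refine ⟨(res (m := m) (d := d') ⟨l, hml⟩).liftOfSurjective hsurj ⟨f, hker'⟩, ?_⟩
  ext x
  exact MonoidHom.liftOfRightInverse_comp_apply _ _ (Function.rightInverse_surjInv hsurj)
    ⟨f, hker'⟩ x

theorem TotRam.isField {m : ℕ} {G : Type*} [CommGroup G] [Nontrivial G] {f : Gp m →* G}
    (h : TotRam m f) (hs : Function.Surjective f) : IsField m f := by
  refine ⟨hs, fun d hd hker => ?_⟩
  by_contra hne
  obtain ⟨d', l, hml, hdd', hl⟩ := exists_prime_factor hd hne
  have h1 := h d' l hml hl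
  obtain ⟨y, hy⟩ := exists_ne (1 : G)
  have h2 : y ∈ (res (m := m) (d := d') ⟨l, hml⟩).ker.map f := by rw [h1]; trivial
  obtain ⟨x, hx, hxy⟩ := h2
  apply hy
  rw [← hxy]
  apply hker
  rw [MonoidHom.mem_ker]
  have hx' : res (m := m) (d := d') ⟨l, hml⟩ x = 1 := hx
  rw [← res_res (m := m) (d := d') (e := d) ⟨l, hml⟩ hdd', hx', map_one]

/-! ### cyclic groups of order `p ^ n` -/

theorem gam_pow_gen {n u : ℕ} (hu : p.Coprime u) (y : Cpn p n) :
    ∃ k : ℕ, (gam p n ^ u) ^ k = y := by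
  have : NeZero (p ^ n) := ⟨(Nat.pow_pos hp.out.pos).ne'⟩
  have hcop : u.Coprime (p ^ n) := (hu.symm).pow_right n
  refine ⟨((((ZMod.unitOfCoprime u hcop)⁻¹ : (ZMod (p ^ n))ˣ) : ZMod (p ^ n)) *
    Multiplicative.toAdd y).val, ?_⟩
  rw [← pow_mul]
  apply Multiplicative.toAdd.injective
  rw [toAdd_pow]
  have h1 : Multiplicative.toAdd (gam p n) = 1 := rfl
  have h2 : (u : ZMod (p ^ n)) * (((ZMod.unitOfCoprime u hcop)⁻¹ : (ZMod (p ^ n))ˣ) :
      ZMod (p ^ n)) = 1 := by
    have : ((ZMod.unitOfCoprime u hcop : (ZMod (p ^ n))ˣ) : ZMod (p ^ n)) = (u : ZMod (p ^ n)) :=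
      ZMod.coe_unitOfCoprime u hcop
    rw [← this, Units.mul_inv]
  rw [h1, nsmul_eq_mul, mul_one, Nat.cast_mul, ZMod.natCast_zmod_val, ← mul_assoc, h2, one_mul]

theorem Cpn_sq {n : ℕ} (hp2 : p ≠ 2) {y : Cpn p n} (hy : y ^ 2 = 1) : y = 1 := by
  have h1 : y ^ Nat.card (Cpn p n) = 1 := pow_card_eq_one'
  rw [Nat.card_congr Multiplicative.toAdd, Nat.card_zmod] at h1
  have h3 : Nat.Coprime 2 (p ^ n) :=
    ((Nat.coprime_primes Nat.prime_two hp.out).mpr hp2.symm).pow_right n
  have h5 : orderOf y ∣ Nat.gcd 2 (p ^ n) :=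
    Nat.dvd_gcd (orderOf_dvd_of_pow_eq_one hy) (orderOf_dvd_of_pow_eq_one h1)
  rw [h3] at h5
  exact orderOf_eq_one_iff.mp (Nat.dvd_one.mp h5)

/-- totally ramified homomorphisms to a cyclic group of order `p ^ n` -/
theorem exists_totRam (hp2 : p ≠ 2) {m n : ℕ} (hm0 : m ≠ 0) {c : m.primeFactors → Gm m}
    (hc : ∀ (i : m.primeFactors) (d : ℕ) (hml : m = d * i),
      ZMod.unitsMap (m := m) (n := d) ⟨i, hml⟩ (c i) = 1) {u : m.primeFactors → ℕ}
    (hu : ∀ i, p.Coprime (u i)) (h : ∃ φ : Gm m →* Cpn p n, ∀ i, φ (c i) = gam p n ^ u i) :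
    ∃ φ : Gp m →* Cpn p n, (∀ i, φ (toGp m (c i)) = gam p n ^ u i) ∧ TotRam m φ ∧
      (m ≠ 1 → Function.Surjective φ) := by
  obtain ⟨φ0, hφ0⟩ := h
  have hφ1 : φ0 (-1) = 1 := by
    apply Cpn_sq hp2
    rw [← map_pow]
    simp
  let φ : Gp m →* Cpn p n := QuotientGroup.lift (Subgroup.zpowers (-1 : Gm m)) φ0 (by
    intro a ha
    obtain ⟨j, rfl⟩ := Subgroup.mem_zpowers_iff.mp ha
    rw [MonoidHom.mem_ker, map_zpow, hφ1, one_zpow])
  have hφ : ∀ i, φ (toGp m (c i)) = gam p n ^ u i := fun i => hφ0 i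
  refine ⟨φ, hφ, ?_, ?_⟩
  · intro d l hml hl
    rw [eq_top_iff]
    intro y _
    let i : m.primeFactors := ⟨l, Nat.mem_primeFactors.mpr
      ⟨hl, ⟨d, by rw [hml, mul_comm]⟩, hm0⟩⟩
    obtain ⟨j, hj⟩ := gam_pow_gen (hu i) y
    refine ⟨toGp m (c i) ^ j, ?_, by rw [map_pow, hφ, hj]⟩
    show res _ (toGp m (c i) ^ j) = 1
    rw [map_pow, res_toGp]
    have h1 : ZMod.unitsMap (m := m) (n := d) ⟨l, hml⟩ (c i) = 1 := hc i d hml
    rw [h1, map_one, one_pow]
  · intro hm1 y
    obtain ⟨l, hl, hlm⟩ := Nat.exists_prime_and_dvd hm1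
    let i : m.primeFactors := ⟨l, Nat.mem_primeFactors.mpr ⟨hl, hlm, hm0⟩⟩
    obtain ⟨j, hj⟩ := gam_pow_gen (hu i) y
    exact ⟨toGp m (c i) ^ j, by rw [map_pow, hφ, hj]⟩

theorem TotRam.exists_unit {m n : ℕ} (hn : 1 ≤ n) {f : Gp m →* Cpn p n} (h : TotRam m f)
    {i : m.primeFactors} {c : Gm m} (hc : ∀ (d : ℕ) (hml : m = d * i) (z : Gm m),
      ZMod.unitsMap (m := m) (n := d) ⟨i, hml⟩ z = 1 → ∃ k : ℕ, c ^ k = z) :
    ∃ u : ℕ, p.Coprime u ∧ f (toGp m c) = gam p n ^ u := by
  have : NeZero (p ^ n) := ⟨(Nat.pow_pos hp.out.pos).ne'⟩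
  have hml : m = (m / i.1) * i.1 := (Nat.div_mul_cancel (Nat.dvd_of_mem_primeFactors i.2)).symm
  have h1 : gam p n ∈ (res (m := m) (d := m / i.1) ⟨i.1, hml⟩).ker.map f := by
    rw [h _ _ hml (Nat.prime_of_mem_primeFactors i.2)]
    trivial
  obtain ⟨x, hx, hfx⟩ := h1
  obtain ⟨z, rfl⟩ := toGp_surjective m x
  have hx' : toGp (m / i.1) (ZMod.unitsMap ⟨i.1, hml⟩ z) = 1 := hx
  have h2 : ∃ z', toGp m z' = toGp m z ∧
      ZMod.unitsMap (m := m) (n := m / i.1) ⟨i.1, hml⟩ z' = 1 := by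
    obtain ⟨j, hj⟩ := Subgroup.mem_zpowers_iff.mp ((QuotientGroup.eq_one_iff _).mp hx')
    refine ⟨z * ((-1) ^ j)⁻¹, ?_, ?_⟩
    · have h3 : toGp m (-1 : Gm m) = 1 := (QuotientGroup.eq_one_iff _).mpr (Subgroup.mem_zpowers _)
      rw [map_mul, map_inv, map_zpow, h3, one_zpow, inv_one, mul_one]
    · rw [map_mul, map_inv, map_zpow, unitsMap_neg_one, hj, mul_inv_cancel]
  obtain ⟨z', hz1, hz2⟩ := h2
  obtain ⟨k, hk⟩ := hc _ hml z' hz2
  rw [← hz1, ← hk, map_pow, map_pow] at hfx
  refine ⟨(Multiplicative.toAdd (f (toGp m c))).val, ?_, ?_⟩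
  · rw [Nat.Prime.coprime_iff_not_dvd hp.out]
    intro hdvd
    have h3 : (Multiplicative.toAdd (f (toGp m c) ^ k) : ZMod (p ^ n)) = 1 := by
      rw [hfx]
      rfl
    rw [toAdd_pow] at h3
    have h4 : ((k * (Multiplicative.toAdd (f (toGp m c))).val : ℕ) : ZMod (p ^ n)) =
        ((1 : ℕ) : ZMod (p ^ n)) := by
      push_cast
      rw [ZMod.natCast_zmod_val, ← nsmul_eq_mul, h3]
    rw [ZMod.natCast_eq_natCast_iff] at h4
    have h5 : k * (Multiplicative.toAdd (f (toGp m c))).val ≡ 1 [MOD p] :=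
      h4.of_dvd (dvd_pow_self p (by omega))
    have h6 : k * (Multiplicative.toAdd (f (toGp m c))).val ≡ 0 [MOD p] :=
      (Nat.modEq_zero_iff_dvd).mpr (hdvd.mul_left k)
    have h7 : p ∣ 1 := (Nat.modEq_zero_iff_dvd).mp (h5.symm.trans h6)
    exact hp.out.one_lt.ne' (Nat.dvd_one.mp h7)
  · apply Multiplicative.toAdd.injective
    rw [toAdd_pow]
    have h1 : Multiplicative.toAdd (gam p n) = 1 := rfl
    rw [h1, nsmul_eq_mul, mul_one, ZMod.natCast_zmod_val]

theorem Cpn_nontrivial {n : ℕ} (hn : 1 ≤ n) : Nontrivial (Cpn p n) := by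
  have : Fact (1 < p ^ n) := ⟨Nat.one_lt_pow (by omega) hp.out.one_lt⟩
  exact inferInstanceAs (Nontrivial (ZMod (p ^ n)))

theorem Cpn_finite (n : ℕ) : Finite (Cpn p n) := by
  have : NeZero (p ^ n) := ⟨(Nat.pow_pos hp.out.pos).ne'⟩
  exact inferInstanceAs (Finite (ZMod (p ^ n)))

theorem Cpn_card (n : ℕ) : Nat.card (Cpn p n) = p ^ n := by
  rw [Nat.card_congr Multiplicative.toAdd, Nat.card_zmod]

namespace MTData

/-- a family of elements of group rings `ℤ_p[G]`, `G = Gal(F/ℚ)`, which is compatible modulo `I^k`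
like the modular elements -/
structure Compat (D : MTData) (p : ℕ) [Fact p.Prime] (M k : ℕ)
    (A : ∀ (m : ℕ) (G : Type) [CommGroup G] (_ : Gp m →* G), MonoidAlgebra ℤ_[p] G) : Prop where
  comp : ∀ (m : ℕ) (G G' : Type) [CommGroup G] [CommGroup G'] (f : Gp m →* G) (g : G →* G'),
    push g (A m G f) = A m G' (g.comp f)
  up : ∀ (m d l : ℕ) (hml : m = d * l), m ∣ M → l.Prime → ∀ (hc : l.Coprime d) (G : Type)
    [CommGroup G] (f : Gp d →* G), A m G (f.comp (res (m := m) (d := d) ⟨l, hml⟩)) -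
      PZ D.W l (frob f hc) * A d G f ∈ augI ℤ_[p] G ^ k

/-- the modular element is congruent to `A` modulo `I^k` -/
def Stmt (D : MTData) (p : ℕ) [Fact p.Prime] (k : ℕ)
    (A : ∀ (m : ℕ) (G : Type) [CommGroup G] (_ : Gp m →* G), MonoidAlgebra ℤ_[p] G)
    (m : ℕ) (G : Type) [CommGroup G] (f : Gp m →* G) : Prop :=
  ∃ θ : MonoidAlgebra ℤ_[p] G, D.IsTheta p m f θ ∧ θ - A m G f ∈ augI ℤ_[p] G ^ k

section
variable {k M : ℕ}
  {A : ∀ (m : ℕ) (G : Type) [CommGroup G] (_ : Gp m →* G), MonoidAlgebra ℤ_[p] G}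

theorem Stmt.comp (hA : D.Compat p M k A) {m : ℕ} {G G' : Type} [CommGroup G] [CommGroup G']
    {f : Gp m →* G} (h : D.Stmt p k A m G f) (g : G →* G') : D.Stmt p k A m G' (g.comp f) := by
  obtain ⟨θ, h1, h3⟩ := h
  refine ⟨push g θ, h1.push' g, ?_⟩
  have := push_mem g h3
  rwa [map_sub, hA.comp] at this

theorem Stmt.up (hM : D.Adm p M) (hA : D.Compat p M k A) {m d l : ℕ} (hm : m = d * l)
    (hmM : m ∣ M) (hl : l.Prime) {G : Type} [CommGroup G] {f : Gp d →* G}
    (h : D.Stmt p k A d G f) :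
    D.Stmt p k A m G (f.comp (res (m := m) (d := d) ⟨l, hm⟩)) := by
  have hAd := hM.of_dvd hmM
  have hc := hAd.coprime_of_eq hm
  obtain ⟨θ, h1, h3⟩ := h
  refine ⟨PZ D.W l (frob f hc.symm) * θ, h1.up hm hAd hl hc.symm, ?_⟩
  have h4 := hA.up m d l hm hmM hl hc.symm G f
  have h5 := Ideal.mul_mem_left _ (PZ D.W l (frob f hc.symm)) h3
  have h6 := Ideal.sub_mem _ h5 h4
  convert! h6 using 1
  ring

theorem push_sub_mem (hA : D.Compat p M k A) {m : ℕ} {G : Type} [CommGroup G] [Finite G]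
    {θ : MonoidAlgebra ℤ_[p] (Gp m)} (hθ : D.IsTheta p m (MonoidHom.id (Gp m)) θ)
    {g : Gp m →* G} (h : D.Stmt p k A m G g) :
    push g (θ - A m (Gp m) (MonoidHom.id (Gp m))) ∈ augI ℤ_[p] G ^ k := by
  obtain ⟨θ', h1, h3⟩ := h
  have h4 := hθ.push' g
  rw [MonoidHom.comp_id] at h4
  have h5 := h4.unique h1
  rw [map_sub, hA.comp, h5, MonoidHom.comp_id]
  exact h3

/-- the difference argument -/
theorem diff_form (hp2 : p ≠ 2) {m : ℕ} (hA : D.Adm p m) {c : m.primeFactors → Gm m}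
    (hc : ∀ (i : m.primeFactors) (d : ℕ) (hml : m = d * i) (z : Gm m),
      ZMod.unitsMap (m := m) (n := d) ⟨i, hml⟩ z = 1 → ∃ k : ℕ, c i ^ k = z)
    {x : MonoidAlgebra ℤ_[p] (Gp m)}
    (h : ∀ (d l : ℕ) (hml : m = d * l), l.Prime →
      push (res (m := m) (d := d) ⟨l, hml⟩) x ∈ augI ℤ_[p] (Gp d) ^ k) :
    ∃ w, x - (∏ i, (of ℤ_[p] (Gp m) (toGp m (c i)) - 1)) * w ∈ augI ℤ_[p] (Gp m) ^ k := by
  classical
  obtain ⟨y, rfl⟩ := push_surjective (toGp_surjective m) x
  -- the primes dividing `m`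
  have hml : ∀ l : m.primeFactors, m = (m / l.1) * l.1 := fun l =>
    (Nat.div_mul_cancel (Nat.dvd_of_mem_primeFactors l.2)).symm
  have hlp : ∀ l : m.primeFactors, l.1.Prime := fun l => Nat.prime_of_mem_primeFactors l.2
  choose s hs1 hs2 using fun l : m.primeFactors =>
    exists_section (hml l) (hA.coprime_of_eq (hml l))
  let e : m.primeFactors → (Gm m →* Gm m) := fun l =>
    (s l).comp (ZMod.unitsMap (m := m) (n := m / l.1) ⟨l.1, hml l⟩)
  have hz1 : ∀ (i : m.primeFactors) (g : Gm m),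
      ZMod.unitsMap (m := m) (n := m / i.1) ⟨i.1, hml i⟩ (g * (e i g)⁻¹) = 1 := by
    intro i g
    rw [map_mul, map_inv]
    show _ * (ZMod.unitsMap _ (s i _))⁻¹ = 1
    rw [hs1, mul_inv_cancel]
  have he : ∀ i j : m.primeFactors, i ≠ j → ∀ g, e j (g * (e i g)⁻¹) = g * (e i g)⁻¹ := by
    intro i j hij g
    have hzi := hz1 i g
    set z := g * (e i g)⁻¹ with hz
    apply (crt_bijective (hml j) (hA.coprime_of_eq (hml j))).1
    refine Prod.ext ?_ ?_
    · show ZMod.unitsMap _ (s j _) = _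
      rw [hs1]
      rfl
    · show ZMod.unitsMap _ (s j _) = ZMod.unitsMap _ z
      rw [hs2]
      have hji : j.1 ∣ m / i.1 := by
        have h1 : j.1 ∣ (m / i.1) * i.1 := by rw [← hml i]; exact Nat.dvd_of_mem_primeFactors j.2
        rcases (hlp j).dvd_mul.mp h1 with h2 | h2
        · exact h2
        · exact absurd (Subtype.ext ((Nat.prime_dvd_prime_iff_eq (hlp j) (hlp i)).mp h2).symm) hij
      have h1 := DFunLike.congr_fun (ZMod.unitsMap_comp (m := m / i.1) (n := j.1) (d := m) hji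
        ⟨i.1, hml i⟩) z
      rw [MonoidHom.comp_apply, hzi, map_one] at h1
      exact h1
  have hnd := Finset.nodup_toList (Finset.univ : Finset m.primeFactors)
  have h1 : ∀ i ∈ (Finset.univ : Finset m.primeFactors).toList,
      push (e i) y ∈ augI ℤ_[p] (Gm m) ^ k := by
    intro i _
    have h1 : push (e i) y = push (s i)
        (push (ZMod.unitsMap (m := m) (n := m / i.1) ⟨i.1, hml i⟩) y) := by
      rw [push_push]
    rw [h1]
    refine push_mem _ ?_
    refine mem_pow_of_push (toGp_surjective _) ?_ ?_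
    · intro g hg
      refine ⟨2, toGp_ker hg, ?_⟩
      have : p.Coprime 2 := (Nat.coprime_primes hp.out Nat.prime_two).mpr hp2
      exact_mod_cast isUnit_cast (p := p) this
    · have h2 := h (m / i.1) i.1 (hml i) (hlp i)
      rw [push_push] at h2 ⊢
      exact h2
  have h2 := DD_sub_mem e _ k y h1
  obtain ⟨w, hw⟩ := DD_dvd (R := ℤ_[p]) hnd he (c := c)
    (fun i g => hc i (m / i.1) (hml i) _ (hz1 i g)) y
  refine ⟨push (toGp m) w, ?_⟩
  have h3 := push_mem (toGp m) h2
  rw [hw, Finset.prod_map_toList, map_sub, map_mul, map_prod] at h3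
  simp only [map_sub, push_of, map_one] at h3
  have h4 := neg_mem h3
  rwa [neg_sub] at h4

theorem Valid.ne_two (hD : D.Valid p) : p ≠ 2 := by
  rintro rfl
  have := hD.good
  have h2 : Nat.Coprime 2 6 := by
    refine this.coprime_dvd_right ?_
    refine Dvd.dvd.mul_right (Dvd.dvd.mul_right (Dvd.dvd.mul_right (Dvd.dvd.mul_right ?_ _) _) _) _
    exact dvd_rfl
  revert h2
  decide

theorem all_id (hD : D.Valid p) (hM : D.Adm p M) (hA : D.Compat p M k A)
    (hint : ∀ m, m ∣ M → IsField m (MonoidHom.id (Gp m)) →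
      ∃ θ, D.IsTheta p m (MonoidHom.id (Gp m)) θ)
    (H : ∀ m, m ∣ M → m.primeFactors.card < k →
      (m = 1 ∨ m.primeFactors.card + 1 < k ∨ p < k) → ∀ (G : Type) [CommGroup G]
      (f : Gp m →* G), IsField m f → (∃ n, Nat.card G = p ^ n) →
      (k ≤ p → IsCyclic G ∧ TotRam m f) → D.Stmt p k A m G f)
    (H2 : k ≤ p → ∀ m, m ∣ M → m ≠ 1 → m.primeFactors.card + 1 = k → ∀ n, 1 ≤ n →
      (∀ l ∈ m.primeFactors, p ^ n ∣ l - 1) → ∃ f : Gp m →* Cpn p n, TotRam m f ∧
        D.Stmt p k A m (Cpn p n) f) :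
    ∀ m, m ∣ M → D.Stmt p k A m (Gp m) (MonoidHom.id (Gp m)) := by
  have hp2 : p ≠ 2 := hD.ne_two
  intro m
  induction m using Nat.strong_induction_on with
  | _ m ih =>
    intro hmM
    have hAd : D.Adm p m := hM.of_dvd hmM
    have hm0 : m ≠ 0 := hAd.1.ne_zero
    have hfin := finite_Gp hm0
    have hlt : ∀ d l : ℕ, m = d * l → l.Prime → d < m := by
      intro d l hml hl
      have hd0 : 0 < d := Nat.pos_of_dvd_of_pos ⟨l, hml⟩ (Nat.pos_of_ne_zero hm0)
      rw [hml]
      exact lt_mul_of_one_lt_right hd0 hl.one_lt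
    have hup : ∀ (d l : ℕ) (hml : m = d * l), l.Prime →
        D.Stmt p k A m (Gp d) (res (m := m) (d := d) ⟨l, hml⟩) := by
      intro d l hml hl
      have h1 := ih d (hlt d l hml hl) (dvd_trans ⟨l, hml⟩ hmM)
      have h2 := h1.up hM hA hml hmM hl
      rwa [MonoidHom.id_comp] at h2
    have hnf : ∀ (G : Type) [CommGroup G] (f : Gp m →* G), Function.Surjective f →
        ¬ IsField m f → D.Stmt p k A m G f := by
      intro G _ f hs hf
      obtain ⟨d, l, hml, hl, f', hf'⟩ := exists_factor hm0 hs hf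
      have h1 := (hup d l hml hl).comp hA f'
      rwa [hf'] at h1
    by_cases hc : IsField m (MonoidHom.id (Gp m))
    · obtain ⟨θ, hθ⟩ := hint m hmM hc
      refine ⟨θ, hθ, ?_⟩
      obtain ⟨c, hc1, hc2, hc3, hc4, hc5⟩ := exists_gens (p := p) hAd.1
      have hdf : ∃ w, θ - A m (Gp m) (MonoidHom.id (Gp m)) -
          (∏ i, (of ℤ_[p] (Gp m) (toGp m (c i)) - 1)) * w ∈ augI ℤ_[p] (Gp m) ^ k := by
        refine diff_form hp2 hAd hc4 fun d l hml hl => ?_
        have hd0 : d ≠ 0 := by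
          rintro rfl
          rw [zero_mul] at hml
          exact hm0 hml
        have := finite_Gp hd0
        exact push_sub_mem hA hθ (hup d l hml hl)
      obtain ⟨w, hw⟩ := hdf
      by_cases hr : m.primeFactors.card < k
      · by_cases hrp : k ≤ p
        · -- cyclic quotients
          rcases eq_or_ne m 1 with rfl | hm1
          · have h0 : Subsingleton (Gp 1) := (toGp_surjective 1).subsingleton
            have h1 : Nat.card (Gp 1) = 1 := Nat.card_unique
            have h2 : IsCyclic (Gp 1) := isCyclic_of_subsingleton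
            have h3 := H 1 hmM hr (Or.inl rfl) (Gp 1) (MonoidHom.id (Gp 1)) hc ⟨0, by rw [h1, pow_zero]⟩
              (fun _ => ⟨h2, fun d l h hl => by
                exfalso
                have := Nat.eq_one_of_mul_eq_one_left h.symm
                exact hl.one_lt.ne' this⟩)
            have h4 := push_sub_mem hA hθ h3
            rwa [push_id] at h4
          · have hne : (Finset.univ : Finset m.primeFactors).Nonempty := by
              obtain ⟨l, hl, hlm⟩ := Nat.exists_prime_and_dvd hm1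
              exact ⟨⟨l, Nat.mem_primeFactors.mpr ⟨hl, hlm, hm0⟩⟩, Finset.mem_univ _⟩
            obtain ⟨i0, _, hmin⟩ := Finset.exists_min_image (Finset.univ : Finset m.primeFactors)
              (fun i => ((i : ℕ) - 1).factorization p) hne
            have hN : (i0 : ℕ) - 1 ≠ 0 := by
              have := (Nat.prime_of_mem_primeFactors i0.2).two_le
              omega
            have hcl : Subgroup.closure (Set.range fun i => toGp m (c i)) = ⊤ := by
              have h1 := congrArg (Subgroup.map (toGp m)) hc2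
              rw [MonoidHom.map_closure, ← Set.range_comp,
                Subgroup.map_top_of_surjective _ (toGp_surjective m)] at h1
              exact h1
            have hdiv : ∀ l ∈ m.primeFactors, p ^ ((i0 : ℕ) - 1).factorization p ∣ l - 1 :=
              fun l hl => (Nat.pow_dvd_pow p (hmin ⟨l, hl⟩ (Finset.mem_univ _))).trans
                (Nat.ordProj_dvd _ p)
            have hg0 : toGp m (c i0) ^ ((i0 : ℕ) - 1) = 1 := by rw [← map_pow, hc1, map_one]
            have := Cpn_finite (p := p) (((i0 : ℕ) - 1).factorization p)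
            rcases eq_or_ne (m.primeFactors.card + 1) k with hk1 | hk1
            · refine ram_detect_one hcl i0 hN hg0 hrp (by rwa [Fintype.card_coe]) hw ?_
              intro hn1
              obtain ⟨f, hf1, hf2⟩ := H2 hrp m hmM hm1 hk1 _ hn1 hdiv
              choose u hu huf using fun i : m.primeFactors =>
                hf1.exists_unit hn1 (i := i) (c := c i) (hc4 i)
              exact ⟨u, hu, f, huf, push_sub_mem hA hθ hf2⟩
            · refine ram_detect hcl i0 hN hg0 hrp hw ?_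
              intro hn1 u hu
              obtain ⟨φ, hφ, htr, hs⟩ := exists_totRam hp2 hm0 hc3 hu
                (hc5 _ (fun i => hdiv i.1 i.2) u)
              have := Cpn_nontrivial (p := p) hn1
              exact ⟨φ, hφ, push_sub_mem hA hθ (H m hmM hr (Or.inr (Or.inl (by omega))) _ φ
                (htr.isField (hs hm1)) ⟨_, Cpn_card _⟩ (fun _ => ⟨inferInstance, htr⟩))⟩
        · -- the quotient of order a power of `p`
          set c := Nat.card (Gp m) with hcc
          have hc0 : c ≠ 0 := Nat.card_pos.ne'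
          set u := c / p ^ c.factorization p with hu
          have hcu : p ^ c.factorization p * u = c := Nat.ordProj_mul_ordCompl_eq_self c p
          have hpu : p.Coprime u := Nat.coprime_ordCompl hp.out hc0
          let φ : Gp m →* Gp m := powMonoidHom u
          have hcard : ∃ n, Nat.card φ.range = p ^ n := by
            have : IsPGroup p φ.range := by
              rintro ⟨_, ⟨y, rfl⟩⟩
              refine ⟨c.factorization p, Subtype.ext ?_⟩
              show (y ^ u) ^ p ^ c.factorization p = 1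
              rw [← pow_mul, mul_comm, hcu, hcc]
              exact pow_card_eq_one'
            exact IsPGroup.iff_card.mp this
          have h1 : D.Stmt p k A m φ.range φ.rangeRestrict := by
            by_cases hf : IsField m φ.rangeRestrict
            · exact H m hmM hr (Or.inr (Or.inr (by omega))) φ.range φ.rangeRestrict hf hcard
                (fun h => absurd h hrp)
            · exact hnf _ _ φ.rangeRestrict_surjective hf
          refine mem_pow_of_push φ.rangeRestrict_surjective ?_ (push_sub_mem hA hθ h1)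
          intro g hg
          refine ⟨u, ?_, isUnit_cast hpu⟩
          exact congrArg Subtype.val hg
      · -- many primes
        push Not at hr
        have h1 : (∏ i, (of ℤ_[p] (Gp m) (toGp m (c i)) - 1)) ∈ augI ℤ_[p] (Gp m) ^ k := by
          have h2 := (Cong.prod (I := augI ℤ_[p] (Gp m)) Finset.univ
            (fun _ : m.primeFactors => 1) (fun i => of ℤ_[p] (Gp m) (toGp m (c i)) - 1)
            (fun i => of ℤ_[p] (Gp m) (toGp m (c i)) - 1)
            (fun i _ => ⟨by rw [pow_one]; exact of_sub_one_mem _, by simp⟩)).1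
          rw [Finset.sum_const, Finset.card_univ, smul_eq_mul, mul_one, Fintype.card_coe] at h2
          exact Ideal.pow_le_pow_right hr h2
        have h2 := Ideal.add_mem _ hw (Ideal.mul_mem_right w _ h1)
        rwa [sub_add_cancel] at h2
    · exact hnf _ _ Function.surjective_id hc

end

/-! ### the two families -/

theorem coeff_rel {m d l : ℕ} (hm : m = d * l) (hA : D.Adm p m) (hl : l.Prime) :
    (-1) ^ m.primeFactors.card * D.Lalg p m = ((-1) ^ d.primeFactors.card * D.Lalg p d) *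
      (-((nsCard D.W l : ℤ_[p]) * Ring.inverse (l : ℤ_[p]))) := by
  have hc := hA.coprime_of_eq hm
  have hlm : l ∣ m := ⟨d, by rw [hm, mul_comm]⟩
  have hlN : ¬ l ∣ D.N := (Nat.Prime.coprime_iff_not_dvd hl).mp (hA.2.1.coprime_dvd_left hlm)
  have hld : ¬ l ∣ d := (Nat.Prime.coprime_iff_not_dvd hl).mp hc.symm
  have h1 : m.primeFactors = insert l d.primeFactors := by
    rw [hm, Nat.Coprime.primeFactors_mul hc, hl.primeFactors, Finset.union_comm]
    rfl
  have h2 : (m * D.N).primeFactors = insert l (d * D.N).primeFactors := by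
    have : m * D.N = (d * D.N) * l := by rw [hm]; ring
    have hc2 : (d * D.N).Coprime l := by
      rw [Nat.coprime_comm, Nat.Prime.coprime_iff_not_dvd hl, hl.dvd_mul]
      rintro (h | h)
      · exact hld h
      · exact hlN h
    rw [this, Nat.Coprime.primeFactors_mul hc2, hl.primeFactors, Finset.union_comm]
    rfl
  have h3 : l ∉ d.primeFactors := fun h => hld (Nat.dvd_of_mem_primeFactors h)
  have h4 : l ∉ (d * D.N).primeFactors := by
    intro h
    have := Nat.dvd_of_mem_primeFactors h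
    rw [hl.dvd_mul] at this
    rcases this with h | h
    · exact hld h
    · exact hlN h
  unfold Lalg
  rw [h1, h2, Finset.card_insert_of_notMem h3, Finset.prod_insert h4, pow_succ]
  ring

theorem compat_reg {M n : ℕ} (hM : D.Adm p M) : D.Compat p M (D.r + 1) (fun m G _ f =>
    algebraMap ℤ_[p] (MonoidAlgebra ℤ_[p] G) ((-1) ^ m.primeFactors.card * D.Lalg p m) *
      D.reg p n m f) := by
  refine ⟨?_, ?_⟩
  · intro m G G' _ _ f g
    show push g (_ * _) = _
    rw [map_mul, AlgHom.commutes, push_reg]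
  · intro m d l hm hmM hl hc G _ f
    have hA := hM.of_dvd hmM
    have hlm : l ∣ m := ⟨d, by rw [hm, mul_comm]⟩
    have hpl : p.Coprime l := hA.2.2.1.coprime_dvd_right hlm
    show algebraMap ℤ_[p] (MonoidAlgebra ℤ_[p] G) ((-1) ^ m.primeFactors.card * D.Lalg p m) *
      D.reg p n m (f.comp (res ⟨l, hm⟩)) - PZ D.W l (frob f hc) *
        (algebraMap ℤ_[p] (MonoidAlgebra ℤ_[p] G) ((-1) ^ d.primeFactors.card * D.Lalg p d) *
      D.reg p n d f) ∈ _
    rw [coeff_rel hm hA hl, reg_res hA.1 ⟨l, hm⟩]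
    set c : ℤ_[p] := -((nsCard D.W l : ℤ_[p]) * Ring.inverse (l : ℤ_[p])) with hc'
    set ε : ℤ_[p] := (-1) ^ d.primeFactors.card * D.Lalg p d with hε
    have h4 := PZ_sub_mem (p := p) D.W hpl (frob f hc)
    have h5 := reg_mem (p := p) (D := D) n d f
    have h7 : (PZ D.W l (frob f hc) - algebraMap ℤ_[p] _ c) *
        (algebraMap ℤ_[p] _ ε * D.reg p n d f) ∈ augI ℤ_[p] G ^ (D.r + 1) := by
      rw [pow_succ']
      exact Ideal.mul_mem_mul h4 (Ideal.mul_mem_left _ _ h5)
    have h10 := neg_mem h7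
    convert! h10 using 1
    rw [map_mul]
    ring

theorem compat_zero (M k : ℕ) :
    D.Compat p M k (fun _ G _ _ => (0 : MonoidAlgebra ℤ_[p] G)) := by
  refine ⟨?_, ?_⟩
  · intro m G G' _ _ f g
    exact map_zero _
  · intro m d l hm hA hl hc G _ f
    simp

/-- **Theorem.** Let `M` be admissible.  Q1 for all real abelian fields `F ⊆ ℚ(ζ_M)⁺` is
equivalent to the `p`-integrality of their modular elements and Q1 for those `F` of degree a power
of `p` in which at most `r` primes ramify; if `r < p` it is enough that `F` is cyclic and totally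
ramified at all ramified primes, and if moreover the number of ramified primes is `r`, it is
enough to take one field `F` of conductor `m` and degree `p ^ n` for all `m` and `n`. -/
theorem reduction (hD : D.Valid p) {M : ℕ} (hM : D.Adm p M) :
    (∀ m, m ∣ M → ∀ (G : Type) [CommGroup G] (f : Gp m →* G), IsField m f → D.Q1 p m f) ↔
    (∀ m, m ∣ M → ∀ (G : Type) [CommGroup G] (f : Gp m →* G), IsField m f →
      ∃ θ, D.IsTheta p m f θ) ∧
    (∀ m, m ∣ M →
      (m = 1 ∨ m.primeFactors.card < D.r ∨ (m.primeFactors.card = D.r ∧ p ≤ D.r)) →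
      ∀ (G : Type) [CommGroup G] (f : Gp m →* G), IsField m f → (∃ n, Nat.card G = p ^ n) →
      (D.r < p → IsCyclic G ∧ TotRam m f) → D.Q1 p m f) ∧
    (D.r < p → ∀ m, m ∣ M → m ≠ 1 → m.primeFactors.card = D.r → ∀ n, 1 ≤ n →
      (∀ l ∈ m.primeFactors, p ^ n ∣ l - 1) → ∃ f : Gp m →* Multiplicative (ZMod (p ^ n)),
        IsField m f ∧ TotRam m f ∧ D.Q1 p m f) := by
  constructor
  · intro h
    refine ⟨fun m hm G _ f hf => ?_, fun m hm _ G _ f hf _ _ => h m hm G f hf,
      fun _ m hm hm1 _ n hn hdiv => ?_⟩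
    · obtain ⟨θ, hθ, _⟩ := h m hm G f hf
      exact ⟨θ, hθ⟩
    · have hsq := hM.1.squarefree_of_dvd hm
      obtain ⟨c, hc1, hc2, hc3, hc4, hc5⟩ := exists_gens (p := p) hsq
      obtain ⟨φ, hφ, htr, hs⟩ := exists_totRam (u := fun _ => 1) hD.ne_two hsq.ne_zero hc3
        (fun i => Nat.coprime_one_right p) (hc5 n (fun i => hdiv i.1 i.2) fun _ => 1)
      have := Cpn_nontrivial (p := p) hn
      have hfield := htr.isField (hs hm1)
      exact ⟨φ, hfield, htr, h m hm _ φ hfield⟩
  · rintro ⟨hint, H, H2⟩ m hm G _ f hf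
    have hAd := hM.of_dvd hm
    have hfin := finite_Gp hAd.1.ne_zero
    have hfG : Finite G := Finite.of_surjective f hf.1
    -- order of vanishing
    have h1 := (all_id (k := D.r) hD hM (compat_zero M D.r)
      (fun m hm hf => hint m hm (Gp m) _ hf) (fun m hm hr _ G _ f hf hc h2 => by
        obtain ⟨θ, hθ, h3, _⟩ := H m hm (Or.inr (Or.inl hr)) G f hf hc (fun h => h2 h.le)
        exact ⟨θ, hθ, by rwa [sub_zero]⟩)
      (fun hrp m hm hm1 hr n hn hdiv => by
        have hsq := hM.1.squarefree_of_dvd hm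
        obtain ⟨c, hc1, hc2, hc3, hc4, hc5⟩ := exists_gens (p := p) hsq
        obtain ⟨φ, hφ, htr, hs⟩ := exists_totRam (u := fun _ => 1) hD.ne_two hsq.ne_zero hc3
          (fun i => Nat.coprime_one_right p) (hc5 n (fun i => hdiv i.1 i.2) fun _ => 1)
        have := Cpn_nontrivial (p := p) hn
        obtain ⟨θ, hθ, h3, _⟩ := H m hm (Or.inr (Or.inl (by omega))) _ φ
          (htr.isField (hs hm1)) ⟨n, Cpn_card n⟩ (fun _ => ⟨inferInstance, htr⟩)
        exact ⟨φ, htr, θ, hθ, by rwa [sub_zero]⟩) m hm).comp (compat_zero M D.r) f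
    rw [MonoidHom.comp_id] at h1
    obtain ⟨θ, hθ, h3⟩ := h1
    rw [sub_zero] at h3
    refine ⟨θ, hθ, h3, fun n hpn hn => ?_⟩
    have h4 := (all_id (k := D.r + 1) hD hAd (compat_reg (n := n) hAd)
      (fun d hd hf => hint d (hd.trans hm) (Gp d) _ hf) (fun d hd hr hr' G _ f hf hc h2 => by
        obtain ⟨θ, hθ, _, h5⟩ := H d (hd.trans hm) (by
          rcases hr' with h | h | h
          · exact Or.inl h
          · exact Or.inr (Or.inl (by omega))
          · rcases eq_or_ne d.primeFactors.card D.r with h' | h'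
            · exact Or.inr (Or.inr ⟨h', by omega⟩)
            · exact Or.inr (Or.inl (by omega))) G f hf hc (fun h => h2 (by omega))
        exact ⟨θ, hθ, h5 n hpn fun j => (hn j).of_dvd hd⟩)
      (fun hrp d hd hd1 hr n' hn' hdiv => by
        obtain ⟨f, _, htr, θ, hθ, _, h5⟩ := H2 (by omega) d (hd.trans hm) hd1 (by omega) n' hn' hdiv
        exact ⟨f, htr, θ, hθ, h5 n hpn fun j => (hn j).of_dvd hd⟩) m dvd_rfl).comp
      (compat_reg (n := n) hAd) f
    rw [MonoidHom.comp_id] at h4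
    obtain ⟨θ', hθ', h5⟩ := h4
    rw [hθ'.unique hθ] at h5
    exact h5

end MTData

end MTate
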