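import Mathlib
import Pool.Agent.Lib.MP_5deabe_nt.Defs2
import Pool.Agent.Lib.MP_5deabe_nt.Main

/-!
# Q1 for a subfield of `ℚ(ζ_M)⁺` in terms of the modular element of `ℚ(ζ_M)⁺`
-/

namespace MTate

open MonoidAlgebra

variable {p : ℕ} [hp : Fact p.Prime] {D : MTData}

theorem res_self (m : ℕ) (h : m ∣ m) (x : Gp m) : res h x = x := by
  obtain ⟨g, rfl⟩ := toGp_surjective m x
  rw [res_toGp]
  congr 1
  apply Units.ext
  simp [ZMod.unitsMap_def]

/-- elements with invertible augmentation are invertible modulo powers of the augmentation ideal -/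
theorem mem_of_mul_mem {R : Type*} [CommRing R] {G : Type*} [CommGroup G]
    {e y : MonoidAlgebra R G} {c : R} (hc : IsUnit c)
    (he : e - algebraMap R _ c ∈ augI R G) {k : ℕ} (h : e * y ∈ augI R G ^ k) :
    y ∈ augI R G ^ k := by
  have key : ∀ j, j ≤ k → y ∈ augI R G ^ j := by
    intro j
    induction j with
    | zero => intro _; simp
    | succ j ih =>
      intro hj
      have h1 := ih (by omega)
      have h2 : (e - algebraMap R _ c) * y ∈ augI R G ^ (j + 1) := by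
        rw [pow_succ']
        exact Ideal.mul_mem_mul he h1
      have h3 := Ideal.pow_le_pow_right hj h
      have h4 : algebraMap R _ c * y ∈ augI R G ^ (j + 1) := by
        have : algebraMap R _ c * y = e * y - (e - algebraMap R _ c) * y := by ring
        rw [this]
        exact Ideal.sub_mem _ h3 h2
      exact (Ideal.unit_mul_mem_iff_mem _ (hc.map _)).mp h4
  exact key k le_rfl

/-- every surjection defines a field of some conductor -/
theorem exists_field {m : ℕ} (hm : m ≠ 0) {G : Type*} [CommGroup G] {f : Gp m →* G}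
    (hs : Function.Surjective f) :
    ∃ (d : ℕ) (h : d ∣ m) (f' : Gp d →* G), IsField d f' ∧ f'.comp (res h) = f := by
  induction m using Nat.strong_induction_on with
  | _ m ih =>
    by_cases hf : IsField m f
    · refine ⟨m, dvd_rfl, f, hf, ?_⟩
      ext x
      rw [MonoidHom.comp_apply, res_self]
    · obtain ⟨d, l, hml, hl, f₁, hf₁⟩ := exists_factor hm hs hf
      have hd0 : d ≠ 0 := by
        rintro rfl
        rw [zero_mul] at hml
        exact hm hml
      have hlt : d < m := by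
        rw [hml]
        exact lt_mul_of_one_lt_right (Nat.pos_of_ne_zero hd0) hl.one_lt
      have hs₁ : Function.Surjective f₁ := by
        intro y
        obtain ⟨x, hx⟩ := hs y
        refine ⟨res (m := m) (d := d) ⟨l, hml⟩ x, ?_⟩
        rw [← hx, ← hf₁, MonoidHom.comp_apply]
      obtain ⟨e, he, f', hf', hf''⟩ := ih d hlt hd0 hs₁
      refine ⟨e, he.trans ⟨l, hml⟩, f', hf', ?_⟩
      ext x
      rw [← hf₁, ← hf'', MonoidHom.comp_apply, MonoidHom.comp_apply, MonoidHom.comp_apply,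
        res_res]

namespace MTData

section
variable {k M : ℕ}
  {A : ∀ (m : ℕ) (G : Type) [CommGroup G] (_ : Gp m →* G), MonoidAlgebra ℤ_[p] G}

theorem Stmt.up_dvd (hM : D.Adm p M) (hA : D.Compat p M k A) {d : ℕ} {G : Type} [CommGroup G]
    {f : Gp d →* G} (h : D.Stmt p k A d G f) {m : ℕ} (hd : d ∣ m) (hmM : m ∣ M) :
    D.Stmt p k A m G (f.comp (res hd)) := by
  induction m using Nat.strong_induction_on with
  | _ m ih =>
    by_cases hdm : d = m
    · subst hdm
      have : f.comp (res hd) = f := by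
        ext x
        rw [MonoidHom.comp_apply, res_self]
      rwa [this]
    · obtain ⟨d', l, hml, hdd', hl⟩ := exists_prime_factor hd hdm
      have hm0 : m ≠ 0 := (hM.of_dvd hmM).1.ne_zero
      have hd0 : d' ≠ 0 := by
        rintro rfl
        rw [zero_mul] at hml
        exact hm0 hml
      have hlt : d' < m := by
        rw [hml]
        exact lt_mul_of_one_lt_right (Nat.pos_of_ne_zero hd0) hl.one_lt
      have h1 := ih d' hlt hdd' (dvd_trans ⟨l, hml⟩ hmM)
      have h2 := h1.up hM hA hml hmM hl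
      have h3 : (f.comp (res hdd')).comp (res (m := m) (d := d') ⟨l, hml⟩) =
          f.comp (res hd) := by
        ext x
        rw [MonoidHom.comp_apply, MonoidHom.comp_apply, MonoidHom.comp_apply, res_res]
      rwa [h3] at h2

theorem Stmt.down (hM : D.Adm p M) (hA : D.Compat p M k A) {m d l : ℕ} (hm : m = d * l)
    (hmM : m ∣ M) (hl : l.Prime) {G : Type} [CommGroup G] [Finite G] {f : Gp d →* G}
    {θ : MonoidAlgebra ℤ_[p] G} (hθ : D.IsTheta p d f θ)
    (h : D.Stmt p k A m G (f.comp (res (m := m) (d := d) ⟨l, hm⟩))) :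
    D.Stmt p k A d G f := by
  have hAd := hM.of_dvd hmM
  have hc := hAd.coprime_of_eq hm
  have hlm : l ∣ m := ⟨d, by rw [hm, mul_comm]⟩
  have hpl : p.Coprime l := hAd.2.2.1.coprime_dvd_right hlm
  have hpn : p.Coprime (nsCard D.W l) :=
    hAd.2.2.2 l (Nat.mem_primeFactors.mpr ⟨hl, hlm, hAd.1.ne_zero⟩)
  obtain ⟨θ', h1, h3⟩ := h
  have h4 := hθ.up hm hAd hl hc.symm
  have h5 := h1.unique h4
  rw [h5] at h3
  have h6 := hA.up m d l hm hmM hl hc.symm G f
  have h7 : PZ D.W l (frob f hc.symm) * (θ - A d G f) ∈ augI ℤ_[p] G ^ k := by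
    have := Ideal.add_mem _ h3 h6
    have h8 : PZ D.W l (frob f hc.symm) * (θ - A d G f) =
      PZ D.W l (frob f hc.symm) * θ - A m G (f.comp (res (m := m) (d := d) ⟨l, hm⟩)) +
      (A m G (f.comp (res (m := m) (d := d) ⟨l, hm⟩)) -
        PZ D.W l (frob f hc.symm) * A d G f) := by ring
    rwa [h8]
  refine ⟨θ, hθ, mem_of_mul_mem ?_ (PZ_sub_mem D.W hpl (frob f hc.symm)) h7⟩
  refine IsUnit.neg ((isUnit_cast hpn).mul ?_)
  exact (isUnit_cast hpl).ringInverse

theorem Stmt.down_dvd (hM : D.Adm p M) (hA : D.Compat p M k A) {d : ℕ} {G : Type} [CommGroup G]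
    [Finite G] {f : Gp d →* G} {θ : MonoidAlgebra ℤ_[p] G} (hθ : D.IsTheta p d f θ)
    {m : ℕ} (hd : d ∣ m) (hmM : m ∣ M) (h : D.Stmt p k A m G (f.comp (res hd))) :
    D.Stmt p k A d G f := by
  induction m using Nat.strong_induction_on with
  | _ m ih =>
    by_cases hdm : d = m
    · subst hdm
      have : f.comp (res hd) = f := by
        ext x
        rw [MonoidHom.comp_apply, res_self]
      rwa [this] at h
    · obtain ⟨d', l, hml, hdd', hl⟩ := exists_prime_factor hd hdm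
      have hm0 : m ≠ 0 := (hM.of_dvd hmM).1.ne_zero
      have hd0 : d' ≠ 0 := by
        rintro rfl
        rw [zero_mul] at hml
        exact hm0 hml
      have hlt : d' < m := by
        rw [hml]
        exact lt_mul_of_one_lt_right (Nat.pos_of_ne_zero hd0) hl.one_lt
      have hd'M : d' ∣ M := dvd_trans ⟨l, hml⟩ hmM
      refine ih d' hlt hdd' hd'M ?_
      have h0 : D.Stmt p 0 (fun _ G _ _ => (0 : MonoidAlgebra ℤ_[p] G)) d G f :=
        ⟨θ, hθ, by simp⟩
      obtain ⟨θ', hθ', _⟩ := h0.up_dvd hM (compat_zero M 0) hdd' hd'M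
      have h3 : (f.comp (res hdd')).comp (res (m := m) (d := d') ⟨l, hml⟩) =
          f.comp (res hd) := by
        ext x
        rw [MonoidHom.comp_apply, MonoidHom.comp_apply, MonoidHom.comp_apply, res_res]
      rw [← h3] at h
      exact h.down hM hA hml hmM hl hθ'

end

/-- the modular element exists at every level -/
theorem exists_theta (hD : D.Valid p) {M : ℕ} (hM : D.Adm p M) (hI : D.Integral p M) :
    ∃ θ, D.IsTheta p M (MonoidHom.id (Gp M)) θ := by
  obtain ⟨θ, hθ, _⟩ := all_id (k := 0) hD hM (compat_zero M 0)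
    (fun m hm hf => hI m hm (Gp m) _ hf) (fun m hm h => absurd h (by omega))
    (fun _ m hm _ h => absurd h (by omega)) M dvd_rfl
  exact ⟨θ, hθ⟩

/-- heights computed with two multiples agree in `I/I^2` -/
theorem Pairing.height_sub {M : ℕ} (hP : D.Pairing p M) {m : ℕ} (hm : m ∣ M) {n n' : ℕ}
    (hn : p.Coprime n) (hn' : p.Coprime n') (h : ∀ j, D.InES m (n • D.x j))
    (h' : ∀ j, D.InES m (n' • D.x j)) (i j : Fin D.r) :
    D.height p n m i j - D.height p n' m i j ∈ augI ℤ_[p] (Gp m) ^ 2 := by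
  unfold height
  set u := D.pair m (D.x i) (n • D.x j) with hu
  set v := D.pair m (D.x i) (n' • D.x j) with hv
  have h1 : u ^ n' = v ^ n := by
    rw [hu, hv, ← hP.pow m hm _ _ n' (h j), ← hP.pow m hm _ _ n (h' j), smul_smul, smul_smul,
      mul_comm]
  have key : ∀ (g : Gp m) (k : ℕ), of ℤ_[p] (Gp m) (g ^ k) - 1 -
      (k : MonoidAlgebra ℤ_[p] (Gp m)) * (of ℤ_[p] (Gp m) g - 1) ∈ augI ℤ_[p] (Gp m) ^ 2 := by
    intro g k
    obtain ⟨w, hw⟩ := one_add_pow_exists (of ℤ_[p] (Gp m) g - 1) k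
    have h2 : of ℤ_[p] (Gp m) (g ^ k) - 1 - (k : MonoidAlgebra ℤ_[p] (Gp m)) *
        (of ℤ_[p] (Gp m) g - 1) = (of ℤ_[p] (Gp m) g - 1) ^ 2 * w := by
      rw [map_pow]
      have h3 : (1 + (of ℤ_[p] (Gp m) g - 1)) = of ℤ_[p] (Gp m) g := by ring
      rw [h3] at hw
      rw [hw]
      ring
    rw [h2]
    exact Ideal.mul_mem_right _ _ (Ideal.pow_mem_pow (of_sub_one_mem g) 2)
  have e1 := Ring.mul_inverse_cancel _ (isUnit_cast (p := p) hn)
  have e2 := Ring.mul_inverse_cancel _ (isUnit_cast (p := p) hn')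
  set a := Ring.inverse (n : ℤ_[p]) with ha
  set b := Ring.inverse (n' : ℤ_[p]) with hb
  have e1' : (n : MonoidAlgebra ℤ_[p] (Gp m)) * algebraMap ℤ_[p] _ a = 1 := by
    rw [← map_natCast (algebraMap ℤ_[p] (MonoidAlgebra ℤ_[p] (Gp m))), ← map_mul, e1, map_one]
  have e2' : (n' : MonoidAlgebra ℤ_[p] (Gp m)) * algebraMap ℤ_[p] _ b = 1 := by
    rw [← map_natCast (algebraMap ℤ_[p] (MonoidAlgebra ℤ_[p] (Gp m))), ← map_mul, e2, map_one]
  have h4 := key u n'
  have h5 := key v n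
  rw [h1] at h4
  have h6 := Ideal.mul_mem_left _ (algebraMap ℤ_[p] _ a * algebraMap ℤ_[p] _ b)
    (Ideal.sub_mem _ h5 h4)
  have h7 : algebraMap ℤ_[p] (MonoidAlgebra ℤ_[p] (Gp m)) a * (of ℤ_[p] (Gp m) u - 1) -
      algebraMap ℤ_[p] _ b * (of ℤ_[p] (Gp m) v - 1) =
      algebraMap ℤ_[p] _ a * algebraMap ℤ_[p] _ b *
        (of ℤ_[p] (Gp m) (v ^ n) - 1 - n * (of ℤ_[p] (Gp m) v - 1) -
        (of ℤ_[p] (Gp m) (v ^ n) - 1 - n' * (of ℤ_[p] (Gp m) u - 1))) := by
    linear_combination (-(algebraMap ℤ_[p] (MonoidAlgebra ℤ_[p] (Gp m)) a) *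
      (of ℤ_[p] (Gp m) u - 1)) * e2' + (algebraMap ℤ_[p] (MonoidAlgebra ℤ_[p] (Gp m)) b *
      (of ℤ_[p] (Gp m) v - 1)) * e1'
  rw [h7]
  exact h6

/-- the right hand side of Q1, computed with the multiple `n` -/
noncomputable def rhs (D : MTData) (p : ℕ) [Fact p.Prime] (n m : ℕ) (G : Type) [CommGroup G]
    (f : Gp m →* G) : MonoidAlgebra ℤ_[p] G :=
  algebraMap ℤ_[p] (MonoidAlgebra ℤ_[p] G) ((-1) ^ m.primeFactors.card * D.Lalg p m) *
    D.reg p n m f

theorem Q1.stmt {m : ℕ} {G : Type} [CommGroup G] {f : Gp m →* G} (h : D.Q1 p m f) {n : ℕ}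
    (hn : p.Coprime n) (h' : ∀ j, D.InES m (n • D.x j)) :
    D.Stmt p (D.r + 1) (D.rhs p n) m G f := by
  obtain ⟨θ, h1, _, h2⟩ := h
  exact ⟨θ, h1, h2 n hn h'⟩

theorem Stmt.q1 {M : ℕ} (hP : D.Pairing p M) {m : ℕ} (hm : m ∣ M) {G : Type} [CommGroup G]
    {f : Gp m →* G} {n : ℕ} (hn : p.Coprime n) (h' : ∀ j, D.InES m (n • D.x j))
    (h : D.Stmt p (D.r + 1) (D.rhs p n) m G f) : D.Q1 p m f := by
  obtain ⟨θ, h1, h2⟩ := h
  refine ⟨θ, h1, ?_, fun n' hn' h'' => ?_⟩
  · have h3 : D.rhs p n m G f ∈ augI ℤ_[p] G ^ D.r := Ideal.mul_mem_left _ _ (reg_mem n m f)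
    have h4 := Ideal.add_mem _ (Ideal.pow_le_pow_right (Nat.le_succ D.r) h2) h3
    rwa [sub_add_cancel] at h4
  · have h3 : Cong (augI ℤ_[p] G) D.r (D.reg p n m f) (D.reg p n' m f) := by
      refine det_cong _ _ fun i j => ⟨?_, ?_⟩
      · rw [pow_one]
        have := push_mem (k := 1) f (by rw [pow_one]; exact height_mem (p := p) (D := D) n m i j)
        rwa [pow_one] at this
      · have := push_mem f (hP.height_sub hm hn hn' h' h'' i j)
        rwa [map_sub] at this
    have h4 := Ideal.mul_mem_left _ (algebraMap ℤ_[p] (MonoidAlgebra ℤ_[p] G)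
      ((-1) ^ m.primeFactors.card * D.Lalg p m)) h3.2
    have h5 := Ideal.add_mem _ h2 h4
    have h6 : θ - algebraMap ℤ_[p] _ ((-1) ^ m.primeFactors.card * D.Lalg p m) *
        D.reg p n' m f = θ - D.rhs p n m G f + algebraMap ℤ_[p] (MonoidAlgebra ℤ_[p] G)
        ((-1) ^ m.primeFactors.card * D.Lalg p m) * (D.reg p n m f - D.reg p n' m f) := by
      unfold rhs
      ring
    rw [h6]
    exact h5

/-- **Q1 for all subfields of `ℚ(ζ_M)⁺` in terms of one element of `ℤ_p[Gal(ℚ(ζ_M)⁺/ℚ)]`.** -/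
theorem exists_defect (hD : D.Valid p) {M : ℕ} (hM : D.Adm p M) (hI : D.Integral p M)
    (hP : D.Pairing p M) : ∃ x : MonoidAlgebra ℤ_[p] (Gp M),
      ∀ (G : Type) [CommGroup G] [Finite G] (f : Gp M →* G), Function.Surjective f →
        (D.Q1At p M f ↔ push f x ∈ augI ℤ_[p] G ^ (D.r + 1)) := by
  obtain ⟨θ, hθ⟩ := exists_theta hD hM hI
  obtain ⟨n, hn, hn'⟩ := hP.ext
  have hA : D.Compat p M (D.r + 1) (D.rhs p n) := compat_reg hM
  refine ⟨θ - D.rhs p n M (Gp M) (MonoidHom.id (Gp M)), fun G _ _ f hs => ⟨?_, fun h => ?_⟩⟩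
  · rintro ⟨d, hd, f', hf', rfl, hQ⟩
    have h1 := (hQ.stmt hn fun j => (hn' j).of_dvd hd).up_dvd hM hA hd dvd_rfl
    exact push_sub_mem hA hθ h1
  · obtain ⟨d, hd, f', hf', rfl⟩ := exists_field hM.1.ne_zero hs
    refine ⟨d, hd, f', hf', rfl, ?_⟩
    obtain ⟨θ', hθ'⟩ := hI d hd G f' hf'
    refine Stmt.q1 hP hd hn (fun j => (hn' j).of_dvd hd) ?_
    refine Stmt.down_dvd hM hA hθ' hd dvd_rfl ?_
    refine ⟨push (f'.comp (res hd)) θ, ?_, ?_⟩
    · have := hθ.push' (f'.comp (res hd))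
      rwa [MonoidHom.comp_id] at this
    · rw [map_sub, hA.comp, MonoidHom.comp_id] at h
      exact h

end MTData

end MTate
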