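import Mathlib
import Pool.Agent.Lib.MP_5deabe_nt.Cyc4

/-!
# Functions of small degree on a cube with values in a finite abelian `p`-group

The group ring argument of Olson (and Alon-Friedland-Kalai): a function of small degree on
`{0,1}^B` with values in a finite abelian `p`-group which vanishes at `0` has another zero.
-/

namespace MTate

open MonoidAlgebra

/-- a finite set of elements with vanishing `q`-th power generates a nilpotent ideal -/
theorem span_pow_eq_bot {A : Type*} [CommRing A] {κ : Type*} {s : Finset κ} (hs : s.Nonempty)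
    (z : κ → A) (q : ℕ) (hz : ∀ i ∈ s, z i ^ q = 0) :
    (Ideal.span (z '' (s : Set κ))) ^ (s.card * q) = ⊥ := by
  classical
  induction hs using Finset.Nonempty.cons_induction with
  | singleton a =>
    rw [Finset.coe_singleton, Set.image_singleton, Finset.card_singleton, one_mul,
      Ideal.span_singleton_pow, hz a (Finset.mem_singleton_self a), Ideal.span_singleton_eq_bot]
  | cons a s ha _ ih =>
    have h1 : Ideal.span (z '' ((Finset.cons a s ha : Finset κ) : Set κ)) =
        Ideal.span {z a} ⊔ Ideal.span (z '' (s : Set κ)) := by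
      rw [Finset.coe_cons, Set.image_insert_eq, Ideal.span_insert]
    rw [h1, Finset.card_cons, add_mul, one_mul, add_comm, eq_bot_iff]
    refine Ideal.sup_pow_add_le_pow_sup_pow.trans ?_
    rw [ih fun i hi => hz i (Finset.mem_cons_of_mem hi), Ideal.span_singleton_pow,
      hz a (Finset.mem_cons_self a s)]
    simp

/-- an alternating sum over all subsets of a function independent of one element vanishes -/
theorem alt_sum_eq_zero {ι A : Type*} [Fintype ι] [DecidableEq ι] [CommRing A]
    (f : Finset ι → A) (i : ι) (hf : ∀ y, i ∉ y → f (insert i y) = f y) :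
    ∑ y : Finset ι, (-1) ^ y.card * f y = 0 := by
  have h1 : (Finset.univ : Finset (Finset ι)) = (Finset.univ : Finset ι).powerset := by simp
  have h2 : (Finset.univ : Finset ι) = insert i (Finset.univ.erase i) := by simp
  rw [h1, h2, Finset.sum_powerset_insert (Finset.notMem_erase i _), ← Finset.sum_add_distrib]
  refine Finset.sum_eq_zero fun y hy => ?_
  have hi : i ∉ y := fun h => Finset.notMem_erase i Finset.univ (Finset.mem_powerset.mp hy h)
  rw [hf y hi, Finset.card_insert_of_notMem hi, pow_succ]
  ring

variable {p : ℕ} [hp : Fact p.Prime]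

section cube
variable {ι Γ : Type*} [Fintype ι] [DecidableEq ι] [Fintype Γ] {N : ℕ}

/-- the augmentation ideal of the group ring over `𝔽_p` of `(ℤ/p^N)^Γ` is nilpotent -/
theorem augI_pow_eq_bot [Nonempty Γ] :
    (augI (ZMod p) (Multiplicative (Γ → ZMod (p ^ N)))) ^ (Fintype.card Γ * p ^ N) = ⊥ := by
  classical
  have hq : 0 < p ^ N := Nat.pow_pos hp.out.pos
  have : NeZero (p ^ N) := ⟨hq.ne'⟩
  let g : Γ → Multiplicative (Γ → ZMod (p ^ N)) := fun i => Multiplicative.ofAdd (Pi.single i 1)
  have hcl : Subgroup.closure (Set.range g) = ⊤ := by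
    rw [eq_top_iff]
    intro v _
    have h1 : v = ∏ i, g i ^ ((Multiplicative.toAdd v i).val) := by
      apply Multiplicative.toAdd.injective
      rw [toAdd_prod]
      funext j
      rw [Finset.sum_apply, Finset.sum_eq_single j]
      · rw [toAdd_pow]
        simp [g]
      · intro i _ hij
        rw [toAdd_pow]
        simp [g, Pi.single_eq_of_ne hij.symm]
      · intro h
        exact absurd (Finset.mem_univ j) h
    rw [h1]
    exact Subgroup.prod_mem _ fun i _ =>
      Subgroup.pow_mem _ (Subgroup.subset_closure (Set.mem_range_self i)) _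
  have h1 := augI_le_span (R := ZMod p) hcl
  rw [← Set.range_comp, ← Set.image_univ, ← Finset.coe_univ] at h1
  rw [eq_bot_iff]
  refine (Ideal.pow_right_mono h1 _).trans ?_
  rw [← Finset.card_univ, span_pow_eq_bot Finset.univ_nonempty]
  intro i _
  have : CharP (MonoidAlgebra (ZMod p) (Multiplicative (Γ → ZMod (p ^ N)))) p :=
    charP_of_injective_algebraMap
      (FaithfulSMul.algebraMap_injective (ZMod p)
        (MonoidAlgebra (ZMod p) (Multiplicative (Γ → ZMod (p ^ N))))) p
  show (of (ZMod p) _ (g i) - 1) ^ p ^ N = 0
  rw [sub_pow_char_pow, one_pow, ← map_pow]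
  have h2 : g i ^ p ^ N = 1 := by
    apply Multiplicative.toAdd.injective
    rw [toAdd_pow]
    funext j
    simp
  rw [h2, map_one, sub_self]

/-- **Zeros of functions of small degree on the cube.** -/
theorem cube_zero [Nonempty Γ] {d : ℕ} (hd : 1 ≤ d) (b : Finset ι → Γ → ZMod (p ^ N))
    (h0 : b ∅ = 0) (hb : ∀ A, d < A.card → b A = 0)
    (hc : d * (Fintype.card Γ * p ^ N) ≤ Fintype.card ι) :
    ∃ y : Finset ι, y ≠ ∅ ∧ ∑ A ∈ y.powerset, b A = 0 := by
  classical
  by_contra hcon
  push Not at hcon
  set M := Multiplicative (Γ → ZMod (p ^ N)) with hM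
  let τ : (Γ → ZMod (p ^ N)) → MonoidAlgebra (ZMod p) M := fun v =>
    of (ZMod p) M (Multiplicative.ofAdd v)
  have hτ : ∀ s : Finset (Finset ι), τ (∑ A ∈ s, b A) = ∏ A ∈ s, τ (b A) := by
    intro s
    show of (ZMod p) M (Multiplicative.ofAdd (∑ A ∈ s, b A)) = _
    rw [ofAdd_sum, map_prod]
  let u : Finset ι → MonoidAlgebra (ZMod p) M := fun A => τ (b A) - 1
  have hu0 : u ∅ = 0 := by
    show τ (b ∅) - 1 = 0
    rw [h0]
    show of (ZMod p) M (Multiplicative.ofAdd 0) - 1 = 0
    rw [ofAdd_zero, map_one, sub_self]
  have hub : ∀ A, d < A.card → u A = 0 := by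
    intro A hA
    show τ (b A) - 1 = 0
    rw [hb A hA]
    show of (ZMod p) M (Multiplicative.ofAdd 0) - 1 = 0
    rw [ofAdd_zero, map_one, sub_self]
  have huJ : ∀ A, u A ∈ augI (ZMod p) M := fun A => of_sub_one_mem _
  have hS : ∑ y : Finset ι, (-1) ^ y.card * τ (∑ A ∈ y.powerset, b A) = 0 := by
    have h1 : ∀ y : Finset ι, τ (∑ A ∈ y.powerset, b A) =
        ∑ s : Finset (Finset ι), if s ⊆ y.powerset then ∏ A ∈ s, u A else 0 := by
      intro y
      rw [hτ]
      have h2 : ∏ A ∈ y.powerset, τ (b A) = ∏ A ∈ y.powerset, (1 + u A) :=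
        Finset.prod_congr rfl fun A _ => by show _ = 1 + (τ (b A) - 1); ring
      rw [h2, Finset.prod_one_add, ← Finset.sum_filter]
      refine Finset.sum_congr ?_ fun _ _ => rfl
      ext s
      rw [Finset.mem_powerset, Finset.mem_filter]
      exact ⟨fun h => ⟨Finset.mem_univ _, h⟩, fun h => h.2⟩
    rw [Finset.sum_congr rfl fun y _ => by rw [h1 y, Finset.mul_sum], Finset.sum_comm]
    refine Finset.sum_eq_zero fun s _ => ?_
    by_cases h2 : ∃ i, ∀ A ∈ s, i ∉ A
    · obtain ⟨i, hi⟩ := h2
      refine alt_sum_eq_zero _ i fun y hy => ?_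
      have h3 : s ⊆ (insert i y).powerset ↔ s ⊆ y.powerset := by
        constructor
        · intro h A hA
          rw [Finset.mem_powerset]
          have h4 := Finset.mem_powerset.mp (h hA)
          intro j hj
          rcases Finset.mem_insert.mp (h4 hj) with rfl | h5
          · exact absurd hj (hi A hA)
          · exact h5
        · intro h A hA
          rw [Finset.mem_powerset]
          exact (Finset.mem_powerset.mp (h hA)).trans (Finset.subset_insert i y)
      simp only [h3]
    · push Not at h2
      have h4 : ∏ A ∈ s, u A = 0 := by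
        by_cases h5 : ∃ A ∈ s, d < A.card
        · obtain ⟨A, hA, hA'⟩ := h5
          exact Finset.prod_eq_zero hA (hub A hA')
        · push Not at h5
          have h6 : Fintype.card ι ≤ s.card * d := by
            have h7 : (Finset.univ : Finset ι) ⊆ s.biUnion id := by
              intro i _
              obtain ⟨A, hA, hi⟩ := h2 i
              exact Finset.mem_biUnion.mpr ⟨A, hA, hi⟩
            calc Fintype.card ι = (Finset.univ : Finset ι).card := Finset.card_univ.symm
              _ ≤ (s.biUnion id).card := Finset.card_le_card h7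
              _ ≤ s.card * d := Finset.card_biUnion_le_card_mul s id d h5
          have h8 : Fintype.card Γ * p ^ N ≤ s.card := by
            have h9 := hc.trans h6
            rw [mul_comm s.card d] at h9
            exact Nat.le_of_mul_le_mul_left h9 (by omega)
          have h10 : ∏ A ∈ s, u A ∈ augI (ZMod p) M ^ s.card := by
            have h11 : ∀ t : Finset (Finset ι), ∏ A ∈ t, u A ∈ augI (ZMod p) M ^ t.card := by
              intro t
              induction t using Finset.induction_on with
              | empty => simp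
              | insert a t ha ih =>
                rw [Finset.prod_insert ha, Finset.card_insert_of_notMem ha, pow_succ']
                exact Ideal.mul_mem_mul (huJ a) ih
            exact h11 s
          have h12 := Ideal.pow_le_pow_right h8 h10
          rw [augI_pow_eq_bot] at h12
          exact h12
      refine Finset.sum_eq_zero fun y _ => ?_
      rw [h4]
      split_ifs <;> simp
  have hco : (∑ y : Finset ι, (-1) ^ y.card * τ (∑ A ∈ y.powerset, b A)).coeff 1 = 1 := by
    rw [← Finset.add_sum_erase _ _ (Finset.mem_univ (∅ : Finset ι))]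
    have h1 : ∀ y : Finset ι, ((-1 : MonoidAlgebra (ZMod p) M) ^ y.card *
        τ (∑ A ∈ y.powerset, b A)) = single (Multiplicative.ofAdd (∑ A ∈ y.powerset, b A))
          ((-1) ^ y.card : ZMod p) := by
      intro y
      rcases Nat.even_or_odd y.card with h | h
      · rw [h.neg_one_pow, h.neg_one_pow, one_mul]
        rfl
      · rw [h.neg_one_pow, h.neg_one_pow, neg_one_mul, MonoidAlgebra.single_neg]
        rfl
    have h2 : ∀ y : Finset ι, y ∈ (Finset.univ : Finset (Finset ι)).erase ∅ →
        ((single (Multiplicative.ofAdd (∑ A ∈ y.powerset, b A))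
          ((-1) ^ y.card : ZMod p) : MonoidAlgebra (ZMod p) M)).coeff 1 = 0 := by
      intro y hy
      rw [MonoidAlgebra.coeff_single, Finsupp.single_eq_of_ne]
      intro h
      have h2 : y.Nonempty := Finset.nonempty_iff_ne_empty.mpr (Finset.ne_of_mem_erase hy)
      exact hcon y h2 (Multiplicative.ofAdd.injective (h.symm.trans ofAdd_zero.symm))
    rw [Finset.sum_congr rfl fun y _ => h1 y, h1 ∅, MonoidAlgebra.coeff_add, Finsupp.add_apply,
      MonoidAlgebra.coeff_sum, Finsupp.finsetSum_apply, Finset.sum_congr rfl h2,
      Finset.sum_const_zero, add_zero]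
    rw [MonoidAlgebra.coeff_single, Finset.powerset_empty, Finset.sum_singleton, h0, ofAdd_zero,
        Finsupp.single_eq_same]
    simp
  rw [hS] at hco
  simp at hco

end cube

end MTate
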