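import Mathlib
import Pool.Agent.Lib.MP_5deabe_nt.Cube
import Pool.Agent.Lib.MP_5deabe_nt.Main

/-!
# Zeros on the cube for images of group ring elements
-/

namespace MTate

open MonoidAlgebra

variable {p : ℕ} [hp : Fact p.Prime]
variable {ι : Type*} [Fintype ι] [DecidableEq ι] {H G₀ C : Type*} [CommGroup H] [CommGroup G₀]
  [CommGroup C] {n : ℕ}

/-- the element `(1, c) - 1` of `ℤ_p[G₀ × C]` -/
noncomputable def zz (p : ℕ) [Fact p.Prime] (G₀ : Type*) [CommGroup G₀] {C : Type*} [CommGroup C]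
    (c : C) : MonoidAlgebra ℤ_[p] (G₀ × C) := of ℤ_[p] (G₀ × C) (1, c) - 1

theorem zz_mem (c : C) : zz p G₀ c ∈ augI ℤ_[p] (G₀ × C) := of_sub_one_mem _

theorem pow_mul_zz {c : C} (hc : c ^ p ^ n = 1) (j : ℕ) :
    algebraMap ℤ_[p] (MonoidAlgebra ℤ_[p] (G₀ × C))
    ((p : ℤ_[p]) ^ (n * j)) * zz p G₀ c ∈ augI ℤ_[p] (G₀ × C) ^ (j + 1) := by
  have h1 : ((1, c) : G₀ × C) ^ p ^ n = 1 := by
    rw [Prod.pow_mk, one_pow, hc]
    rfl
  obtain ⟨w, hw⟩ := nsmul_sub_one_mem (R := ℤ_[p]) h1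
  have h2 : ∀ j : ℕ, (((p ^ n : ℕ) : MonoidAlgebra ℤ_[p] (G₀ × C))) ^ j * zz p G₀ c =
      zz p G₀ c ^ (j + 1) * w ^ j := by
    intro j
    induction j with
    | zero => simp
    | succ j ih =>
      have h3 : ((p ^ n : ℕ) : MonoidAlgebra ℤ_[p] (G₀ × C)) * zz p G₀ c =
        zz p G₀ c ^ 2 * w := hw
      calc _ = ((p ^ n : ℕ) : MonoidAlgebra ℤ_[p] (G₀ × C)) *
            ((((p ^ n : ℕ) : MonoidAlgebra ℤ_[p] (G₀ × C))) ^ j * zz p G₀ c) := by ring
        _ = (((p ^ n : ℕ) : MonoidAlgebra ℤ_[p] (G₀ × C)) * zz p G₀ c) *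
            (zz p G₀ c ^ j * w ^ j) := by rw [ih]; ring
        _ = _ := by rw [h3]; ring
  have h3 : algebraMap ℤ_[p] (MonoidAlgebra ℤ_[p] (G₀ × C)) ((p : ℤ_[p]) ^ (n * j)) =
      (((p ^ n : ℕ) : MonoidAlgebra ℤ_[p] (G₀ × C))) ^ j := by
    rw [pow_mul, map_pow, map_pow, map_natCast]
    push_cast
    rfl
  rw [h3, h2]
  exact Ideal.mul_mem_right _ _ (Ideal.pow_mem_pow (zz_mem c) _)

omit [Fintype ι] in
theorem exists_beta (π : H →* G₀) (ψ : ι → H →* C) (x : MonoidAlgebra ℤ_[p] H) :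
    ∃ β : Finset ι → MonoidAlgebra ℤ_[p] (G₀ × C),
      (∀ y : Finset ι, push (π.prod (∏ i ∈ y, ψ i)) x = ∑ A ∈ y.powerset, β A) ∧
      β ∅ = push (MonoidHom.inl G₀ C) (push π x) ∧
      (∀ A, A ≠ ∅ → β A ∈ Ideal.span (Set.range (zz p G₀ (C := C)))) ∧
      ∀ A, β A ∈ augI ℤ_[p] (G₀ × C) ^ A.card := by
  induction x using MonoidAlgebra.induction_linear with
  | zero =>
    refine ⟨fun _ => 0, fun y => by simp, by simp, fun _ _ => Ideal.zero_mem _,
      fun _ => Ideal.zero_mem _⟩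
  | add a b ha hb =>
    obtain ⟨β, h1, h2, h3, h4⟩ := ha
    obtain ⟨β', h1', h2', h3', h4'⟩ := hb
    refine ⟨fun A => β A + β' A, fun y => ?_, ?_, fun A hA => ?_, fun A => ?_⟩
    · rw [map_add, h1, h1', Finset.sum_add_distrib]
    · show β ∅ + β' ∅ = _
      rw [map_add, map_add, h2, h2']
    · exact Ideal.add_mem _ (h3 A hA) (h3' A hA)
    · exact Ideal.add_mem _ (h4 A) (h4' A)
  | single h a =>
    refine ⟨fun A => algebraMap ℤ_[p] _ a * of ℤ_[p] (G₀ × C) (π h, 1) *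
      ∏ i ∈ A, (of ℤ_[p] (G₀ × C) (1, ψ i h) - 1), fun y => ?_, ?_, fun A hA => ?_,
      fun A => ?_⟩
    · rw [← Finset.mul_sum]
      have h1 : ∑ A ∈ y.powerset, ∏ i ∈ A, (of ℤ_[p] (G₀ × C) (1, ψ i h) - 1) =
          ∏ i ∈ y, of ℤ_[p] (G₀ × C) (1, ψ i h) := by
        rw [← Finset.prod_one_add]
        refine Finset.prod_congr rfl fun i _ => ?_
        ring
      rw [h1, ← map_prod, mul_assoc, ← map_mul, push_single]
      have h2 : (π.prod (∏ i ∈ y, ψ i)) h = (π h, 1) * ∏ i ∈ y, ((1, ψ i h) : G₀ × C) := by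
        refine Prod.ext ?_ ?_
        · rw [Prod.fst_mul, Prod.fst_prod]
          simp
        · rw [Prod.snd_mul, Prod.snd_prod]
          simp [MonoidHom.finsetProd_apply]
      rw [h2]
      simp [MonoidAlgebra.single_mul_single]
    · show (algebraMap ℤ_[p] _ a * of ℤ_[p] (G₀ × C) (π h, 1) *
        ∏ i ∈ (∅ : Finset ι), (of ℤ_[p] (G₀ × C) (1, ψ i h) - 1)) = _
      rw [Finset.prod_empty, mul_one, push_single, push_single]
      simp [MonoidAlgebra.single_mul_single]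
    · obtain ⟨i, hi⟩ := Finset.nonempty_iff_ne_empty.mpr hA
      refine Ideal.mul_mem_left _ _ (Ideal.mem_of_dvd _ (Finset.dvd_prod_of_mem _ hi) ?_)
      exact Ideal.subset_span ⟨ψ i h, rfl⟩
    · refine Ideal.mul_mem_left _ _ ?_
      induction A using Finset.induction_on with
      | empty => simp
      | insert i A hi ih =>
        rw [Finset.prod_insert hi, Finset.card_insert_of_notMem hi, pow_succ']
        exact Ideal.mul_mem_mul (of_sub_one_mem _) ih

theorem exists_mul_of_coeff_dvd {G : Type*} [CommGroup G] {q : ℤ_[p]}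
    {W : MonoidAlgebra ℤ_[p] G} (h : ∀ g, q ∣ W.coeff g) :
    ∃ V : MonoidAlgebra ℤ_[p] G, W = algebraMap ℤ_[p] _ q * V := by
  choose c hc using h
  refine ⟨W.coeff.sum fun g _ => single g (c g), ?_⟩
  conv_lhs => rw [← MonoidAlgebra.sum_coeff_single W]
  unfold Finsupp.sum
  rw [Finset.mul_sum]
  refine Finset.sum_congr rfl fun g _ => ?_
  rw [hc g]
  simp [MonoidAlgebra.single_mul_single]

/-- **Zeros on the cube for images of group ring elements.** -/
theorem cube_push [Finite G₀] [Finite C] (hC : ∀ c : C, c ^ p ^ n = 1) (π : H →* G₀)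
    (ψ : ι → H →* C) {x : MonoidAlgebra ℤ_[p] H}
    {d : ℕ} (hd : 1 ≤ d) (hx : push π x ∈ augI ℤ_[p] G₀ ^ (d + 1))
    (hc : d * (Nat.card (C × G₀ × C) * p ^ (n * d)) ≤ Fintype.card ι) :
    ∃ y : Finset ι, y ≠ ∅ ∧
      push (π.prod (∏ i ∈ y, ψ i)) x ∈ augI ℤ_[p] (G₀ × C) ^ (d + 1) := by
  classical
  have : Fintype C := Fintype.ofFinite _
  have : Fintype G₀ := Fintype.ofFinite _
  obtain ⟨β, h1, h2, h3, h4⟩ := exists_beta π ψ x
  have h3' : ∀ A : Finset ι, ∃ w : C → MonoidAlgebra ℤ_[p] (G₀ × C),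
      A ≠ ∅ → β A = ∑ c, w c * zz p G₀ c := by
    intro A
    by_cases hA : A = ∅
    · exact ⟨0, fun h => absurd hA h⟩
    · obtain ⟨w, hw⟩ := (Ideal.mem_span_range_iff_exists_fun).mp (h3 A hA)
      exact ⟨w, fun _ => hw.symm⟩
  choose w hw using h3'
  let b : Finset ι → (C × G₀ × C) → ZMod (p ^ (n * d)) := fun A g =>
    if A = ∅ ∨ d < A.card then 0 else PadicInt.toZModPow (n * d) ((w A g.1).coeff g.2)
  obtain ⟨y, hy, hy0⟩ := cube_zero (p := p) hd b (by funext g; simp [b])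
    (fun A hA => by funext g; simp [b, hA]) (by rwa [Nat.card_eq_fintype_card] at hc)
  refine ⟨y, hy, ?_⟩
  rw [h1]
  -- split the sum
  have h5 : ∑ A ∈ y.powerset, β A = β ∅ +
      (∑ A ∈ y.powerset.filter (fun A => A ≠ ∅ ∧ d < A.card), β A) +
      ∑ c, (∑ A ∈ y.powerset.filter (fun A => A ≠ ∅ ∧ ¬ d < A.card), w A c) * zz p G₀ c := by
    have h6 : y.powerset = {∅} ∪ (y.powerset.filter (fun A => A ≠ ∅ ∧ d < A.card) ∪
        y.powerset.filter (fun A => A ≠ ∅ ∧ ¬ d < A.card)) := by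
      ext A
      simp only [Finset.mem_union, Finset.mem_singleton, Finset.mem_filter, Finset.mem_powerset]
      by_cases hA : A = ∅
      · simp [hA]
      · by_cases h : d < A.card <;> simp [hA, h]
    conv_lhs => rw [h6]
    rw [Finset.sum_union, Finset.sum_union, Finset.sum_singleton, add_assoc]
    · congr 2
      rw [Finset.sum_congr rfl fun A hA => hw A (Finset.mem_filter.mp hA).2.1, Finset.sum_comm]
      refine Finset.sum_congr rfl fun c _ => ?_
      rw [Finset.sum_mul]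
    · rw [Finset.disjoint_left]
      intro A hA hA'
      exact (Finset.mem_filter.mp hA').2.2 (Finset.mem_filter.mp hA).2.2
    · rw [Finset.disjoint_left]
      intro A hA hA'
      rw [Finset.mem_singleton] at hA
      rcases Finset.mem_union.mp hA' with h | h
      · exact (Finset.mem_filter.mp h).2.1 hA
      · exact (Finset.mem_filter.mp h).2.1 hA
  rw [h5]
  refine Ideal.add_mem _ (Ideal.add_mem _ ?_ ?_) ?_
  · rw [h2]
    exact push_mem _ hx
  · refine Ideal.sum_mem _ fun A hA => ?_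
    exact Ideal.pow_le_pow_right (Finset.mem_filter.mp hA).2.2 (h4 A)
  · refine Ideal.sum_mem _ fun c _ => ?_
    set W := ∑ A ∈ y.powerset.filter (fun A => A ≠ ∅ ∧ ¬ d < A.card), w A c with hW
    have h7 : ∀ g, (p : ℤ_[p]) ^ (n * d) ∣ W.coeff g := by
      intro g
      have h8 := congrFun hy0 (c, g)
      rw [Finset.sum_apply, Pi.zero_apply] at h8
      have h9 : ∑ A ∈ y.powerset, b A (c, g) = PadicInt.toZModPow (n * d) (W.coeff g) := by
        rw [hW, MonoidAlgebra.coeff_sum, Finsupp.finsetSum_apply, map_sum, Finset.sum_filter]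
        refine Finset.sum_congr rfl fun A _ => ?_
        by_cases h : A = ∅ ∨ d < A.card
        · have h' : ¬ (A ≠ ∅ ∧ ¬ d < A.card) := by tauto
          rw [if_neg h']
          exact if_pos h
        · have h' : A ≠ ∅ ∧ ¬ d < A.card := by tauto
          rw [if_pos h']
          exact if_neg h
      rw [h9] at h8
      have h10 : W.coeff g ∈ RingHom.ker (PadicInt.toZModPow (p := p) (n * d)) := h8
      rw [PadicInt.ker_toZModPow, Ideal.mem_span_singleton] at h10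
      exact h10
    obtain ⟨V, hV⟩ := exists_mul_of_coeff_dvd h7
    rw [hV, mul_assoc, mul_comm V, ← mul_assoc]
    exact Ideal.mul_mem_right _ _ (pow_mul_zz (hC c) d)

end MTate
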