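import Mathlib
import Pool.Agent.Lib.MP_5deabe_nt.CubePush
import Pool.Agent.Lib.MP_5deabe_nt.Chain

/-!
# Counting homomorphisms
-/

namespace MTate

open MonoidAlgebra

variable {p : ℕ} [hp : Fact p.Prime]

/-- preimages under surjective homomorphisms -/
theorem card_preimage {A V : Type*} [CommGroup A] [CommGroup V] [Fintype A] [Fintype V]
    [DecidableEq V] (φ : A →* V) (hφ : Function.Surjective φ) (S : Finset V) :
    (Finset.univ.filter fun a => φ a ∈ S).card * Fintype.card V = S.card * Fintype.card A := by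
  have h1 : ∀ T : Finset V, (Finset.univ.filter fun a => φ a ∈ T).card =
      T.card * (Finset.univ.filter fun a => φ a = 1).card := by
    intro T
    have h2 : ∀ a ∈ (Finset.univ.filter fun a => φ a ∈ T), φ a ∈ T := by
      intro a ha
      exact (Finset.mem_filter.mp ha).2
    rw [Finset.card_eq_sum_card_fiberwise h2, Finset.sum_congr rfl, Finset.sum_const, smul_eq_mul]
    intro v hv
    have h3 : (Finset.univ.filter fun a => φ a ∈ T).filter (fun a => φ a = v) =
        Finset.univ.filter fun a => φ a = v := by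
      ext a
      simp only [Finset.mem_filter, Finset.mem_univ, true_and]
      constructor
      · exact fun h => h.2
      · intro h
        exact ⟨h ▸ hv, h⟩
    rw [h3]
    obtain ⟨b, hb⟩ := hφ v
    refine Finset.card_bij' (fun a _ => a * b⁻¹) (fun a _ => a * b) ?_ ?_ ?_ ?_
    · intro a ha
      have := (Finset.mem_filter.mp ha).2
      simp [this, hb]
    · intro a ha
      have := (Finset.mem_filter.mp ha).2
      simp [this, hb]
    · intro a _
      simp
    · intro a _
      simp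
  have h4 := h1 Finset.univ
  have h5 : (Finset.univ.filter fun a => φ a ∈ (Finset.univ : Finset V)) = Finset.univ := by
    ext a
    simp
  rw [h5, Finset.card_univ, Finset.card_univ] at h4
  rw [h1 S, h4]
  ring

/-- averaging -/
theorem card_le_of_cube {V : Type*} [CommGroup V] [Finite V] (Good : V → Prop) (B : ℕ)
    (h : ∀ v : Fin B → V, ∃ y : Finset (Fin B), y ≠ ∅ ∧ Good (∏ i ∈ y, v i)) :
    Nat.card V ≤ (2 ^ B - 1) * Nat.card {v // Good v} := by
  classical
  have : Fintype V := Fintype.ofFinite V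
  rw [Nat.card_eq_fintype_card, Nat.card_eq_fintype_card, Fintype.card_subtype]
  set S : Finset V := Finset.univ.filter fun v => Good v with hS
  let φ : Finset (Fin B) → (Fin B → V) →* V := fun y =>
    { toFun := fun v => ∏ i ∈ y, v i
      map_one' := by simp
      map_mul' := fun v w => by simp [Finset.prod_mul_distrib] }
  have hφ : ∀ y, y ≠ ∅ → Function.Surjective (φ y) := by
    intro y hy a
    obtain ⟨i, hi⟩ := Finset.nonempty_iff_ne_empty.mpr hy
    refine ⟨Function.update 1 i a, ?_⟩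
    show ∏ j ∈ y, Function.update (1 : Fin B → V) i a j = a
    rw [Finset.prod_eq_single i]
    · simp
    · intro j _ hj
      rw [Function.update_of_ne hj]
      rfl
    · intro h
      exact absurd hi h
  have h1 : (Finset.univ : Finset (Fin B → V)) ⊆
      (Finset.univ.filter fun y : Finset (Fin B) => y ≠ ∅).biUnion
        fun y => Finset.univ.filter fun v => φ y v ∈ S := by
    intro v _
    obtain ⟨y, hy, hv⟩ := h v
    refine Finset.mem_biUnion.mpr ⟨y, by simp [hy], ?_⟩
    simp only [Finset.mem_filter, Finset.mem_univ, true_and, hS]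
    exact hv
  have h2 := (Finset.card_le_card h1).trans Finset.card_biUnion_le
  have h3 : (Finset.univ : Finset (Fin B → V)).card * Fintype.card V ≤
      ∑ y ∈ Finset.univ.filter (fun y : Finset (Fin B) => y ≠ ∅),
        S.card * Fintype.card (Fin B → V) := by
    refine (Nat.mul_le_mul_right _ h2).trans ?_
    rw [Finset.sum_mul]
    refine Finset.sum_le_sum fun y hy => ?_
    exact (card_preimage (φ y) (hφ y (Finset.mem_filter.mp hy).2) S).le
  rw [Finset.sum_const, smul_eq_mul, Finset.card_univ] at h3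
  have h4 : (Finset.univ.filter fun y : Finset (Fin B) => y ≠ ∅).card = 2 ^ B - 1 := by
    rw [Finset.filter_ne', Finset.card_erase_of_mem (Finset.mem_univ _), Finset.card_univ,
      Fintype.card_finset, Fintype.card_fin]
  rw [h4] at h3
  have h5 : 0 < Fintype.card (Fin B → V) := Fintype.card_pos
  have h6 : Fintype.card (Fin B → V) * Fintype.card V ≤
      Fintype.card (Fin B → V) * ((2 ^ B - 1) * S.card) := by
    refine h3.trans (le_of_eq ?_)
    ring
  exact Nat.le_of_mul_le_mul_left h6 h5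

/-- homomorphisms to a cyclic group of odd order factor through `G_m⁺` -/
theorem exists_hom_Gp (hp2 : p ≠ 2) {m n : ℕ} (φ0 : Gm m →* Cpn p n) :
    ∃ φ : Gp m →* Cpn p n, ∀ a, φ (toGp m a) = φ0 a := by
  have hφ1 : φ0 (-1) = 1 := by
    apply Cpn_sq hp2
    rw [← map_pow]
    simp
  refine ⟨QuotientGroup.lift (Subgroup.zpowers (-1 : Gm m)) φ0 ?_, fun a => rfl⟩
  intro a ha
  obtain ⟨j, rfl⟩ := Subgroup.mem_zpowers_iff.mp ha
  rw [MonoidHom.mem_ker, map_zpow, hφ1, one_zpow]

omit hp in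
theorem gam_pow_eq_iff {n : ℕ} (a b : ℕ) : gam p n ^ a = gam p n ^ b ↔ a ≡ b [MOD p ^ n] := by
  rw [← ZMod.natCast_eq_natCast_iff]
  constructor
  · intro h
    have h1 := congrArg Multiplicative.toAdd h
    rw [toAdd_pow, toAdd_pow] at h1
    have h2 : Multiplicative.toAdd (gam p n) = 1 := rfl
    rw [h2, nsmul_eq_mul, nsmul_eq_mul, mul_one, mul_one] at h1
    exact h1
  · intro h
    apply Multiplicative.toAdd.injective
    rw [toAdd_pow, toAdd_pow]
    have h2 : Multiplicative.toAdd (gam p n) = 1 := rfl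
    rw [h2, nsmul_eq_mul, nsmul_eq_mul, mul_one, mul_one]
    exact h

/-- the values of a homomorphism which is not surjective -/
theorem dvd_of_not_surjective {G : Type*} [CommGroup G] {n : ℕ} {ψ : G →* Cpn p n}
    (h : ¬ Function.Surjective ψ) {g : G} {a : ℕ} (ha : ψ g = gam p n ^ a) : p ∣ a := by
  by_contra hpa
  apply h
  intro y
  obtain ⟨k, hk⟩ := gam_pow_gen (n := n) ((Nat.Prime.coprime_iff_not_dvd hp.out).mpr hpa) y
  exact ⟨g ^ k, by rw [map_pow, ha, hk]⟩

theorem finite_hom {m : ℕ} (hm : m ≠ 0) (C : Type*) [CommGroup C] [Finite C] :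
    Finite (Gp m →* C) := by
  have := finite_Gp hm
  exact DFunLike.finite _

omit hp in
/-- homomorphisms from a cyclic group -/
theorem exists_hom_Cpn {C : Type*} [CommGroup C] {n : ℕ} {a : C} (ha : a ^ p ^ n = 1) :
    ∃ φ : Cpn p n →* C, φ (gam p n) = a := by
  let f : ℤ →+ Additive C := zmultiplesHom (Additive C) (Additive.ofMul a)
  have hf : f ((p ^ n : ℕ) : ℤ) = 0 := by
    show ((p ^ n : ℕ) : ℤ) • Additive.ofMul a = 0
    rw [natCast_zsmul, ← ofMul_pow, ha]
    rfl
  refine ⟨AddMonoidHom.toMultiplicativeLeft (ZMod.lift (p ^ n) ⟨f, hf⟩), ?_⟩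
  show Additive.toMul (ZMod.lift (p ^ n) ⟨f, hf⟩ (1 : ZMod (p ^ n))) = a
  have h1 := ZMod.lift_coe (p ^ n) ⟨f, hf⟩ 1
  rw [Int.cast_one] at h1
  rw [h1]
  show Additive.toMul ((1 : ℤ) • Additive.ofMul a) = a
  rw [one_zsmul]
  rfl

/-- most homomorphisms are surjective -/
theorem card_not_surjective (hp2 : p ≠ 2) {t n : ℕ} (hsq : Squarefree t)
    (h : ∀ l ∈ t.primeFactors, p ^ n ∣ l - 1) {C : Type*} [CommGroup C] [Finite C]
    (hC : ∀ c : C, c ^ p ^ n = 1) :
    Nat.card {ψ : Gp t →* C // ¬ Function.Surjective ψ} * p ^ t.primeFactors.card ≤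
      Nat.card (Gp t →* C) * 2 ^ Nat.card C := by
  classical
  have hf := finite_hom hsq.ne_zero C
  obtain ⟨c, -, -, -, -, hc⟩ := exists_gens (p := p) hsq
  have h1 : ∀ (a : C) (u : t.primeFactors → Fin p), ∃ φ : Gp t →* C,
      ∀ i, φ (toGp t (c i)) = a ^ (u i : ℕ) := by
    intro a u
    obtain ⟨φ0, h0⟩ := hc n (fun i => h i.1 i.2) (fun i => (u i : ℕ))
    obtain ⟨φ, hφ⟩ := exists_hom_Gp hp2 φ0
    obtain ⟨φ1, h1⟩ := exists_hom_Cpn (hC a)
    exact ⟨φ1.comp φ, fun i => by rw [MonoidHom.comp_apply, hφ, h0, map_pow, h1]⟩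
  choose θ hθ using h1
  have h1' : ∀ N : Set C, ∃ a : C, N ≠ Set.univ → a ∉ N := by
    intro N
    by_cases hN : N = Set.univ
    · exact ⟨1, fun h => absurd hN h⟩
    · obtain ⟨a, ha⟩ := (Set.ne_univ_iff_exists_notMem N).mp hN
      exact ⟨a, fun _ => ha⟩
  choose α hα using h1'
  have h2 : Nat.card ({ψ : Gp t →* C // ¬ Function.Surjective ψ} ×
      (t.primeFactors → Fin p)) =
      Nat.card {ψ : Gp t →* C // ¬ Function.Surjective ψ} * p ^ t.primeFactors.card := by
    rw [Nat.card_prod, Nat.card_fun, Nat.card_eq_fintype_card (α := Fin p), Fintype.card_fin,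
      Nat.card_eq_fintype_card (α := t.primeFactors), Fintype.card_coe]
  have h3 : Nat.card ((Gp t →* C) × Set C) = Nat.card (Gp t →* C) * 2 ^ Nat.card C := by
    have : Fintype C := Fintype.ofFinite C
    rw [Nat.card_prod, Nat.card_eq_fintype_card (α := Set C), Fintype.card_set,
      Nat.card_eq_fintype_card (α := C)]
  rw [← h2, ← h3]
  refine Nat.card_le_card_of_injective
    (fun q : {ψ : Gp t →* C // ¬ Function.Surjective ψ} × (t.primeFactors → Fin p) =>
      (q.1.1 * θ (α (Set.range q.1.1)) q.2, Set.range q.1.1)) ?_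
  rintro ⟨⟨ψ, hψ⟩, u⟩ ⟨⟨ψ', hψ'⟩, u'⟩ heq
  have hr : Set.range ψ = Set.range ψ' := congrArg Prod.snd heq
  have heq' : ψ * θ (α (Set.range ψ)) u = ψ' * θ (α (Set.range ψ')) u' := congrArg Prod.fst heq
  rw [← hr] at heq'
  have ha : α (Set.range ψ) ∉ Set.range ψ := hα _ (fun h => hψ (Set.range_eq_univ.mp h))
  set a := α (Set.range ψ) with hadef
  have hlt : ∀ v v' : Fin p, (∃ g g' : Gp t, ψ g * a ^ (v : ℕ) = ψ' g' * a ^ (v' : ℕ)) →
      (v : ℕ) ≤ v' := by
    rintro v v' ⟨g, g', hg⟩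
    by_contra hlt
    push Not at hlt
    obtain ⟨g₁, hg₁⟩ : ψ' g' ∈ Set.range ψ := by rw [hr]; exact ⟨g', rfl⟩
    rw [← hg₁] at hg
    obtain ⟨k, hk⟩ := Nat.exists_eq_add_of_lt hlt
    have h4 : a ^ (k + 1) = ψ (g⁻¹ * g₁) := by
      rw [map_mul, map_inv, eq_inv_mul_iff_mul_eq]
      rw [hk, add_assoc, pow_add, mul_left_comm] at hg
      have := mul_left_cancel (hg.trans (mul_comm _ _))
      exact this
    have h5 : (k + 1).Coprime (p ^ n) := by
      refine Nat.Coprime.pow_right n (Nat.Coprime.symm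
        ((Nat.Prime.coprime_iff_not_dvd hp.out).mpr fun hd => ?_))
      have := Nat.le_of_dvd (by omega) hd
      have := v.2
      omega
    obtain ⟨j, hj⟩ := exists_pow_eq_self_of_coprime (x := a)
      (h5.coprime_dvd_right (orderOf_dvd_of_pow_eq_one (hC a)))
    apply ha
    refine ⟨(g⁻¹ * g₁) ^ j, ?_⟩
    rw [map_pow, ← h4, hj]
  have hu : u = u' := by
    funext i
    have h3 := DFunLike.congr_fun heq' (toGp t (c i))
    rw [MonoidHom.mul_apply, MonoidHom.mul_apply, hθ, hθ] at h3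
    refine Fin.ext (le_antisymm (hlt _ _ ⟨_, _, h3⟩) ?_)
    obtain ⟨g, hg⟩ : ψ (toGp t (c i)) ∈ Set.range ψ' := by rw [← hr]; exact ⟨_, rfl⟩
    obtain ⟨g', hg'⟩ : ψ' (toGp t (c i)) ∈ Set.range ψ := by rw [hr]; exact ⟨_, rfl⟩
    refine hlt _ _ ⟨g', g, ?_⟩
    rw [hg, hg', ← h3]
  subst hu
  have := mul_right_cancel heq'
  subst this
  rfl

/-- the Chinese remainder theorem for `G_m⁺` -/
theorem Gp_surjective_pair {m t : ℕ} (hc : m.Coprime t) (a : Gp m) (b : Gp t) :
    ∃ g : Gp (m * t), res (Dvd.intro t rfl) g = a ∧ res (Dvd.intro_left m rfl) g = b := by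
  obtain ⟨a', rfl⟩ := toGp_surjective m a
  obtain ⟨b', rfl⟩ := toGp_surjective t b
  obtain ⟨g, hg⟩ := (crt_bijective (m := m * t) rfl hc).2 (a', b')
  refine ⟨toGp _ g, ?_, ?_⟩
  · rw [res_toGp]
    exact congrArg (toGp m) (congrArg Prod.fst hg)
  · rw [res_toGp]
    exact congrArg (toGp t) (congrArg Prod.snd hg)

end MTate
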