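import Mathlib
import Pool.Agent.Lib.MP_5deabe_nt.Avg

/-!
# Determining sets of homomorphisms to a cyclic group of order `p ^ n`
-/

namespace MTate

open MonoidAlgebra

variable {p : ℕ} [hp : Fact p.Prime]

/-- a form which is divisible by `p ^ n` on a set which determines the forms modulo `p` is
divisible by `p ^ n` -/
theorem dvd_coeff_of_eval {ι : Type} {k : ℕ} {T : Set (ι → ℕ)}
    (hS : ∀ F : MvPolynomial ι (ZMod p), F.IsHomogeneous k →
      (∀ u ∈ T, MvPolynomial.eval (fun i => (u i : ZMod p)) F = 0) → F = 0)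
    (n : ℕ) {F : MvPolynomial ι ℤ_[p]} (hF : F.IsHomogeneous k)
    (h : ∀ u ∈ T, (p : ℤ_[p]) ^ n ∣ MvPolynomial.eval (fun i => (u i : ℤ_[p])) F) (d : ι →₀ ℕ) :
    (p : ℤ_[p]) ^ n ∣ F.coeff d := by
  induction n generalizing F with
  | zero => simp
  | succ n ih =>
    have h1 : MvPolynomial.map (PadicInt.toZMod (p := p)) F = 0 := by
      refine hS _ (hF.map _) fun u hu => ?_
      have h2 : (p : ℤ_[p]) ∣ MvPolynomial.eval (fun i => (u i : ℤ_[p])) F :=
        (dvd_pow_self _ (Nat.succ_ne_zero n)).trans (h u hu)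
      have h3 : MvPolynomial.eval (fun i => (u i : ZMod p))
          (MvPolynomial.map (PadicInt.toZMod (p := p)) F) =
          PadicInt.toZMod (MvPolynomial.eval (fun i => (u i : ℤ_[p])) F) := by
        rw [MvPolynomial.eval_map, MvPolynomial.eval, MvPolynomial.coe_eval₂Hom,
          MvPolynomial.hom_eval₂]
        congr 1
        funext i
        simp
      rw [h3]
      obtain ⟨c, hc⟩ := h2
      rw [hc, map_mul, map_natCast, CharP.cast_eq_zero, zero_mul]
    have h2 : ∀ d, (p : ℤ_[p]) ∣ F.coeff d := by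
      intro d
      have h3 : PadicInt.toZMod (F.coeff d) = 0 := by
        rw [← MvPolynomial.coeff_map, h1, MvPolynomial.coeff_zero]
      have h4 : F.coeff d ∈ RingHom.ker (PadicInt.toZMod (p := p)) := h3
      rw [PadicInt.ker_toZMod, PadicInt.maximalIdeal_eq_span_p, Ideal.mem_span_singleton] at h4
      exact h4
    obtain ⟨F', hF'⟩ := (MvPolynomial.C_dvd_iff_dvd_coeff _ F).mpr h2
    have hp0 : (p : ℤ_[p]) ≠ 0 := by
      exact_mod_cast hp.out.ne_zero
    have h3 : F'.IsHomogeneous k := by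
      intro e he
      refine hF ?_
      rw [hF', MvPolynomial.coeff_C_mul]
      exact mul_ne_zero hp0 he
    have h4 : (p : ℤ_[p]) ^ n ∣ F'.coeff d := ih h3 fun u hu => by
      have h5 := h u hu
      rw [hF', map_mul, MvPolynomial.eval_C, pow_succ'] at h5
      exact (mul_dvd_mul_iff_left hp0).mp h5
    rw [hF', MvPolynomial.coeff_C_mul, pow_succ']
    exact mul_dvd_mul_left _ h4

/-- forms divisible by `p ^ n` in elements of order dividing `p ^ n` -/
theorem Phi_mem_succ {ι : Type} {G : Type*} [CommGroup G] {g : ι → G} {n : ℕ}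
    (hg : ∀ i, g i ^ p ^ n = 1) {k : ℕ} (hk : 1 ≤ k) {F : MvPolynomial ι ℤ_[p]}
    (hF : F.IsHomogeneous k) (h : ∀ d, (p : ℤ_[p]) ^ n ∣ F.coeff d) :
    Phi g F ∈ augI ℤ_[p] G ^ (k + 1) := by
  classical
  have hPhi : Phi g F = ∑ d ∈ F.support, algebraMap ℤ_[p] _ (F.coeff d) *
      ∏ i ∈ d.support, (of ℤ_[p] G (g i) - 1) ^ d i := by
    unfold Phi
    rw [MvPolynomial.aeval_def, MvPolynomial.eval₂_eq]
  rw [hPhi]
  refine Ideal.sum_mem _ fun d hd => ?_
  have hdeg := homog_deg hF hd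
  have hne : d.support.Nonempty := by
    rw [Finset.nonempty_iff_ne_empty]
    intro h0
    rw [h0, Finset.sum_empty] at hdeg
    omega
  obtain ⟨i0, hi0⟩ := hne
  obtain ⟨c, hc⟩ := h d
  have h5 : algebraMap ℤ_[p] (MonoidAlgebra ℤ_[p] G) ((p : ℤ_[p]) ^ n) *
      (of ℤ_[p] G (g i0) - 1) ∈ augI ℤ_[p] G ^ 2 := by
    obtain ⟨w, hw⟩ := nsmul_sub_one_mem (R := ℤ_[p]) (hg i0)
    have h6 : algebraMap ℤ_[p] (MonoidAlgebra ℤ_[p] G) ((p : ℤ_[p]) ^ n) =
        ((p ^ n : ℕ) : MonoidAlgebra ℤ_[p] G) := by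
      rw [map_pow, map_natCast]
      push_cast
      rfl
    rw [h6, hw]
    exact Ideal.mul_mem_right _ _ (Ideal.pow_mem_pow (of_sub_one_mem _) 2)
  have hd0 : d i0 ≠ 0 := Finsupp.mem_support_iff.mp hi0
  have h6 : algebraMap ℤ_[p] (MonoidAlgebra ℤ_[p] G) (F.coeff d) *
      ∏ i ∈ d.support, (of ℤ_[p] G (g i) - 1) ^ d i =
      algebraMap ℤ_[p] _ c * ((algebraMap ℤ_[p] (MonoidAlgebra ℤ_[p] G) ((p : ℤ_[p]) ^ n) *
        (of ℤ_[p] G (g i0) - 1)) * ((of ℤ_[p] G (g i0) - 1) ^ (d i0 - 1) *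
        ∏ i ∈ d.support.erase i0, (of ℤ_[p] G (g i) - 1) ^ d i)) := by
    rw [hc, map_mul, ← Finset.mul_prod_erase _ _ hi0]
    have h7 : (of ℤ_[p] G (g i0) - 1) ^ d i0 = (of ℤ_[p] G (g i0) - 1) *
        (of ℤ_[p] G (g i0) - 1) ^ (d i0 - 1) := by
      rw [← pow_succ']
      congr 1
      omega
    rw [h7]
    ring
  rw [h6]
  refine Ideal.mul_mem_left _ _ ?_
  have h8 : k + 1 = 2 + (d i0 - 1 + ∑ i ∈ d.support.erase i0, d i) := by
    have := Finset.add_sum_erase d.support (fun i => d i) hi0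
    have h9 : d i0 + ∑ i ∈ d.support.erase i0, d i = k := by rw [← hdeg]; exact this
    omega
  rw [h8, pow_add, pow_add]
  refine Ideal.mul_mem_mul h5 (Ideal.mul_mem_mul (Ideal.pow_mem_pow (of_sub_one_mem _) _) ?_)
  exact (Cong.prod (I := augI ℤ_[p] G) (d.support.erase i0) (fun i => d i)
    (fun i => (of ℤ_[p] G (g i) - 1) ^ d i) (fun i => (of ℤ_[p] G (g i) - 1) ^ d i)
    (fun i _ => (⟨Ideal.pow_mem_pow (of_sub_one_mem _) _, by simp⟩ : Cong _ _ _ _))).1

/-- the standard generators of `(ℤ/p ^ n) ^ ι` -/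
def eg (p n : ℕ) {ι : Type} [DecidableEq ι] (i : ι) : ι → Cpn p n := Pi.mulSingle i (gam p n)

omit hp in
theorem gam_pow_card (n : ℕ) : gam p n ^ p ^ n = 1 := by
  have h := (gam_pow_eq_iff (p := p) (n := n) (p ^ n) 0).mpr (by simp [Nat.ModEq])
  rwa [pow_zero] at h

omit hp in
theorem Cpn_pow_card {n : ℕ} (c : Cpn p n) : c ^ p ^ n = 1 := by
  apply Multiplicative.toAdd.injective
  rw [toAdd_pow]
  simp

theorem gam_pow_val {n : ℕ} (c : Cpn p n) : ∃ j : ℕ, gam p n ^ j = c := by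
  obtain ⟨k, hk⟩ := gam_pow_gen (p := p) (n := n) (Nat.coprime_one_right p) c
  exact ⟨k, by rw [← hk, pow_one]⟩

theorem eg_closure {ι : Type} [Fintype ι] [DecidableEq ι] (n : ℕ) :
    Subgroup.closure (Set.range (eg p n (ι := ι))) = ⊤ := by
  rw [eq_top_iff]
  intro v _
  have h1 : v = ∏ i, Pi.mulSingle i (v i) := (Finset.univ_prod_mulSingle v).symm
  rw [h1]
  refine prod_mem fun i _ => ?_
  obtain ⟨j, hj⟩ := gam_pow_val (v i)
  rw [← hj, Pi.mulSingle_pow]
  exact pow_mem (Subgroup.subset_closure (Set.mem_range_self i)) _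

omit hp in
/-- homomorphisms from `(ℤ/p ^ n) ^ ι` with given values -/
theorem exists_hom_pi {ι : Type} [Fintype ι] [DecidableEq ι] {C : Type*} [CommGroup C] {n : ℕ}
    (a : ι → C) (ha : ∀ i, a i ^ p ^ n = 1) :
    ∃ ω : (ι → Cpn p n) →* C, ∀ i, ω (eg p n i) = a i := by
  choose φ hφ using fun i => exists_hom_Cpn (ha i)
  refine ⟨∏ i, (φ i).comp (Pi.evalMonoidHom (fun _ => Cpn p n) i), fun i => ?_⟩
  rw [MonoidHom.finsetProd_apply, Finset.prod_eq_single i]
  · rw [MonoidHom.comp_apply]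
    show φ i (eg p n i i) = a i
    unfold eg
    rw [Pi.mulSingle_eq_same, hφ]
  · intro j _ hj
    rw [MonoidHom.comp_apply]
    show φ j (eg p n i j) = 1
    unfold eg
    rw [Pi.mulSingle_eq_of_ne hj, map_one]
  · intro h
    exact absurd (Finset.mem_univ i) h

/-- **The core lemma.** -/
theorem core {ι : Type} [Fintype ι] [DecidableEq ι] {n r : ℕ} (hr : r < p)
    {x : MonoidAlgebra ℤ_[p] (ι → Cpn p n)} {T : Set (ι → ℕ)} (hne : T.Nonempty)
    (hS : ∀ k ≤ r, ∀ F : MvPolynomial ι (ZMod p), F.IsHomogeneous k →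
      (∀ u ∈ T, MvPolynomial.eval (fun i => (u i : ZMod p)) F = 0) → F = 0)
    (hx : ∀ u ∈ T, ∃ φ : (ι → Cpn p n) →* Cpn p n, (∀ i, φ (eg p n i) = gam p n ^ u i) ∧
      push φ x ∈ augI ℤ_[p] (Cpn p n) ^ (r + 1)) :
    x ∈ augI ℤ_[p] (ι → Cpn p n) ^ (r + 1) := by
  have key : ∀ k, k ≤ r + 1 → x ∈ augI ℤ_[p] (ι → Cpn p n) ^ k := by
    intro k
    induction k with
    | zero => intro _; simp
    | succ k ih =>
      intro hk
      have h1 := ih (by omega)
      rcases Nat.eq_zero_or_pos k with rfl | hk0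
      · obtain ⟨u, hu⟩ := hne
        obtain ⟨φ, -, h2⟩ := hx u hu
        have h3 := Ideal.pow_le_pow_right (show 1 ≤ r + 1 by omega) h2
        rw [pow_one, mem_augI, eps_push] at h3
        rw [zero_add, pow_one, mem_augI]
        exact h3
      · obtain ⟨F, hF, hF'⟩ := exists_homog (eg_closure (p := p) (ι := ι) n) k h1
        have h2 : ∀ u ∈ T, (p : ℤ_[p]) ^ n ∣ MvPolynomial.eval (fun i => (u i : ℤ_[p])) F := by
          intro u hu
          obtain ⟨φ, hφ, h3⟩ := hx u hu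
          refine eval_dvd_of_push (by omega) hF φ u hφ ?_
          have h4 : push φ (Phi (eg p n) F) = push φ x - push φ (x - Phi (eg p n) F) := by
            rw [map_sub]; ring
          rw [h4]
          exact Ideal.sub_mem _ (Ideal.pow_le_pow_right hk h3) (push_mem φ hF')
        have h3 := dvd_coeff_of_eval (hS k (by omega)) n hF h2
        have h4 := Phi_mem_succ (g := eg p n (ι := ι)) (n := n) (fun i => by
          unfold eg
          rw [← Pi.mulSingle_pow, gam_pow_card, Pi.mulSingle_one]) hk0 hF h3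
        have : x = (x - Phi (eg p n) F) + Phi (eg p n) F := by ring
        rw [this]
        exact Ideal.add_mem _ hF' h4
  exact key _ le_rfl

end MTate
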