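import Mathlib
import Pool.Agent.Lib.MP_5deabe_nt.Chain

/-!
# Q1 for the fields of given conductor in terms of the modular element of `ℚ(ζ_M)⁺`
-/

namespace MTate

open MonoidAlgebra

variable {p : ℕ} [hp : Fact p.Prime] {D : MTData}

namespace MTData

/-- the defect and the fields of given conductor -/
theorem exists_defect' (hD : D.Valid p) {M : ℕ} (hM : D.Adm p M) (hI : D.Integral p M)
    (hP : D.Pairing p M) : ∃ x : MonoidAlgebra ℤ_[p] (Gp M),
      ∀ (d : ℕ) (hd : d ∣ M) (G : Type) [CommGroup G] [Finite G] (f : Gp d →* G),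
        IsField d f → (D.Q1 p d f ↔ push (f.comp (res hd)) x ∈ augI ℤ_[p] G ^ (D.r + 1)) := by
  obtain ⟨θ, hθ⟩ := exists_theta hD hM hI
  obtain ⟨n, hn, hn'⟩ := hP.ext
  have hA : D.Compat p M (D.r + 1) (D.rhs p n) := compat_reg hM
  refine ⟨θ - D.rhs p n M (Gp M) (MonoidHom.id (Gp M)), fun d hd G _ _ f hf =>
    ⟨fun hQ => ?_, fun h => ?_⟩⟩
  · have h1 := (hQ.stmt hn fun j => (hn' j).of_dvd hd).up_dvd hM hA hd dvd_rfl
    exact push_sub_mem hA hθ h1
  · obtain ⟨θ', hθ'⟩ := hI d hd G f hf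
    refine Stmt.q1 hP hd hn (fun j => (hn' j).of_dvd hd) ?_
    refine Stmt.down_dvd hM hA hθ' hd dvd_rfl ?_
    refine ⟨push (f.comp (res hd)) θ, ?_, ?_⟩
    · have := hθ.push' (f.comp (res hd))
      rwa [MonoidHom.comp_id] at this
    · rw [map_sub, hA.comp, MonoidHom.comp_id] at h
      exact h

end MTData

end MTate
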