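import Mathlib

/-!
# Forms which vanish on a simplex lattice
-/

namespace MTate

open MvPolynomial

variable {p : ℕ} [hp : Fact p.Prime] {ι : Type} [Fintype ι] [DecidableEq ι]

/-- the value of a form in terms of its coefficients -/
theorem eval_homog {r : ℕ} {F : MvPolynomial ι (ZMod p)} (hF : F.IsHomogeneous r)
    (x : ι → ZMod p) : eval x F =
      ∑ d ∈ Finset.finsuppAntidiag (Finset.univ : Finset ι) r, F.coeff d * ∏ i, x i ^ d i := by
  rw [eval_eq']
  refine Finset.sum_subset ?_ ?_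
  · intro d hd
    rw [Finset.mem_finsuppAntidiag]
    refine ⟨?_, Finset.subset_univ _⟩
    have h := hF (mem_support_iff.mp hd)
    rw [Finsupp.weight_apply] at h
    simp only [Pi.one_apply, smul_eq_mul, mul_one] at h
    rw [Finsupp.sum_fintype _ _ (fun _ => rfl)] at h
    exact h
  · intro d _ hd
    rw [notMem_support_iff.mp hd, zero_mul]

/-- the linear form `∑ v_i⁻¹ X_i` -/
noncomputable def lamF (v : ι → ZMod p) : MvPolynomial ι (ZMod p) := ∑ i, C (v i)⁻¹ * X i

omit [DecidableEq ι] in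
theorem lamF_homog (v : ι → ZMod p) : (lamF v).IsHomogeneous 1 :=
  IsHomogeneous.sum _ _ _ fun _ _ => isHomogeneous_C_mul_X _ _

omit [DecidableEq ι] in
theorem lamF_eval {v : ι → ZMod p} (hv : ∀ i, v i ≠ 0) (a : ι → ℕ) :
    eval (fun i => v i * (a i : ZMod p)) (lamF v) = ((∑ i, a i : ℕ) : ZMod p) := by
  unfold lamF
  rw [map_sum]
  push_cast
  refine Finset.sum_congr rfl fun i _ => ?_
  rw [map_mul, eval_C, eval_X, ← mul_assoc, inv_mul_cancel₀ (hv i), one_mul]

/-- the form which is nonzero at exactly one point of the lattice -/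
noncomputable def LF (v : ι → ZMod p) (r : ℕ) (b : ι → ℕ) : MvPolynomial ι (ZMod p) :=
  ∏ i, ∏ j ∈ Finset.range (b i), (C ((r : ZMod p) * (v i)⁻¹) * X i - C (j : ZMod p) * lamF v)

theorem LF_homog (v : ι → ZMod p) (r : ℕ) (b : ι → ℕ) :
    (LF v r b).IsHomogeneous (∑ i, b i) := by
  refine IsHomogeneous.prod _ _ _ fun i _ => ?_
  have h : (∏ j ∈ Finset.range (b i), (C ((r : ZMod p) * (v i)⁻¹) * X i -
      C (j : ZMod p) * lamF v)).IsHomogeneous (∑ _j ∈ Finset.range (b i), 1) := by
    refine IsHomogeneous.prod _ _ _ fun j _ => ?_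
    refine (isHomogeneous_C_mul_X _ _).sub ?_
    have := (isHomogeneous_C ι (j : ZMod p)).mul (lamF_homog v)
    rwa [zero_add] at this
  rwa [Finset.sum_const, Finset.card_range, smul_eq_mul, mul_one] at h

theorem LF_eval {v : ι → ZMod p} (hv : ∀ i, v i ≠ 0) {r : ℕ} (b a : ι → ℕ)
    (ha : ∑ i, a i = r) : eval (fun i => v i * (a i : ZMod p)) (LF v r b) =
      ∏ i, ∏ j ∈ Finset.range (b i), (r : ZMod p) * ((a i : ZMod p) - j) := by
  unfold LF
  rw [map_prod]
  refine Finset.prod_congr rfl fun i _ => ?_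
  rw [map_prod]
  refine Finset.prod_congr rfl fun j _ => ?_
  rw [map_sub, eval_mul, eval_mul, eval_C, eval_X, eval_C, lamF_eval hv, ha]
  have h : (r : ZMod p) * (v i)⁻¹ * (v i * (a i : ZMod p)) = r * a i := by
    rw [mul_assoc, ← mul_assoc (v i)⁻¹, inv_mul_cancel₀ (hv i), one_mul]
  rw [h]
  ring

theorem natCast_ne_zero {j : ℕ} (h0 : 0 < j) (h : j < p) : (j : ZMod p) ≠ 0 := by
  intro hj
  rw [ZMod.natCast_eq_zero_iff] at hj
  exact absurd (Nat.le_of_dvd h0 hj) (by omega)

/-- forms of degree `r < p` are determined by their values on the lattice -/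
theorem form_eq_zero {r : ℕ} (hr1 : 1 ≤ r) (hr : r < p) {v : ι → ZMod p} (hv : ∀ i, v i ≠ 0)
    {F : MvPolynomial ι (ZMod p)} (hF : F.IsHomogeneous r)
    (h : ∀ a : ι → ℕ, ∑ i, a i = r → eval (fun i => v i * (a i : ZMod p)) F = 0) : F = 0 := by
  classical
  set A := Finset.finsuppAntidiag (Finset.univ : Finset ι) r with hA
  have hA' : ∀ a : A, ∑ i, (a : ι →₀ ℕ) i = r := fun a =>
    (Finset.mem_finsuppAntidiag.mp a.2).1
  let E : (A → ZMod p) →ₗ[ZMod p] (A → ZMod p) :=
    { toFun := fun c b => ∑ a : A, c a * ∏ i, (v i * ((b : ι →₀ ℕ) i : ZMod p)) ^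
        (a : ι →₀ ℕ) i
      map_add' := fun c c' => by
        funext b
        simp [add_mul, Finset.sum_add_distrib]
      map_smul' := fun z c => by
        funext b
        simp [mul_assoc, Finset.mul_sum] }
  have hE : ∀ G : MvPolynomial ι (ZMod p), G.IsHomogeneous r → ∀ b : A,
      E (fun a => G.coeff a) b = eval (fun i => v i * ((b : ι →₀ ℕ) i : ZMod p)) G := by
    intro G hG b
    rw [eval_homog hG]
    show ∑ a : A, G.coeff a * ∏ i, (v i * ((b : ι →₀ ℕ) i : ZMod p)) ^ (a : ι →₀ ℕ) i = _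
    exact Finset.sum_coe_sort A (fun a => G.coeff a *
      ∏ i, (v i * ((b : ι →₀ ℕ) i : ZMod p)) ^ a i)
  have hsurj : Function.Surjective E := by
    rw [← LinearMap.range_eq_top, Submodule.eq_top_iff']
    intro w
    rw [pi_eq_sum_univ w]
    refine Submodule.sum_mem _ fun b _ => Submodule.smul_mem _ _ ?_
    have hLh : (LF v r fun i => (b : ι →₀ ℕ) i).IsHomogeneous r := by
      have := LF_homog v r fun i => (b : ι →₀ ℕ) i
      rwa [hA' b] at this
    set q : ZMod p := ∏ i, ∏ j ∈ Finset.range ((b : ι →₀ ℕ) i), (r : ZMod p) *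
      (((b : ι →₀ ℕ) i : ZMod p) - j) with hq
    have hq0 : q ≠ 0 := by
      refine Finset.prod_ne_zero_iff.mpr fun i _ => Finset.prod_ne_zero_iff.mpr fun j hj => ?_
      have hj' := Finset.mem_range.mp hj
      refine mul_ne_zero (natCast_ne_zero hr1 hr) ?_
      rw [← Nat.cast_sub hj'.le]
      refine natCast_ne_zero (by omega) ?_
      have := Finset.single_le_sum (f := fun i => (b : ι →₀ ℕ) i) (fun _ _ => Nat.zero_le _)
        (Finset.mem_univ i)
      have h2 := hA' b
      have h3 : (b : ι →₀ ℕ) i ≤ r := by rw [← h2]; exact this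
      omega
    refine ⟨q⁻¹ • fun a : A => (LF v r fun i => (b : ι →₀ ℕ) i).coeff a, ?_⟩
    rw [map_smul]
    funext a
    show q⁻¹ * E _ a = _
    rw [hE _ hLh, LF_eval hv _ _ (hA' a)]
    by_cases hab : b = a
    · subst hab
      rw [if_pos rfl, ← hq, inv_mul_cancel₀ hq0]
    · rw [if_neg hab]
      have h1 : ∃ i, (a : ι →₀ ℕ) i < (b : ι →₀ ℕ) i := by
        by_contra hcon
        push Not at hcon
        apply hab
        apply Subtype.ext
        apply Finsupp.ext
        intro i
        exact (Finset.sum_eq_sum_iff_of_le fun i _ => hcon i).mp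
          ((hA' b).trans (hA' a).symm) i (Finset.mem_univ i)
      obtain ⟨i, hi⟩ := h1
      rw [Finset.prod_eq_zero (Finset.mem_univ i), mul_zero]
      rw [Finset.prod_eq_zero (Finset.mem_range.mpr hi)]
      rw [sub_self, mul_zero]
  have hinj : Function.Injective E := LinearMap.injective_iff_surjective.mpr hsurj
  have h0 : E (fun a => F.coeff a) = 0 := by
    funext b
    rw [hE F hF]
    exact h _ (hA' b)
  have h1 : (fun a : A => F.coeff a) = 0 := hinj (by rw [h0, map_zero])
  apply MvPolynomial.ext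
  intro d
  rw [coeff_zero]
  by_contra hd
  have h2 : d ∈ A := by
    rw [hA, Finset.mem_finsuppAntidiag]
    refine ⟨?_, Finset.subset_univ _⟩
    have h3 := hF hd
    rw [Finsupp.weight_apply] at h3
    simp only [Pi.one_apply, smul_eq_mul, mul_one] at h3
    rw [Finsupp.sum_fintype _ _ (fun _ => rfl)] at h3
    exact h3
  exact hd (congrFun h1 ⟨d, h2⟩)

/-- the same for forms of smaller degree -/
theorem form_eq_zero' {r : ℕ} (hr1 : 1 ≤ r) (hr : r < p) {v : ι → ZMod p}
    (hv : ∀ i, v i ≠ 0) {k : ℕ} (hk : k ≤ r) {F : MvPolynomial ι (ZMod p)}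
    (hF : F.IsHomogeneous k) (hne : Nonempty ι)
    (h : ∀ a : ι → ℕ, ∑ i, a i = r → eval (fun i => v i * (a i : ZMod p)) F = 0) : F = 0 := by
  have h1 : F * lamF v ^ (r - k) = 0 := by
    refine form_eq_zero hr1 hr hv ?_ fun a ha => by rw [map_mul, h a ha, zero_mul]
    have := hF.mul ((lamF_homog v).pow (r - k))
    rwa [one_mul, Nat.add_sub_cancel' hk] at this
  rcases mul_eq_zero.mp h1 with h2 | h2
  · exact h2
  · exfalso
    obtain ⟨i⟩ := hne
    have h4 := lamF_eval hv (Pi.single i r)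
    have h5 : eval (fun j => v j * ((Pi.single i r : ι → ℕ) j : ZMod p))
        (lamF v ^ (r - k)) = 0 := by rw [h2, map_zero]
    rw [map_pow, h4, Finset.sum_pi_single'] at h5
    simp only [Finset.mem_univ, if_true] at h5
    exact natCast_ne_zero hr1 hr (eq_zero_of_pow_eq_zero h5)

end MTate
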