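import Mathlib
import Pool.Agent.Lib.MP_5deabe_nt.Avg

/-!
# Q1 for a positive proportion of the fields with a given Galois group
-/

namespace MTate

open MonoidAlgebra

variable {p : ℕ} [hp : Fact p.Prime] {D : MTData}

theorem four_le (hD : D.Valid p) : 4 ≤ p := by
  have h6 : p.Coprime 6 := by
    have h := hD.good
    exact Nat.Coprime.coprime_dvd_right (by
      rw [mul_assoc, mul_assoc, mul_assoc]
      exact Dvd.intro _ rfl) h
  have h2 := hp.out.two_le
  by_contra hlt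
  have h4 : p = 2 ∨ p = 3 := by omega
  rcases h4 with rfl | rfl <;> revert h6 <;> decide

/-- the counting at the end -/
theorem count_end {V GS NS Gd s B c q : ℕ} (h1 : V ≤ (2 ^ B - 1) * Gd) (h2 : Gd ≤ GS + NS)
    (h3 : NS * q ^ s ≤ V * 2 ^ c) (hq : 4 ≤ q) (hB : 1 ≤ B) (hc : c ≤ B) (hs : 2 * B ≤ s) :
    V ≤ 2 ^ B * GS := by
  obtain ⟨a, ha⟩ : ∃ a, 2 ^ B = a + 1 := ⟨2 ^ B - 1, by
    have := Nat.one_le_two_pow (n := B)
    omega⟩
  have ha1 : 1 ≤ a := by
    have : 2 ^ 1 ≤ 2 ^ B := Nat.pow_le_pow_right (by norm_num) hB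
    omega
  have h4 : NS * ((a + 1) * (a + 1)) ≤ V := by
    have h5 : NS * ((a + 1) * (a + 1)) * 2 ^ B ≤ V * 2 ^ B := by
      calc NS * ((a + 1) * (a + 1)) * 2 ^ B = NS * 2 ^ (3 * B) := by
            rw [← ha]
            ring
        _ ≤ NS * q ^ s := by
            refine Nat.mul_le_mul_left _ ?_
            calc 2 ^ (3 * B) ≤ 2 ^ (2 * s) := Nat.pow_le_pow_right (by norm_num) (by omega)
              _ = 4 ^ s := by rw [pow_mul]; norm_num
              _ ≤ q ^ s := Nat.pow_le_pow_left hq s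
        _ ≤ V * 2 ^ c := h3
        _ ≤ V * 2 ^ B := Nat.mul_le_mul_left _ (Nat.pow_le_pow_right (by norm_num) hc)
    exact Nat.le_of_mul_le_mul_right h5 (Nat.pow_pos (by norm_num))
  rw [ha, Nat.add_sub_cancel] at h1
  rw [ha]
  have h5 : V ≤ a * (GS + NS) := h1.trans (Nat.mul_le_mul_left _ h2)
  have h6 : a * V ≤ a * ((a + 1) * GS) := by
    nlinarith [Nat.zero_le NS, Nat.zero_le GS]
  exact Nat.le_of_mul_le_mul_left h6 (by omega)

namespace MTData

theorem positive_proportion (hD : D.Valid p) (hr : 1 ≤ D.r) {m t : ℕ}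
    (hM : D.Adm p (m * t)) (hI : D.Integral p (m * t)) (hP : D.Pairing p (m * t))
    {G : Type} [CommGroup G] {f : Gp m →* G} (hf : IsField m f) (hQ : D.Q1 p m f)
    {C : Type} [CommGroup C] [Finite C] {n : ℕ} (hC : ∀ c : C, c ^ p ^ n = 1)
    (ht : ∀ l ∈ t.primeFactors, p ^ n ∣ l - 1) {B : ℕ}
    (hB : B = D.r * Nat.card G * Nat.card C ^ 2 * p ^ (n * D.r))
    (hs : 2 * B ≤ t.primeFactors.card) :
    Nat.card {ψ : Gp t →* C // Function.Surjective ψ} ≤
      2 ^ B * Nat.card {ψ : Gp t →* C // Function.Surjective ψ ∧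
        D.Q1At p (m * t) ((f.comp (res (Dvd.intro t rfl))).prod
          (ψ.comp (res (Dvd.intro_left m rfl))))} := by
  classical
  have hsq := Nat.squarefree_mul_iff.mp hM.1
  have hm0 : m ≠ 0 := hsq.2.1.ne_zero
  have ht0 : t ≠ 0 := hsq.2.2.ne_zero
  have hfG : Finite G := by
    have := finite_Gp hm0
    exact Finite.of_surjective f hf.1
  have hV := finite_hom ht0 C
  obtain ⟨x, hx⟩ := exists_defect hD hM hI hP
  set π : Gp (m * t) →* G := f.comp (res (Dvd.intro t rfl)) with hπ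
  set ρ : Gp (m * t) →* Gp t := res (Dvd.intro_left m rfl) with hρ
  have hπs : Function.Surjective π :=
    hf.1.comp (res_surjective (mul_ne_zero hm0 ht0) _)
  have hx0 : push π x ∈ augI ℤ_[p] G ^ (D.r + 1) :=
    (hx G π hπs).mp ⟨m, Dvd.intro t rfl, f, hf, rfl, hQ⟩
  have hGpos : 0 < Nat.card G := Nat.card_pos
  have hCpos : 0 < Nat.card C := Nat.card_pos
  have hcB : Nat.card C ≤ B := by
    have h1 : 0 < D.r * Nat.card G * Nat.card C * p ^ (n * D.r) :=
      Nat.mul_pos (Nat.mul_pos (Nat.mul_pos hr hGpos) hCpos) (Nat.pow_pos hp.out.pos)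
    calc Nat.card C = Nat.card C * 1 := (mul_one _).symm
      _ ≤ Nat.card C * (D.r * Nat.card G * Nat.card C * p ^ (n * D.r)) :=
        Nat.mul_le_mul_left _ h1
      _ = B := by rw [hB]; ring
  have hB1 : 1 ≤ B := le_trans hCpos hcB
  have h1 := card_le_of_cube (V := Gp t →* C)
    (fun ψ => push (π.prod (ψ.comp ρ)) x ∈ augI ℤ_[p] (G × C) ^ (D.r + 1)) B (by
    intro v
    obtain ⟨y, hy, hy'⟩ := cube_push hC π (fun i => (v i).comp ρ) hr hx0 (by
      rw [Fintype.card_fin, Nat.card_prod, Nat.card_prod, hB]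
      apply le_of_eq
      ring)
    refine ⟨y, hy, ?_⟩
    have h2 : (∏ i ∈ y, v i).comp ρ = ∏ i ∈ y, (v i).comp ρ := by
      ext g
      rw [MonoidHom.comp_apply, MonoidHom.finsetProd_apply, MonoidHom.finsetProd_apply]
      rfl
    show push (π.prod ((∏ i ∈ y, v i).comp ρ)) x ∈ _
    rw [h2]
    exact hy')
  have h3 := card_not_surjective hD.ne_two hsq.2.2 ht hC
  have h4 : Nat.card {ψ : Gp t →* C //
      push (π.prod (ψ.comp ρ)) x ∈ augI ℤ_[p] (G × C) ^ (D.r + 1)} ≤
      Nat.card {ψ : Gp t →* C // Function.Surjective ψ ∧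
        D.Q1At p (m * t) (π.prod (ψ.comp ρ))} +
      Nat.card {ψ : Gp t →* C // ¬ Function.Surjective ψ} := by
    rw [← Nat.card_sum]
    refine Nat.card_le_card_of_injective (fun ψ => if h : Function.Surjective ψ.1 then
      Sum.inl ⟨ψ.1, h, (hx _ _ ?_).mpr ψ.2⟩ else Sum.inr ⟨ψ.1, h⟩) ?_
    · rintro ⟨a, b⟩
      obtain ⟨a', ha'⟩ := hf.1 a
      obtain ⟨b', hb'⟩ := h b
      obtain ⟨g, hg1, hg2⟩ := Gp_surjective_pair hsq.1 a' b'
      refine ⟨g, Prod.ext ?_ ?_⟩
      · show f (res _ g) = a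
        rw [hg1, ha']
      · show ψ.1 (res _ g) = b
        rw [hg2, hb']
    · intro ψ ψ' h
      by_cases h1 : Function.Surjective ψ.1 <;> by_cases h2 : Function.Surjective ψ'.1
      · simp only [h1, h2, dif_pos] at h
        exact Subtype.ext (congrArg (fun z => (z : _).1) (Sum.inl.inj h))
      · simp [h1, h2] at h
      · simp [h1, h2] at h
      · simp only [h1, h2, dif_neg, not_false_iff] at h
        exact Subtype.ext (congrArg (fun z => (z : _).1) (Sum.inr.inj h))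
  have h5 : Nat.card {ψ : Gp t →* C // Function.Surjective ψ} ≤ Nat.card (Gp t →* C) :=
    Nat.card_le_card_of_injective _ Subtype.val_injective
  exact h5.trans (count_end h1 h4 h3 (four_le hD) hB1 hcB hs)

end MTData

end MTate
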