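import Mathlib
import Pool.Agent.Lib.MP_5deabe_nt.PosProp
import Pool.Agent.Lib.MP_5deabe_nt.Defect

/-!
# Q1 for a positive proportion of the fields with a given Galois group, as an equivalence
-/

namespace MTate

open MonoidAlgebra

variable {p : ℕ} [hp : Fact p.Prime] {D : MTData}

namespace MTData

theorem positive_proportion_iff (hD : D.Valid p) (hr : 1 ≤ D.r) {m t : ℕ}
    (hM : D.Adm p (m * t)) (hI : D.Integral p (m * t)) (hP : D.Pairing p (m * t))
    {G : Type} [CommGroup G] {f : Gp m →* G} (hf : IsField m f)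
    {C : Type} [CommGroup C] [Finite C] {n : ℕ} (hC : ∀ c : C, c ^ p ^ n = 1)
    (ht : ∀ l ∈ t.primeFactors, p ^ n ∣ l - 1) {B : ℕ}
    (hB : B = D.r * Nat.card G * Nat.card C ^ 2 * p ^ (n * D.r))
    (hs : 2 * B ≤ t.primeFactors.card) :
    D.Q1 p m f ↔ Nat.card {ψ : Gp t →* C // Function.Surjective ψ} ≤
      2 ^ B * Nat.card {ψ : Gp t →* C // Function.Surjective ψ ∧
        D.Q1At p (m * t) ((f.comp (res (Dvd.intro t rfl))).prod
          (ψ.comp (res (Dvd.intro_left m rfl))))} := by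
  refine ⟨fun hQ => positive_proportion hD hr hM hI hP hf hQ hC ht hB hs, fun h => ?_⟩
  have hsq := Nat.squarefree_mul_iff.mp hM.1
  have hm0 : m ≠ 0 := hsq.2.1.ne_zero
  have ht0 : t ≠ 0 := hsq.2.2.ne_zero
  have hfG : Finite G := by
    have := finite_Gp hm0
    exact Finite.of_surjective f hf.1
  have hV := finite_hom ht0 C
  have hGpos : 0 < Nat.card G := Nat.card_pos
  have hCpos : 0 < Nat.card C := Nat.card_pos
  have hVpos : 0 < Nat.card (Gp t →* C) := Nat.card_pos
  have hcB : Nat.card C ≤ B := by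
    have h1 : 0 < D.r * Nat.card G * Nat.card C * p ^ (n * D.r) :=
      Nat.mul_pos (Nat.mul_pos (Nat.mul_pos hr hGpos) hCpos) (Nat.pow_pos hp.out.pos)
    calc Nat.card C = Nat.card C * 1 := (mul_one _).symm
      _ ≤ Nat.card C * (D.r * Nat.card G * Nat.card C * p ^ (n * D.r)) :=
        Nat.mul_le_mul_left _ h1
      _ = B := by rw [hB]; ring
  have hsurj : 0 < Nat.card {ψ : Gp t →* C // Function.Surjective ψ} := by
    rw [Nat.card_pos_iff]
    refine ⟨?_, inferInstance⟩
    by_contra hne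
    have hall : ∀ ψ : Gp t →* C, ¬ Function.Surjective ψ := fun ψ hψ => hne ⟨ψ, hψ⟩
    have h1 := card_not_surjective hD.ne_two hsq.2.2 ht hC
    have h2 : Nat.card {ψ : Gp t →* C // ¬ Function.Surjective ψ} = Nat.card (Gp t →* C) :=
      Nat.card_congr (Equiv.subtypeUnivEquiv hall)
    rw [h2] at h1
    have h3 : p ^ t.primeFactors.card ≤ 2 ^ Nat.card C := Nat.le_of_mul_le_mul_left h1 hVpos
    have h4 : 2 ^ Nat.card C < p ^ t.primeFactors.card := by
      calc 2 ^ Nat.card C < 2 ^ (2 * t.primeFactors.card) :=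
            Nat.pow_lt_pow_right (by norm_num) (by omega)
        _ = 4 ^ t.primeFactors.card := by rw [pow_mul]; norm_num
        _ ≤ p ^ t.primeFactors.card := Nat.pow_le_pow_left (four_le hD) _
    omega
  have hgood : 0 < Nat.card {ψ : Gp t →* C // Function.Surjective ψ ∧
        D.Q1At p (m * t) ((f.comp (res (Dvd.intro t rfl))).prod
          (ψ.comp (res (Dvd.intro_left m rfl))))} := by
    refine Nat.pos_of_ne_zero fun h0 => ?_
    rw [h0, mul_zero] at h
    omega
  rw [Nat.card_pos_iff] at hgood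
  obtain ⟨⟨ψ, -, d, hd, f', hf', hff, hQ⟩, -⟩ := hgood
  obtain ⟨x, hx⟩ := exists_defect' hD hM hI hP
  refine (hx m (Dvd.intro t rfl) G f hf).mpr ?_
  have h1 := (hx d hd _ f' hf').mp hQ
  rw [hff] at h1
  have h2 := push_mem (MonoidHom.fst G C) h1
  rw [push_push] at h2
  exact h2

end MTData

end MTate
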