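import Mathlib
import Pool.Agent.Lib.MP_5deabe_nt.Core

/-!
# A zero-one law for Q1
-/

namespace MTate

open MonoidAlgebra

variable {p : ℕ} [hp : Fact p.Prime]

/-- Schwartz-Zippel over `ℤ/p` -/
theorem sz {ι : Type} [Fintype ι] [DecidableEq ι] {F : MvPolynomial ι (ZMod p)} (hF : F ≠ 0) :
    (Finset.univ.filter fun v : ι → ZMod p => MvPolynomial.eval v F = 0).card * p ≤
      F.totalDegree * p ^ Fintype.card ι := by
  classical
  set s := Fintype.card ι with hs
  let e : ι ≃ Fin s := Fintype.equivFin ι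
  set F' := MvPolynomial.rename e F with hF'
  have hF'0 : F' ≠ 0 := by
    intro h
    apply hF
    apply MvPolynomial.rename_injective e e.injective
    rw [map_zero]
    exact h
  have h1 := MvPolynomial.schwartz_zippel_totalDegree hF'0 (Finset.univ : Finset (ZMod p))
  have hdeg : F'.totalDegree ≤ F.totalDegree := MvPolynomial.totalDegree_rename_le e F
  rw [Finset.card_univ, ZMod.card] at h1
  have h2 : (Finset.filter (fun f => MvPolynomial.eval f F' = 0)
      (Fintype.piFinset fun _ : Fin s => (Finset.univ : Finset (ZMod p)))).card =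
      (Finset.univ.filter fun v : ι → ZMod p => MvPolynomial.eval v F = 0).card := by
    refine Finset.card_bij' (fun f _ => f ∘ e) (fun v _ => v ∘ e.symm) ?_ ?_ ?_ ?_
    · intro f hf
      have h3 := (Finset.mem_filter.mp hf).2
      rw [hF', MvPolynomial.eval_rename] at h3
      simpa using h3
    · intro v hv
      have h3 := (Finset.mem_filter.mp hv).2
      rw [Finset.mem_filter]
      refine ⟨by simp, ?_⟩
      rw [hF', MvPolynomial.eval_rename]
      have : (v ∘ e.symm) ∘ e = v := by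
        funext i
        simp
      rw [this]
      exact h3
    · intro f _
      funext i
      simp
    · intro v _
      funext i
      simp
  rw [h2] at h1
  have hp0 : (0 : ℚ≥0) < p := by
    exact_mod_cast hp.out.pos
  rw [div_le_div_iff₀ (pow_pos hp0 s) hp0] at h1
  have h3 : (Finset.univ.filter fun v : ι → ZMod p => MvPolynomial.eval v F = 0).card * p ≤
      F'.totalDegree * p ^ s := by exact_mod_cast h1
  exact h3.trans (Nat.mul_le_mul_right _ hdeg)

omit hp in
theorem order_pow {n n' k : ℕ} (hk : p.Coprime k) {a : Cpn p n'} (ha : a ^ (p ^ n * k) = 1) :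
    a ^ p ^ n = 1 := by
  have h1 : (a ^ p ^ n) ^ k = 1 := by rw [← pow_mul, ha]
  have h2 : (a ^ p ^ n) ^ p ^ n' = 1 := by rw [Cpn_pow_card]
  have h3 : orderOf (a ^ p ^ n) ∣ Nat.gcd k (p ^ n') :=
    Nat.dvd_gcd (orderOf_dvd_of_pow_eq_one h1) (orderOf_dvd_of_pow_eq_one h2)
  have h4 : Nat.gcd k (p ^ n') = 1 := (Nat.Coprime.pow_left n' hk).symm
  rw [h4] at h3
  exact orderOf_eq_one_iff.mp (Nat.dvd_one.mp h3)

theorem hom_ext_gens {H K : Type*} [CommGroup H] [CommGroup K] {ι : Type*} {g : ι → H}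
    (hg : Subgroup.closure (Set.range g) = ⊤) {f f' : H →* K} (h : ∀ i, f (g i) = f' (g i)) :
    f = f' := by
  refine MonoidHom.eq_of_eqOn_top ?_
  rw [← hg]
  intro x hx
  refine MonoidHom.eqOn_closure (s := Set.range g) ?_ hx
  rintro _ ⟨i, rfl⟩
  exact h i

theorem closure_toGp {m : ℕ} {ι : Type*} {c : ι → Gm m}
    (hc : Subgroup.closure (Set.range c) = ⊤) :
    Subgroup.closure (Set.range fun i => toGp m (c i)) = ⊤ := by
  have h1 : (Set.range fun i => toGp m (c i)) = toGp m '' Set.range c := by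
    rw [← Set.range_comp]
    rfl
  rw [h1, ← MonoidHom.map_closure, hc, ← MonoidHom.range_eq_map,
    MonoidHom.range_eq_top_of_surjective _ (toGp_surjective m)]

/-- membership in a power of the augmentation ideal for all quotients of exponent `p ^ n` -/
theorem all_of_determining (hp2 : p ≠ 2) {t n r : ℕ} (hr : r < p)
    {c : t.primeFactors → Gm t} (hc : Subgroup.closure (Set.range c) = ⊤)
    (hc' : ∀ u : t.primeFactors → ℕ, ∃ φ : Gm t →* Cpn p n, ∀ i, φ (c i) = gam p n ^ u i)
    {T : Set (t.primeFactors → ℕ)} (hne : T.Nonempty)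
    (hT : ∀ k ≤ r, ∀ F : MvPolynomial t.primeFactors (ZMod p), F.IsHomogeneous k →
      (∀ u ∈ T, MvPolynomial.eval (fun i => (u i : ZMod p)) F = 0) → F = 0)
    {x : MonoidAlgebra ℤ_[p] (Gp t)}
    (hx : ∀ u ∈ T, ∃ ψ : Gp t →* Cpn p n, (∀ i, ψ (toGp t (c i)) = gam p n ^ u i) ∧
      push ψ x ∈ augI ℤ_[p] (Cpn p n) ^ (r + 1))
    {G : Type*} [CommGroup G] [Finite G] (f : Gp t →* G)
    (hG : ∃ k, p.Coprime k ∧ ∀ g : G, g ^ (p ^ n * k) = 1) :
    push f x ∈ augI ℤ_[p] G ^ (r + 1) := by
  classical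
  have hcl := closure_toGp hc
  -- the map `κ`
  have h1 : ∃ κ : Gp t →* (t.primeFactors → Cpn p n), ∀ i, κ (toGp t (c i)) = eg p n i := by
    have h2 : ∀ j : t.primeFactors, ∃ φ : Gp t →* Cpn p n, ∀ i, φ (toGp t (c i)) =
        if i = j then gam p n else 1 := by
      intro j
      obtain ⟨φ0, h0⟩ := hc' (fun i => if i = j then 1 else 0)
      obtain ⟨φ, hφ⟩ := exists_hom_Gp hp2 φ0
      refine ⟨φ, fun i => ?_⟩
      rw [hφ, h0]
      by_cases hij : i = j
      · rw [if_pos hij, if_pos hij, pow_one]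
      · rw [if_neg hij, if_neg hij, pow_zero]
    choose φ hφ using h2
    refine ⟨MonoidHom.pi φ, fun i => ?_⟩
    funext j
    show φ j (toGp t (c i)) = _
    rw [hφ]
    unfold eg
    by_cases hij : i = j
    · subst hij
      rw [if_pos rfl, Pi.mulSingle_eq_same]
    · rw [if_neg hij, Pi.mulSingle_eq_of_ne (Ne.symm hij)]
  obtain ⟨κ, hκ⟩ := h1
  have h2 : push κ x ∈ augI ℤ_[p] (t.primeFactors → Cpn p n) ^ (r + 1) := by
    refine core hr hne hT fun u hu => ?_
    obtain ⟨ψ, hψ, hψ'⟩ := hx u hu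
    obtain ⟨φ, hφ⟩ := exists_hom_pi (p := p) (n := n) (fun i => gam p n ^ u i)
      (fun i => Cpn_pow_card _)
    refine ⟨φ, hφ, ?_⟩
    have h3 : φ.comp κ = ψ := hom_ext_gens hcl fun i => by
      rw [MonoidHom.comp_apply, hκ, hφ, hψ]
    rw [push_push, h3]
    exact hψ'
  refine cyc_detect hr fun n' φ => ?_
  obtain ⟨k, hk, hk'⟩ := hG
  obtain ⟨ω, hω⟩ := exists_hom_pi (p := p) (n := n) (fun i => φ (f (toGp t (c i))))
    (fun i => order_pow hk (by rw [← map_pow, hk', map_one]))
  have h3 : φ.comp f = ω.comp κ := hom_ext_gens hcl fun i => by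
    rw [MonoidHom.comp_apply, MonoidHom.comp_apply, hκ, hω]
  rw [push_push, h3, ← push_push]
  exact push_mem ω h2

/-- counting for the zero-one law -/
theorem count_zero_one {V Ss Gd Z q k r p : ℕ} (hV : 0 < V) (h1 : Ss * q = (q - 1) * V)
    (h2 : Gd * q ≤ (Z - 1) * V) (hZ : Z * p ≤ k * q) (hZ1 : 1 ≤ Z) (hkr : k ≤ r) (hrp : r < p)
    (hq : 0 < q) (h : r * Ss ≤ p * Gd) : False := by
  obtain ⟨z, rfl⟩ : ∃ z, Z = z + 1 := ⟨Z - 1, by omega⟩
  obtain ⟨q', rfl⟩ : ∃ q', q = q' + 1 := ⟨q - 1, by omega⟩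
  rw [Nat.add_sub_cancel] at h1 h2
  have h3 : r * q' * V ≤ p * z * V := by
    calc r * q' * V = r * (q' * V) := by ring
      _ = r * Ss * (q' + 1) := by rw [← h1]; ring
      _ ≤ p * Gd * (q' + 1) := Nat.mul_le_mul_right _ h
      _ = p * (Gd * (q' + 1)) := by ring
      _ ≤ p * (z * V) := Nat.mul_le_mul_left _ h2
      _ = p * z * V := by ring
  have h4 : r * q' ≤ p * z := Nat.le_of_mul_le_mul_right h3 hV
  have h5 : k * (q' + 1) ≤ r * (q' + 1) := Nat.mul_le_mul_right _ hkr
  have h6 : (z + 1) * p = p * z + p := by ring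
  have h7 : r * (q' + 1) = r * q' + r := by ring
  omega

namespace MTData

variable {D : MTData}

theorem zero_one (hD : D.Valid p) (hr1 : 1 ≤ D.r) (hr : D.r < p) {t : ℕ} (ht1 : t ≠ 1)
    (hM : D.Adm p t) (hI : D.Integral p t) (hP : D.Pairing p t) {n : ℕ} (hn : 1 ≤ n)
    (ht : ∀ l ∈ t.primeFactors, p ^ n ∣ l - 1)
    (h : D.r * Nat.card {ψ : Gp t →* Cpn p n // Function.Surjective ψ} ≤
      p * Nat.card {ψ : Gp t →* Cpn p n // Function.Surjective ψ ∧ D.Q1At p t ψ})
    {G : Type} [CommGroup G] {f : Gp t →* G} (hf : Function.Surjective f)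
    (hG : ∃ k, p.Coprime k ∧ ∀ g : G, g ^ (p ^ n * k) = 1) : D.Q1At p t f := by
  classical
  have hsq := hM.1
  have ht0 : t ≠ 0 := hsq.ne_zero
  have hfG : Finite G := by
    have := finite_Gp ht0
    exact Finite.of_surjective f hf
  have hfC := Cpn_finite (p := p) n
  have hV := finite_hom ht0 (Cpn p n)
  have : Fintype (Gp t →* Cpn p n) := Fintype.ofFinite _
  obtain ⟨x, hx⟩ := exists_defect hD hM hI hP
  obtain ⟨c, -, hc2, hc3, -, hc5⟩ := exists_gens (p := p) hsq
  have hc' := hc5 n (fun i => ht i.1 i.2)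
  have hcl := closure_toGp hc2
  have hp2 := hD.ne_two
  -- reduction modulo `p`
  obtain ⟨q, hq⟩ := exists_hom_Cpn (p := p) (n := n) (C := Multiplicative (ZMod p))
    (a := Multiplicative.ofAdd 1) (by
      apply Multiplicative.toAdd.injective
      rw [toAdd_pow, toAdd_ofAdd, nsmul_eq_mul, mul_one, toAdd_one, Nat.cast_pow,
        CharP.cast_eq_zero, zero_pow (by omega)])
  let ρ : (Gp t →* Cpn p n) →* (t.primeFactors → Multiplicative (ZMod p)) :=
    { toFun := fun ψ i => q (ψ (toGp t (c i)))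
      map_one' := by
        funext i
        show q ((1 : Gp t →* Cpn p n) (toGp t (c i))) = 1
        rw [MonoidHom.one_apply, map_one]
      map_mul' := fun ψ ψ' => by
        funext i
        show q ((ψ * ψ') (toGp t (c i))) = q (ψ (toGp t (c i))) * q (ψ' (toGp t (c i)))
        rw [MonoidHom.mul_apply, map_mul] }
  have hρu : ∀ (ψ : Gp t →* Cpn p n) (u : t.primeFactors → ℕ),
      (∀ i, ψ (toGp t (c i)) = gam p n ^ u i) →
      ∀ i, Multiplicative.toAdd (ρ ψ i) = (u i : ZMod p) := by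
    intro ψ u hu i
    show Multiplicative.toAdd (q (ψ (toGp t (c i)))) = _
    rw [hu, map_pow, hq, toAdd_pow, toAdd_ofAdd, nsmul_eq_mul, mul_one]
  have hex : ∀ u : t.primeFactors → ℕ, ∃ ψ : Gp t →* Cpn p n,
      ∀ i, ψ (toGp t (c i)) = gam p n ^ u i := by
    intro u
    obtain ⟨φ0, h0⟩ := hc' u
    obtain ⟨φ, hφ⟩ := exists_hom_Gp hp2 φ0
    exact ⟨φ, fun i => by rw [hφ, h0]⟩
  have hval : ∀ ψ : Gp t →* Cpn p n, ∃ u : t.primeFactors → ℕ,
      ∀ i, ψ (toGp t (c i)) = gam p n ^ u i := by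
    intro ψ
    choose u hu using fun i : t.primeFactors => gam_pow_val (ψ (toGp t (c i)))
    exact ⟨u, fun i => (hu i).symm⟩
  have hρs : Function.Surjective ρ := by
    intro v
    obtain ⟨ψ, hψ⟩ := hex (fun i => (Multiplicative.toAdd (v i)).val)
    refine ⟨ψ, ?_⟩
    funext i
    apply Multiplicative.toAdd.injective
    rw [hρu ψ _ hψ, ZMod.natCast_zmod_val]
  have hsurj : ∀ ψ : Gp t →* Cpn p n, Function.Surjective ψ ↔ ρ ψ ≠ 1 := by
    intro ψ
    constructor
    · intro hs h1
      have h2 : q.comp ψ = 1 := hom_ext_gens hcl fun i => by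
        rw [MonoidHom.comp_apply, MonoidHom.one_apply]
        exact congrFun h1 i
      obtain ⟨y, hy⟩ := hs (gam p n)
      have h3 := DFunLike.congr_fun h2 y
      rw [MonoidHom.comp_apply, hy, hq, MonoidHom.one_apply] at h3
      have h4 : (1 : ZMod p) = 0 := Multiplicative.ofAdd.injective h3
      exact one_ne_zero h4
    · intro h1
      by_contra hs
      apply h1
      obtain ⟨u, hu⟩ := hval ψ
      funext i
      apply Multiplicative.toAdd.injective
      rw [hρu ψ u hu]
      have h2 := dvd_of_not_surjective hs (hu i)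
      exact (ZMod.natCast_eq_zero_iff (u i) p).mpr h2
  -- the good homomorphisms
  set Sg := {ψ : Gp t →* Cpn p n // Function.Surjective ψ ∧ D.Q1At p t ψ} with hSg
  let T : Set (t.primeFactors → ℕ) := {u | ∃ ψ : Gp t →* Cpn p n,
    (∀ i, ψ (toGp t (c i)) = gam p n ^ u i) ∧ Function.Surjective ψ ∧ D.Q1At p t ψ}
  set s := t.primeFactors.card with hs
  have hcardι : Fintype.card (t.primeFactors → Multiplicative (ZMod p)) = p ^ s := by
    rw [Fintype.card_fun, Fintype.card_coe]
    congr 1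
    rw [← Nat.card_eq_fintype_card, Nat.card_congr Multiplicative.toAdd, Nat.card_zmod]
  have hV0 : 0 < Fintype.card (Gp t →* Cpn p n) := Fintype.card_pos
  have hcount1 : Nat.card {ψ : Gp t →* Cpn p n // Function.Surjective ψ} * p ^ s =
      (p ^ s - 1) * Fintype.card (Gp t →* Cpn p n) := by
    have h1 := card_preimage ρ hρs (Finset.univ.erase 1)
    rw [hcardι, Finset.card_erase_of_mem (Finset.mem_univ _), Finset.card_univ, hcardι] at h1
    rw [← h1, Nat.card_eq_fintype_card, Fintype.card_subtype]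
    congr 2
    ext ψ
    simp [hsurj]
  have hpos : 0 < Nat.card Sg := by
    have h1 : 0 < Nat.card {ψ : Gp t →* Cpn p n // Function.Surjective ψ} := by
      by_contra h0
      have h0' : Nat.card {ψ : Gp t →* Cpn p n // Function.Surjective ψ} = 0 := by omega
      rw [h0', zero_mul] at hcount1
      have hs1 : s ≠ 0 := by
        intro hs0
        have h2 := Finset.card_eq_zero.mp hs0
        rcases Nat.primeFactors_eq_empty.mp h2 with h3 | h3
        · exact ht0 h3
        · exact ht1 h3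
      have h2 : 1 < p ^ s := Nat.one_lt_pow hs1 hp.out.one_lt
      have h3 : 0 < (p ^ s - 1) * Fintype.card (Gp t →* Cpn p n) :=
        Nat.mul_pos (by omega) hV0
      omega
    have h2 : 0 < D.r * Nat.card {ψ : Gp t →* Cpn p n // Function.Surjective ψ} :=
      Nat.mul_pos hr1 h1
    refine Nat.pos_of_ne_zero fun h0 => ?_
    have h3 := lt_of_lt_of_le h2 h
    have h4 : Nat.card {ψ : Gp t →* Cpn p n // Function.Surjective ψ ∧ D.Q1At p t ψ} = 0 := h0
    rw [h4, mul_zero] at h3
    exact lt_irrefl _ h3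
  have hne : T.Nonempty := by
    have h1 : Nonempty Sg := by
      rw [Nat.card_pos_iff] at hpos
      exact hpos.1
    obtain ⟨ψ, h2, h3⟩ := h1
    obtain ⟨u, hu⟩ := hval ψ
    exact ⟨u, ψ, hu, h2, h3⟩
  refine (hx G f hf).mpr (all_of_determining hp2 hr hc2 hc' (T := T) hne ?_ ?_ f hG)
  · intro k hk F hF hFT
    by_contra hF0
    have hk0 : k ≠ 0 := by
      rintro rfl
      obtain ⟨u, hu⟩ := hne
      apply hF0
      have h1 := hFT u hu
      have h2 : F = MvPolynomial.C (F.coeff 0) := by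
        have h3 := hF.totalDegree hF0
        exact MvPolynomial.totalDegree_eq_zero_iff_eq_C.mp h3
      rw [h2, MvPolynomial.eval_C] at h1
      rw [h2, h1, map_zero]
    set Z := Finset.univ.filter fun v : t.primeFactors → ZMod p => MvPolynomial.eval v F = 0
      with hZ
    set S' : Finset (t.primeFactors → Multiplicative (ZMod p)) :=
      Finset.univ.filter fun w => MvPolynomial.eval (fun i => Multiplicative.toAdd (w i)) F = 0
      with hS'
    have hcard : S'.card = Z.card := by
      refine Finset.card_bij' (fun w _ i => Multiplicative.toAdd (w i))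
        (fun v _ i => Multiplicative.ofAdd (v i)) ?_ ?_ ?_ ?_
      · intro w hw
        exact Finset.mem_filter.mpr ⟨Finset.mem_univ _, (Finset.mem_filter.mp hw).2⟩
      · intro v hv
        exact Finset.mem_filter.mpr ⟨Finset.mem_univ _, (Finset.mem_filter.mp hv).2⟩
      · intro w _
        rfl
      · intro v _
        rfl
    have h1S : (1 : t.primeFactors → Multiplicative (ZMod p)) ∈ S' := by
      refine Finset.mem_filter.mpr ⟨Finset.mem_univ _, ?_⟩
      show MvPolynomial.eval (0 : t.primeFactors → ZMod p) F = 0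
      rw [MvPolynomial.eval_zero, MvPolynomial.constantCoeff_eq]
      exact hF.coeff_eq_zero (by
        rw [map_zero]
        exact Ne.symm hk0)
    have h2 := card_preimage ρ hρs (S'.erase 1)
    rw [hcardι, Finset.card_erase_of_mem h1S, hcard] at h2
    have h3 : Nat.card Sg ≤ (Finset.univ.filter fun ψ => ρ ψ ∈ S'.erase 1).card := by
      rw [hSg, Nat.card_eq_fintype_card, Fintype.card_subtype]
      refine Finset.card_le_card fun ψ hψ => ?_
      obtain ⟨h4, h5⟩ := (Finset.mem_filter.mp hψ).2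
      refine Finset.mem_filter.mpr ⟨Finset.mem_univ _, Finset.mem_erase.mpr
        ⟨(hsurj ψ).mp h4, Finset.mem_filter.mpr ⟨Finset.mem_univ _, ?_⟩⟩⟩
      obtain ⟨u, hu⟩ := hval ψ
      have h6 := hFT u ⟨ψ, hu, h4, h5⟩
      have h7 : (fun i => Multiplicative.toAdd (ρ ψ i)) = fun i => (u i : ZMod p) := by
        funext i
        exact hρu ψ u hu i
      rw [h7]
      exact h6
    have h4 := sz hF0
    rw [hF.totalDegree hF0, Fintype.card_coe] at h4
    refine count_zero_one hV0 hcount1 (Gd := Nat.card Sg) (Z := Z.card) ?_ h4 ?_ hk hr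
      (Nat.pow_pos hp.out.pos) h
    · exact (Nat.mul_le_mul_right _ h3).trans h2.le
    · rw [← hcard]
      exact Finset.card_pos.mpr ⟨1, h1S⟩
  · rintro u ⟨ψ, hψ, h1, h2⟩
    exact ⟨ψ, hψ, (hx _ ψ h1).mp h2⟩

end MTData

end MTate
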