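import Mathlib
import Pool.Agent.Lib.MP_5deabe_nt.ZeroOne
import Pool.Agent.Lib.MP_5deabe_nt.Lattice
import Pool.Agent.Lib.MP_5deabe_nt.Defect

/-!
# A small set of cyclic fields which decides Q1
-/

namespace MTate

open MonoidAlgebra

variable {p : ℕ} [hp : Fact p.Prime] {D : MTData}

/-- the homomorphism `∏ χ_l ^ a_l` for homomorphisms `χ_l` of conductor `l` -/
noncomputable def chiProd {m n : ℕ} (χ : ∀ l : ℕ, Gp l →* Cpn p n) (a : ℕ → ℕ) : Gp m →* Cpn p n :=
  ∏ l : m.primeFactors, ((χ l).comp (res (Nat.dvd_of_mem_primeFactors l.2))) ^ a l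

/-- values of a homomorphism of conductor `l` at the generators -/
theorem chi_gen {m : ℕ} {c : m.primeFactors → Gm m}
    (hc3 : ∀ (i : m.primeFactors) (d : ℕ) (hml : m = d * i),
      ZMod.unitsMap (m := m) (n := d) ⟨i, hml⟩ (c i) = 1) {C : Type*} [CommGroup C]
    (l : m.primeFactors) (χ : Gp (l : ℕ) →* C) (i : m.primeFactors) (h : i ≠ l) :
    χ (res (Nat.dvd_of_mem_primeFactors l.2) (toGp m (c i))) = 1 := by
  have hm : m = (m / i.1) * i.1 := (Nat.div_mul_cancel (Nat.dvd_of_mem_primeFactors i.2)).symm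
  have hl : l.1.Prime := Nat.prime_of_mem_primeFactors l.2
  have hi : i.1.Prime := Nat.prime_of_mem_primeFactors i.2
  have hlm : l.1 ∣ m := Nat.dvd_of_mem_primeFactors l.2
  have h1 : l.1 ∣ m / i.1 := by
    have h2 : l.1 ∣ (m / i.1) * i.1 := by rw [← hm]; exact hlm
    rcases hl.dvd_mul.mp h2 with h3 | h3
    · exact h3
    · exact absurd (Subtype.ext ((Nat.prime_dvd_prime_iff_eq hl hi).mp h3)) h.symm
  have h2 : res (m := m) (d := l.1) hlm (toGp m (c i)) = 1 := by
    rw [← res_res (m := m) (d := m / i.1) (e := l.1) ⟨i.1, hm⟩ h1, res_toGp, hc3 i _ hm, map_one,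
      map_one]
  rw [h2, map_one]

omit hp in
/-- the values of `chiProd` -/
theorem chiProd_gen {m n : ℕ} {c : m.primeFactors → Gm m}
    (hc3 : ∀ (i : m.primeFactors) (d : ℕ) (hml : m = d * i),
      ZMod.unitsMap (m := m) (n := d) ⟨i, hml⟩ (c i) = 1) (χ : ∀ l : ℕ, Gp l →* Cpn p n)
    (a : ℕ → ℕ) (i : m.primeFactors) : chiProd (m := m) χ a (toGp m (c i)) =
      (χ i (res (Nat.dvd_of_mem_primeFactors i.2) (toGp m (c i)))) ^ a i := by
  unfold chiProd
  rw [MonoidHom.finsetProd_apply, Finset.prod_eq_single i]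
  · rw [MonoidHom.pow_apply, MonoidHom.comp_apply]
  · intro j _ hj
    rw [MonoidHom.pow_apply, MonoidHom.comp_apply, chi_gen hc3 j (χ j) i hj.symm, one_pow]
  · intro h
    exact absurd (Finset.mem_univ i) h

/-- the value of a surjective homomorphism of prime conductor at the generator -/
theorem chi_unit {m n : ℕ} (hn : 1 ≤ n) {c : m.primeFactors → Gm m} (hm0 : m ≠ 0)
    (hc : Subgroup.closure (Set.range c) = ⊤)
    (hc3 : ∀ (i : m.primeFactors) (d : ℕ) (hml : m = d * i),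
      ZMod.unitsMap (m := m) (n := d) ⟨i, hml⟩ (c i) = 1) (i : m.primeFactors)
    {χ : Gp (i : ℕ) →* Cpn p n} (hχ : Function.Surjective χ) : ∃ v : ℕ, p.Coprime v ∧
      χ (res (Nat.dvd_of_mem_primeFactors i.2) (toGp m (c i))) = gam p n ^ v := by
  obtain ⟨v, hv⟩ := gam_pow_val (χ (res (Nat.dvd_of_mem_primeFactors i.2) (toGp m (c i))))
  refine ⟨v, ?_, hv.symm⟩
  rw [Nat.Prime.coprime_iff_not_dvd hp.out]
  intro hdvd
  obtain ⟨w, rfl⟩ := hdvd
  -- all values are `p`-th powers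
  have h1 : ∀ g : Gp m, ∃ y : Cpn p n, χ (res (Nat.dvd_of_mem_primeFactors i.2) g) = y ^ p := by
    intro g
    have hg : g ∈ Subgroup.closure (Set.range fun j => toGp m (c j)) := by
      rw [closure_toGp hc]
      trivial
    induction hg using Subgroup.closure_induction with
    | mem x hx =>
      obtain ⟨j, rfl⟩ := hx
      by_cases hj : j = i
      · subst hj
        refine ⟨gam p n ^ w, ?_⟩
        show χ (res _ (toGp m (c j))) = _
        rw [← hv, ← pow_mul, mul_comm]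
      · refine ⟨1, ?_⟩
        rw [one_pow]
        exact chi_gen hc3 i χ j hj
    | one => exact ⟨1, by rw [map_one, map_one, one_pow]⟩
    | mul x y _ _ hx hy =>
      obtain ⟨a, ha⟩ := hx
      obtain ⟨b, hb⟩ := hy
      exact ⟨a * b, by rw [map_mul, map_mul, ha, hb, mul_pow]⟩
    | inv x _ hx =>
      obtain ⟨a, ha⟩ := hx
      exact ⟨a⁻¹, by rw [map_inv, map_inv, ha, inv_pow]⟩
  obtain ⟨z, hz⟩ := hχ (gam p n)
  obtain ⟨g, hg⟩ := res_surjective hm0 (Nat.dvd_of_mem_primeFactors i.2) z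
  obtain ⟨y, hy⟩ := h1 g
  rw [hg, hz] at hy
  obtain ⟨k, hk⟩ := gam_pow_val y
  rw [← hk, ← pow_mul] at hy
  have h2 := (gam_pow_eq_iff 1 (k * p)).mp (by rw [pow_one]; exact hy)
  have h3 : 1 ≡ k * p [MOD p] := h2.of_dvd (dvd_pow_self p (by omega))
  have h4 : 1 ≡ 0 [MOD p] := h3.trans (Nat.modEq_zero_iff_dvd.mpr (Dvd.intro_left k rfl))
  exact hp.out.one_lt.ne' (Nat.dvd_one.mp (Nat.modEq_zero_iff_dvd.mp h4))

/-- the lattice of test homomorphisms decides everything -/
theorem all_of_lattice (hp2 : p ≠ 2) {m n r : ℕ} (hr1 : 1 ≤ r) (hr : r < p) (hn : 1 ≤ n)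
    (hsq : Squarefree m) (hm1 : m ≠ 1) (hdiv : ∀ l ∈ m.primeFactors, p ^ n ∣ l - 1)
    {χ : ∀ l : ℕ, Gp l →* Cpn p n} (hχ : ∀ l ∈ m.primeFactors, Function.Surjective (χ l))
    {x : MonoidAlgebra ℤ_[p] (Gp m)}
    (hx : ∀ a : ℕ → ℕ, (∑ l ∈ m.primeFactors, a l = r) → (∀ l, l ∉ m.primeFactors → a l = 0) →
      push (chiProd χ a) x ∈ augI ℤ_[p] (Cpn p n) ^ (r + 1))
    {G : Type*} [CommGroup G] [Finite G] (f : Gp m →* G)
    (hG : ∃ k, p.Coprime k ∧ ∀ g : G, g ^ (p ^ n * k) = 1) :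
    push f x ∈ augI ℤ_[p] G ^ (r + 1) := by
  classical
  obtain ⟨c, -, hc2, hc3, -, hc5⟩ := exists_gens (p := p) hsq
  have hc' := hc5 n (fun i => hdiv i.1 i.2)
  choose v hv hv' using fun i : m.primeFactors =>
    chi_unit hn hsq.ne_zero hc2 hc3 i (hχ i.1 i.2)
  have hne : Nonempty m.primeFactors := by
    obtain ⟨l, hl, hlm⟩ := Nat.exists_prime_and_dvd hm1
    exact ⟨⟨l, Nat.mem_primeFactors.mpr ⟨hl, hlm, hsq.ne_zero⟩⟩⟩
  have hv0 : ∀ i, ((v i : ℕ) : ZMod p) ≠ 0 := by
    intro i h0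
    rw [ZMod.natCast_eq_zero_iff] at h0
    exact (Nat.Prime.coprime_iff_not_dvd hp.out).mp (hv i) h0
  let T : Set (m.primeFactors → ℕ) := {u | ∃ a : m.primeFactors → ℕ, ∑ i, a i = r ∧
    u = fun i => v i * a i}
  refine all_of_determining hp2 hr hc2 hc' (T := T) ?_ ?_ ?_ f hG
  · obtain ⟨i⟩ := hne
    refine ⟨_, Pi.single i r, ?_, rfl⟩
    rw [Finset.sum_pi_single']
    simp
  · intro k hk F hF hFT
    refine form_eq_zero' hr1 hr hv0 hk hF hne fun a ha => ?_
    have h1 := hFT _ ⟨a, ha, rfl⟩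
    have h2 : (fun i => ((v i * a i : ℕ) : ZMod p)) = fun i => (v i : ZMod p) * (a i : ZMod p) := by
      funext i
      push_cast
      rfl
    rw [← h2]
    exact h1
  · rintro u ⟨a, ha, rfl⟩
    let a' : ℕ → ℕ := fun l => if h : l ∈ m.primeFactors then a ⟨l, h⟩ else 0
    have ha' : ∀ i : m.primeFactors, a' i = a i := fun i => dif_pos i.2
    refine ⟨chiProd χ a', fun i => ?_, hx a' ?_ ?_⟩
    · rw [chiProd_gen hc3, hv', ha', ← pow_mul]
    · rw [← ha, ← Finset.sum_coe_sort]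
      exact Finset.sum_congr rfl fun i _ => ha' i
    · intro l hl
      exact dif_neg hl

omit hp in
/-- `chiProd` and restriction -/
theorem chiProd_res {M m n : ℕ} (hM : M ≠ 0) (hm : m ∣ M) (χ : ∀ l : ℕ, Gp l →* Cpn p n)
    {a : ℕ → ℕ} (ha : ∀ l, l ∉ m.primeFactors → a l = 0) :
    (chiProd (m := m) χ a).comp (res hm) = chiProd (m := M) χ a := by
  classical
  ext g
  rw [MonoidHom.comp_apply]
  unfold chiProd
  rw [MonoidHom.finsetProd_apply, MonoidHom.finsetProd_apply]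
  let E : ℕ → Cpn p n := fun l => if h : l ∣ M then (χ l (res h g)) ^ a l else 1
  have h1 : ∀ l : M.primeFactors, ((((χ l).comp (res (Nat.dvd_of_mem_primeFactors l.2))) ^ a l :
      Gp M →* Cpn p n) g) = E l := by
    intro l
    show _ = dite _ _ _
    rw [dif_pos (Nat.dvd_of_mem_primeFactors l.2)]
    rfl
  have h2 : ∀ l : m.primeFactors, ((((χ l).comp (res (Nat.dvd_of_mem_primeFactors l.2))) ^ a l :
      Gp m →* Cpn p n) (res hm g)) = E l := by
    intro l
    have hl := Nat.dvd_of_mem_primeFactors l.2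
    show _ = dite _ _ _
    rw [dif_pos (hl.trans hm), MonoidHom.pow_apply, MonoidHom.comp_apply, res_res]
  rw [Finset.prod_congr rfl fun l _ => h1 l, Finset.prod_congr rfl fun l _ => h2 l,
    Finset.prod_coe_sort m.primeFactors E, Finset.prod_coe_sort M.primeFactors E]
  have h3 : ∀ l ∈ M.primeFactors, l ∉ m.primeFactors → E l = 1 := by
    intro l _ hl
    show (if h : l ∣ M then (χ l (res h g)) ^ a l else 1) = 1
    split_ifs
    · rw [ha l hl, pow_zero]
    · rfl
  exact Finset.prod_subset (Nat.primeFactors_mono hm hM) h3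

/-- totally ramified primes are congruent to `1` modulo `p ^ n` -/
theorem totRam_dvd {m n : ℕ} (hsq : Squarefree m) (hn : 1 ≤ n) {G : Type*} [CommGroup G]
    [IsCyclic G] [Finite G] (hcard : Nat.card G = p ^ n) {f : Gp m →* G} (h : TotRam m f) :
    ∀ l ∈ m.primeFactors, p ^ n ∣ l - 1 := by
  intro l hl
  have hfC := Cpn_finite (p := p) n
  let e : G ≃* Cpn p n := mulEquivOfCyclicCardEq (by rw [hcard, Cpn_card])
  have h' : TotRam m (e.toMonoidHom.comp f) := by
    intro d q hml hq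
    rw [← Subgroup.map_map, h d q hml hq]
    exact Subgroup.map_top_of_surjective _ e.surjective
  obtain ⟨c, hc1, -, -, hc4, -⟩ := exists_gens (p := p) hsq
  obtain ⟨u, hu, huf⟩ := h'.exists_unit hn (i := ⟨l, hl⟩) (c := c ⟨l, hl⟩) (hc4 _)
  have h1 : (gam p n ^ u) ^ (l - 1) = 1 := by
    rw [← huf, ← map_pow, ← map_pow, hc1 ⟨l, hl⟩, map_one, map_one]
  rw [← pow_mul] at h1
  have h2 := (gam_pow_eq_iff (p := p) (n := n) (u * (l - 1)) 0).mp (by rw [pow_zero]; exact h1)
  have h3 : p ^ n ∣ u * (l - 1) := Nat.modEq_zero_iff_dvd.mp h2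
  exact (Nat.Coprime.pow_left n hu).dvd_of_dvd_mul_left h3

/-- the test homomorphisms are surjective -/
theorem chiProd_surjective {m n r : ℕ} (hsq : Squarefree m) (hr1 : 1 ≤ r) (hr : r < p)
    (hn : 1 ≤ n) {χ : ∀ l : ℕ, Gp l →* Cpn p n} {a : ℕ → ℕ}
    (hχ : ∀ l ∈ m.primeFactors, a l ≠ 0 → Function.Surjective (χ l))
    (ha : ∑ l ∈ m.primeFactors, a l = r) :
    Function.Surjective (chiProd (m := m) χ a) := by
  obtain ⟨c, -, hc2, hc3, -, -⟩ := exists_gens (p := p) hsq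
  have h1 : ∃ l ∈ m.primeFactors, a l ≠ 0 := by
    by_contra hcon
    push Not at hcon
    rw [Finset.sum_eq_zero hcon] at ha
    omega
  obtain ⟨l, hl, hal⟩ := h1
  obtain ⟨v, hv, hv'⟩ := chi_unit hn hsq.ne_zero hc2 hc3 ⟨l, hl⟩ (hχ l hl hal)
  have h2 : chiProd (m := m) χ a (toGp m (c ⟨l, hl⟩)) = gam p n ^ (v * a l) := by
    rw [chiProd_gen hc3, pow_mul, ← hv']
  have h3 : a l ≤ r := by
    rw [← ha]
    exact Finset.single_le_sum (f := a) (fun _ _ => Nat.zero_le _) hl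
  have h4 : p.Coprime (a l) := by
    rw [Nat.Prime.coprime_iff_not_dvd hp.out]
    intro hd
    have := Nat.le_of_dvd (Nat.pos_of_ne_zero hal) hd
    omega
  intro y
  obtain ⟨j, hj⟩ := gam_pow_gen (n := n) (hv.mul_right h4) y
  exact ⟨toGp m (c ⟨l, hl⟩) ^ j, by rw [map_pow, h2, hj]⟩

namespace MTData

/-- **A small set of cyclic fields decides Q1.** -/
theorem test_set (hD : D.Valid p) (hr1 : 1 ≤ D.r) (hr : D.r < p) {M : ℕ} (hM : D.Adm p M)
    (hI : D.Integral p M) (hP : D.Pairing p M) {χ : ∀ n l : ℕ, Gp l →* Cpn p n}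
    (hχ : ∀ n, ∀ l ∈ M.primeFactors, p ^ n ∣ l - 1 → Function.Surjective (χ n l)) :
    (∀ m, m ∣ M → ∀ (G : Type) [CommGroup G] (f : Gp m →* G), IsField m f → D.Q1 p m f) ↔
    (∀ (G : Type) [CommGroup G] (f : Gp 1 →* G), IsField 1 f → D.Q1 p 1 f) ∧
    (∀ n, 1 ≤ n → ∀ a : ℕ → ℕ, (∀ l, a l ≠ 0 → l ∈ M.primeFactors ∧ p ^ n ∣ l - 1) →
      ∑ l ∈ M.primeFactors, a l = D.r → D.Q1At p M (chiProd (χ n) a)) := by
  have hM0 : M ≠ 0 := hM.1.ne_zero
  constructor
  · intro h
    refine ⟨fun G _ f hf => h 1 (one_dvd M) G f hf, fun n hn a ha hs => ?_⟩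
    obtain ⟨d, hd, f', hf', hff⟩ := exists_field hM0 (chiProd_surjective hM.1 hr1 hr hn
      (fun l hl hal => hχ n l hl (ha l hal).2) hs)
    exact ⟨d, hd, f', hf', hff, h d hd _ f' hf'⟩
  · rintro ⟨h1, h2⟩
    obtain ⟨x, hx⟩ := exists_defect' hD hM hI hP
    have star : ∀ m (hm : m ∣ M), m ≠ 1 → ∀ n, 1 ≤ n → (∀ l ∈ m.primeFactors, p ^ n ∣ l - 1) →
        ∀ (G : Type) [CommGroup G] (f : Gp m →* G), IsField m f →
        (∀ g : G, g ^ p ^ n = 1) → D.Q1 p m f := by
      intro m hm hm1 n hn hdiv G _ f hf hG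
      have hsq := hM.1.squarefree_of_dvd hm
      have hfG : Finite G := by
        have := finite_Gp hsq.ne_zero
        exact Finite.of_surjective f hf.1
      have hfC := Cpn_finite (p := p) n
      have hsub : m.primeFactors ⊆ M.primeFactors := Nat.primeFactors_mono hm hM0
      refine (hx m hm G f hf).mpr ?_
      rw [← push_push]
      refine all_of_lattice hD.ne_two hr1 hr hn hsq hm1 hdiv
        (fun l hl => hχ n l (hsub hl) (hdiv l hl)) (fun a ha ha0 => ?_) f
        ⟨1, Nat.coprime_one_right p, fun g => by rw [mul_one, hG]⟩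
      obtain ⟨d, hd, f', hf', hff, hQ⟩ := h2 n hn a (fun l hl => by
        by_contra hcon
        apply hl
        apply ha0
        intro hlm
        exact hcon ⟨hsub hlm, hdiv l hlm⟩) (by
        rw [← ha]
        exact (Finset.sum_subset hsub fun l _ hl => ha0 l hl).symm)
      rw [push_push, chiProd_res hM0 hm (χ n) ha0, ← hff]
      exact (hx d hd _ f' hf').mp hQ
    refine (reduction hD hM).mpr ⟨hI, ?_, ?_⟩
    · intro m hm _ G _ f hf hcard hcyc
      obtain ⟨n, hn⟩ := hcard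
      obtain ⟨hc, htr⟩ := hcyc hr
      rcases eq_or_ne m 1 with rfl | hm1
      · exact h1 G f hf
      · have hsq := hM.1.squarefree_of_dvd hm
        have hfG : Finite G := by
          have := finite_Gp hsq.ne_zero
          exact Finite.of_surjective f hf.1
        rcases Nat.eq_zero_or_pos n with rfl | hn0
        · exfalso
          rw [pow_zero] at hn
          have : Subsingleton G := (Nat.card_eq_one_iff_unique.mp hn).1
          apply hm1
          refine (hf.2 1 (one_dvd m) ?_).symm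
          intro y _
          exact Subsingleton.elim _ _
        · refine star m hm hm1 n hn0 (totRam_dvd hsq hn0 hn htr) G f hf fun g => ?_
          rw [← hn]
          exact pow_card_eq_one'
    · intro _ m hm hm1 _ n hn hdiv
      have hsq := hM.1.squarefree_of_dvd hm
      obtain ⟨c, hc1, hc2, hc3, hc4, hc5⟩ := exists_gens (p := p) hsq
      obtain ⟨φ, hφ, htr, hs⟩ := exists_totRam (u := fun _ => 1) hD.ne_two hsq.ne_zero hc3
        (fun i => Nat.coprime_one_right p) (hc5 n (fun i => hdiv i.1 i.2) fun _ => 1)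
      have := Cpn_nontrivial (p := p) hn
      have hfield := htr.isField (hs hm1)
      exact ⟨φ, hfield, htr, star m hm hm1 n hn hdiv _ φ hfield fun g => Cpn_pow_card g⟩

end MTData

end MTate
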